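import Pool.Agent.H442R2.EHI.PntErr

/-! Project EX (helper76): primes with a prescribed prefix, from the prime number theorem with an
error term `x / (log x) ^ U`. -/

set_option autoImplicit false

namespace Pool.Agent.Helper76x.EX

open Finset Filter

/-- the primes in `(A, B]` -/
def prs (A B : ℕ) : Finset ℕ := (Ioc A B).filter Nat.Prime

theorem theta_diff {A B : ℕ} (h : A ≤ B) :
    Chebyshev.theta (B : ℝ) - Chebyshev.theta (A : ℝ) = ∑ p ∈ prs A B, Real.log p := by
  unfold Chebyshev.theta prs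
  rw [Nat.floor_natCast, Nat.floor_natCast, Finset.sum_filter, Finset.sum_filter, Finset.sum_filter,
    sub_eq_iff_eq_add]
  rw [← Finset.Ioc_union_Ioc_eq_Ioc (Nat.zero_le A) h, Finset.sum_union, add_comm]
  rw [Finset.disjoint_left]
  intro x hx hx'
  rw [mem_Ioc] at hx hx'
  omega

theorem card_lower (U : ℕ) : ∃ C : ℝ, 0 < C ∧ ∀ A B : ℕ, 2 ≤ A → A ≤ B →
    ((B : ℝ) - A) - C * (B / Real.log A ^ U) ≤ (prs A B).card * Real.log B := by
  obtain ⟨C, hC, h⟩ := Pool.Agent.H442R2.EHI.PntErrAux.thetaU U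
  refine ⟨2 * C, by positivity, fun A B hA hAB => ?_⟩
  have hA2 : (2 : ℝ) ≤ A := by exact_mod_cast hA
  have hAB' : (A : ℝ) ≤ B := by exact_mod_cast hAB
  have hlA : 0 < Real.log A := Real.log_pos (by linarith)
  have hlAB : Real.log A ≤ Real.log B := Real.log_le_log (by linarith) hAB'
  have h1 := (abs_le.1 (h B (hA.trans hAB))).1
  have h2 := (abs_le.1 (h A hA)).2
  have h3 : (B : ℝ) / Real.log B ^ U ≤ B / Real.log A ^ U := by
    apply div_le_div_of_nonneg_left (by linarith) (by positivity)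
    exact pow_le_pow_left₀ hlA.le hlAB U
  have h4 : (A : ℝ) / Real.log A ^ U ≤ B / Real.log A ^ U :=
    div_le_div_of_nonneg_right hAB' (by positivity)
  have h5 := theta_diff hAB
  have h6 : ∑ p ∈ prs A B, Real.log p ≤ (prs A B).card * Real.log B := by
    rw [← nsmul_eq_mul]
    apply Finset.sum_le_card_nsmul
    intro p hp
    unfold prs at hp
    rw [mem_filter, mem_Ioc] at hp
    exact Real.log_le_log (by exact_mod_cast (by omega : 0 < p)) (by exact_mod_cast hp.1.2)
  have h7 : C * ((B : ℝ) / Real.log B ^ U) ≤ C * (B / Real.log A ^ U) :=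
    mul_le_mul_of_nonneg_left h3 hC.le
  have h8 : C * ((A : ℝ) / Real.log A ^ U) ≤ C * (B / Real.log A ^ U) :=
    mul_le_mul_of_nonneg_left h4 hC.le
  linarith

theorem exists_prime {u v : ℝ} (hu : 0 < u) (huv : u < v) :
    ∀ᶠ X : ℝ in atTop, ∃ q : ℕ, q.Prime ∧ u * X < q ∧ q < v * X := by
  obtain ⟨C, hC, h⟩ := card_lower 1
  -- work with w between u and v
  set w := (u + v) / 2 with hw
  have hw1 : u < w := by rw [hw]; linarith
  have hw2 : w < v := by rw [hw]; linarith
  have hlog : Tendsto (fun X : ℝ => Real.log (u * X)) atTop atTop :=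
    Real.tendsto_log_atTop.comp (tendsto_id.const_mul_atTop hu)
  filter_upwards [hlog.eventually_ge_atTop (2 * C * w / (w - u) + 1),
    eventually_ge_atTop (4 / (w - u)), eventually_ge_atTop (4 / u), eventually_gt_atTop 0]
    with X h1 h2 h3 hX
  rw [div_le_iff₀ (by linarith)] at h2
  rw [div_le_iff₀ hu] at h3
  set A := ⌈u * X⌉₊ with hA
  set B := ⌊w * X⌋₊ with hB
  have huX : 0 < u * X := by positivity
  have hA1 : u * X ≤ A := Nat.le_ceil _
  have hA2 : (A : ℝ) < u * X + 1 := Nat.ceil_lt_add_one huX.le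
  have hB1 : (B : ℝ) ≤ w * X := Nat.floor_le (by nlinarith)
  have hB2 : w * X < B + 1 := Nat.lt_floor_add_one _
  have hA4 : (4 : ℝ) ≤ A := by nlinarith
  have hAB : (A : ℝ) ≤ B := by nlinarith
  have hAB' : A ≤ B := by exact_mod_cast hAB
  have hA2' : 2 ≤ A := by
    have : (2 : ℝ) ≤ A := by linarith
    exact_mod_cast this
  have hl : Real.log (u * X) ≤ Real.log A := Real.log_le_log huX hA1
  have hl0 : 0 < Real.log (u * X) := by
    have : 0 < 2 * C * w / (w - u) := by
      have : 0 < w - u := by linarith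
      have : 0 < w := by linarith
      positivity
    linarith
  have key := h A B hA2' hAB'
  rw [pow_one] at key
  have h5 : C * ((B : ℝ) / Real.log A) ≤ (w - u) * X / 2 := by
    have e1 : (B : ℝ) / Real.log A ≤ w * X / Real.log (u * X) := by
      apply div_le_div₀ (by nlinarith) hB1 hl0 hl
    have e2 : w * X / Real.log (u * X) ≤ (w - u) * X / (2 * C) := by
      rw [div_le_div_iff₀ hl0 (by positivity)]
      have e3 : 2 * C * w / (w - u) ≤ Real.log (u * X) := by linarith
      rw [div_le_iff₀ (by linarith)] at e3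
      nlinarith
    calc C * ((B : ℝ) / Real.log A) ≤ C * ((w - u) * X / (2 * C)) :=
          mul_le_mul_of_nonneg_left (e1.trans e2) hC.le
      _ = (w - u) * X / 2 := by field_simp
  have h6 : 0 < ((prs A B).card : ℝ) * Real.log B := by
    refine lt_of_lt_of_le ?_ key
    nlinarith
  have h7 : 0 < (prs A B).card := by
    rcases Nat.eq_zero_or_pos (prs A B).card with h0 | h0
    · rw [h0] at h6; simp at h6
    · exact h0
  obtain ⟨q, hq⟩ := Finset.card_pos.1 h7
  unfold prs at hq
  rw [mem_filter, mem_Ioc] at hq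
  refine ⟨q, hq.2, ?_, ?_⟩
  · have : (A : ℝ) < q := by exact_mod_cast hq.1.1
    linarith
  · have : (q : ℝ) ≤ B := by exact_mod_cast hq.1.2
    nlinarith

end Pool.Agent.Helper76x.EX
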