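import Pool.Agent.Helper76x.EX.Run
import Pool.Agent.Helper76x.EX.Cnt

/-! Project EX (helper76): the behaviour for topologically generic amplitudes. -/

set_option autoImplicit false

namespace Pool.Agent.Helper76x.EX

open Finset Filter Topology

/-- The number of primes `p ≤ n` for which `WB b β p` is prime. -/
noncomputable def MB (b : ℕ) (β : ℝ) (n : ℕ) : ℕ :=
  ((Finset.range (n + 1)).filter (fun p => p.Prime ∧ (WB b β p).Prime)).card

theorem MB_le {b : ℕ} {x : ℝ} {n m : ℕ} (h : ∀ p : ℕ, m ≤ p → p ≤ n → ¬ (WB b x p).Prime) :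
    MB b x n ≤ m := by
  unfold MB
  refine (Finset.card_le_card (t := Finset.range m) ?_).trans (by simp)
  intro p hp
  rw [mem_filter, mem_range] at hp
  rw [mem_range]
  by_contra hc
  exact h p (by omega) (by omega) hp.2.2

theorem le_MB {b : ℕ} {x : ℝ} {n m : ℕ} (h : ∀ p : ℕ, p.Prime → m ≤ p → p ≤ n → (WB b x p).Prime) :
    Nat.primeCounting n ≤ MB b x n + m := by
  rw [Nat.primeCounting, Nat.primeCounting', Nat.count_eq_card_filter_range]
  unfold MB
  have : (Finset.range (n + 1)).filter Nat.Prime ⊆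
      ((Finset.range (n + 1)).filter (fun p => p.Prime ∧ (WB b x p).Prime)) ∪ Finset.range m := by
    intro p hp
    rw [mem_filter, mem_range] at hp
    rw [mem_union, mem_filter, mem_range, mem_range]
    by_cases hc : p < m
    · exact Or.inr hc
    · exact Or.inl ⟨hp.1, hp.2, h p hp.2 (by omega) (by omega)⟩
  refine (Finset.card_le_card this).trans ((Finset.card_union_le _ _).trans ?_)
  simp

theorem residual_of_union {P : ℕ → ℝ → Prop}
    (h : ∀ N : ℕ, ∃ O : Set ℝ, IsOpen O ∧ (∀ x : ℝ, 0 ≤ x → ∀ ε > 0, ∃ y ∈ O, |y - x| < ε) ∧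
      ∀ x ∈ O, P N x) :
    ∀ᶠ x : ℝ in residual ℝ, 0 < x → ∀ N, P N x := by
  have h1 : ∀ N : ℕ, ∀ᶠ x : ℝ in residual ℝ, 0 < x → P N x := by
    intro N
    obtain ⟨O, hO, hd, hP⟩ := h N
    have hopen : IsOpen (O ∪ Set.Iio 0) := hO.union isOpen_Iio
    have hdense : Dense (O ∪ Set.Iio 0) := by
      rw [Metric.dense_iff]
      intro x r hr
      rcases lt_or_ge x 0 with hx | hx
      · exact ⟨x, Metric.mem_ball_self hr, Or.inr hx⟩
      · obtain ⟨y, hy, hyx⟩ := hd x hx r hr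
        exact ⟨y, by rw [Metric.mem_ball, Real.dist_eq]; exact hyx, Or.inl hy⟩
    have := residual_of_dense_open hopen hdense
    filter_upwards [this] with x hx hx0
    rcases hx with hx | hx
    · exact hP x hx
    · exact absurd hx (not_lt.2 hx0.le)
  have h2 := eventually_countable_forall.2 h1
  filter_upwards [h2] with x hx hx0 N using hx N hx0

/-- few exponents, infinitely often -/
theorem generic_few {b : ℕ} (hb : 2 ≤ b) (f : ℕ → ℝ) (hf : Tendsto f atTop atTop) :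
    ∀ᶠ x : ℝ in residual ℝ, 0 < x → ∃ᶠ n : ℕ in atTop, (MB b x n : ℝ) ≤ f n := by
  have hb0 : (0 : ℝ) < b := by exact_mod_cast (by omega : 0 < b)
  have hb1 : (1 : ℝ) < b := by exact_mod_cast (by omega : 1 < b)
  have h := residual_of_union (P := fun N x => ∃ n ≥ N, (MB b x n : ℝ) ≤ f n) ?_
  · filter_upwards [h] with x hx hx0
    rw [frequently_atTop]
    intro N
    exact hx hx0 N
  intro N
  refine ⟨⋃ z : {z : ℕ × ℕ × ℕ // z.1 ≠ 0 ∧ N ≤ z.2.2 ∧ ((z.1 + z.2.1 + b : ℕ) : ℝ) ≤ f z.2.2},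
    Set.Ioo ((z.1.1 : ℝ) / (b : ℝ) ^ z.1.2.1) ((z.1.1 : ℝ) / (b : ℝ) ^ z.1.2.1 + 1 / (b : ℝ) ^ z.1.2.2),
    isOpen_iUnion fun _ => isOpen_Ioo, ?_, ?_⟩
  · intro x hx ε hε
    obtain ⟨a, ha⟩ := pow_unbounded_of_one_lt (2 / ε) hb1
    have hpa : (0 : ℝ) < (b : ℝ) ^ a := by positivity
    set m := ⌊x * (b : ℝ) ^ a⌋₊ + 1 with hm
    obtain ⟨n, hn⟩ := ((hf.eventually_ge_atTop ((m + a + b : ℕ) : ℝ)).and
      (eventually_ge_atTop (max N (a + 1)))).exists
    have hn1 : N ≤ n := (le_max_left _ _).trans hn.2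
    have hn2 : a + 1 ≤ n := (le_max_right _ _).trans hn.2
    have h1 : x < (m : ℝ) / (b : ℝ) ^ a := by
      rw [lt_div_iff₀ hpa, hm]
      push_cast
      exact Nat.lt_floor_add_one _
    have h2 : (m : ℝ) / (b : ℝ) ^ a ≤ x + 1 / (b : ℝ) ^ a := by
      rw [div_le_iff₀ hpa, add_mul, one_div, inv_mul_cancel₀ hpa.ne', hm]
      push_cast
      have := Nat.floor_le (show 0 ≤ x * (b : ℝ) ^ a by positivity)
      linarith
    have h3 : 1 / (b : ℝ) ^ a < ε / 2 := by
      rw [div_lt_iff₀ hε] at ha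
      rw [div_lt_iff₀ hpa]
      nlinarith
    have h4 : 1 / (b : ℝ) ^ n ≤ 1 / (b : ℝ) ^ a :=
      one_div_le_one_div_of_le hpa (pow_le_pow_right₀ hb1.le (by omega))
    have h5 : 0 < 1 / (b : ℝ) ^ n := by positivity
    refine ⟨(m : ℝ) / (b : ℝ) ^ a + 1 / (b : ℝ) ^ n / 2, ?_, ?_⟩
    · rw [Set.mem_iUnion]
      exact ⟨⟨(m, a, n), by simp [hm], hn1, hn.1⟩, by simp only; constructor <;> linarith⟩
    · rw [abs_lt]
      constructor <;> linarith
  · intro x hx
    rw [Set.mem_iUnion] at hx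
    obtain ⟨⟨⟨m, a, n⟩, hm, hN, hf'⟩, hx1, hx2⟩ := hx
    simp only at hm hN hf' hx1 hx2
    refine ⟨n, hN, le_trans ?_ hf'⟩
    have : MB b x n ≤ m + a + b := by
      apply MB_le
      intro p hp hpn hP
      rw [WB_one (by omega) hm hx1 hx2.le (by omega) hpn (by omega) (by omega)] at hP
      exact Nat.not_prime_one hP
    exact_mod_cast this

/-- almost all primes are exponents, infinitely often -/
theorem generic_many {b : ℕ} (hb : 2 ≤ b) :
    ∀ᶠ x : ℝ in residual ℝ, 0 < x →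
      ∃ᶠ n : ℕ in atTop, (Nat.primeCounting n : ℝ) ≤ MB b x n + 2 * Real.log n := by
  have hb0 : (0 : ℝ) < b := by exact_mod_cast (by omega : 0 < b)
  have hb1 : (1 : ℝ) < b := by exact_mod_cast (by omega : 1 < b)
  have h := residual_of_union
    (P := fun N x => ∃ n ≥ N, (Nat.primeCounting n : ℝ) ≤ MB b x n + 2 * Real.log n) ?_
  · filter_upwards [h] with x hx hx0
    rw [frequently_atTop]
    intro N
    exact hx hx0 N
  intro N
  refine ⟨⋃ z : {z : ℕ × ℕ // (z.1 + 1).Prime ∧ N ≤ z.1 ∧ ((z.2 + b : ℕ) : ℝ) ≤ 2 * Real.log z.1},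
    Set.Ioo (((z.1.1 + 1 : ℕ) : ℝ) / (b : ℝ) ^ z.1.2)
      (((z.1.1 + 1 : ℕ) : ℝ) / (b : ℝ) ^ z.1.2 + 1 / (b : ℝ) ^ z.1.1),
    isOpen_iUnion fun _ => isOpen_Ioo, ?_, ?_⟩
  · intro x hx ε hε
    -- primes between (x + ε/4) b^a and (x + ε/2) b^a
    have hp := exists_prime (u := x + ε / 4) (v := x + ε / 2) (by linarith) (by linarith)
    have hpow : Tendsto (fun a : ℕ => (b : ℝ) ^ a) atTop atTop := tendsto_pow_atTop_atTop_of_one_lt hb1
    have hlb : Real.log 2 ≤ Real.log b := Real.log_le_log (by norm_num) (by exact_mod_cast hb)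
    have hl2 : (0.69 : ℝ) < Real.log 2 := by have := Real.log_two_gt_d9; linarith
    obtain ⟨a, ⟨ha1, ha2⟩, ha3, ha4⟩ := (((hpow.eventually hp).and
      (hpow.eventually_ge_atTop (max ((N + 2) / (ε / 4)) (4 / ε + 8 / ε)))).and
      ((tendsto_natCast_atTop_atTop (R := ℝ)).eventually_ge_atTop
        ((b - 2 * Real.log (ε / 8)) / 0.38) |>.and (eventually_ge_atTop 1))).exists
    obtain ⟨q, hq, hq1, hq2⟩ := ha1
    have hpa : (0 : ℝ) < (b : ℝ) ^ a := by positivity
    have ha5 := (le_max_left _ _).trans ha2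
    have ha6 := (le_max_right _ _).trans ha2
    rw [div_le_iff₀ (by positivity)] at ha5
    have ha7 : 12 ≤ (b : ℝ) ^ a * ε := by
      have : 4 / ε + 8 / ε = 12 / ε := by ring
      rw [this, div_le_iff₀ hε] at ha6
      exact ha6
    have hqN : (N : ℝ) + 2 ≤ q := by nlinarith
    have hqN' : N + 2 ≤ q := by exact_mod_cast hqN
    obtain ⟨n, rfl⟩ : ∃ n, q = n + 1 := ⟨q - 1, by omega⟩
    have hnN : N ≤ n := by omega
    have hn1 : 1 ≤ n := by omega
    have hnbig : ε / 8 * (b : ℝ) ^ a ≤ n := by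
      push_cast at hq1
      nlinarith
    have hn0 : (0 : ℝ) < n := by exact_mod_cast hn1
    have hlog : Real.log (ε / 8) + a * Real.log b ≤ Real.log n := by
      rw [← Real.log_pow, ← Real.log_mul (by positivity) (by positivity)]
      exact Real.log_le_log (by positivity) hnbig
    have hab : ((a + b : ℕ) : ℝ) ≤ 2 * Real.log n := by
      rw [div_le_iff₀ (by norm_num)] at ha3
      push_cast
      have : (a : ℝ) * 0.69 ≤ a * Real.log b :=
        mul_le_mul_of_nonneg_left (by linarith) (Nat.cast_nonneg _)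
      linarith
    have han : a ≤ n := by
      have h1 : (b : ℝ) ≤ ((a + b : ℕ) : ℝ) := by push_cast; linarith [(Nat.cast_nonneg a : (0 : ℝ) ≤ a)]
      have h2 : Real.log n ≤ n - 1 := Real.log_le_sub_one_of_pos hn0
      have h3 : Real.log n ≤ n / 2 := by
        have := Real.log_le_sub_one_of_pos (show (0 : ℝ) < n / 2 by positivity)
        rw [Real.log_div hn0.ne' (by norm_num)] at this
        have h5 : Real.log 2 ≤ 1 := by have := Real.log_two_lt_d9; linarith
        linarith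
      have h4 : ((a : ℕ) : ℝ) ≤ n := by
        push_cast at hab
        linarith
      exact_mod_cast h4
    have h4 : 1 / (b : ℝ) ^ n ≤ 1 / (b : ℝ) ^ a :=
      one_div_le_one_div_of_le hpa (pow_le_pow_right₀ hb1.le han)
    have h5 : 0 < 1 / (b : ℝ) ^ n := by positivity
    have h6 : 1 / (b : ℝ) ^ a ≤ ε / 12 := by
      rw [div_le_iff₀ hpa]
      linarith
    have h7 : x + ε / 4 < ((n + 1 : ℕ) : ℝ) / (b : ℝ) ^ a := by rw [lt_div_iff₀ hpa]; exact hq1
    have h8 : ((n + 1 : ℕ) : ℝ) / (b : ℝ) ^ a < x + ε / 2 := by rw [div_lt_iff₀ hpa]; exact hq2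
    refine ⟨((n + 1 : ℕ) : ℝ) / (b : ℝ) ^ a + 1 / (b : ℝ) ^ n / 2, ?_, ?_⟩
    · rw [Set.mem_iUnion]
      exact ⟨⟨(n, a), hq, hnN, hab⟩, by simp only; constructor <;> linarith⟩
    · rw [abs_lt]
      constructor <;> linarith
  · intro x hx
    rw [Set.mem_iUnion] at hx
    obtain ⟨⟨⟨n, a⟩, hq, hN, hab⟩, hx1, hx2⟩ := hx
    simp only at hq hN hab hx1 hx2
    refine ⟨n, hN, ?_⟩
    have : Nat.primeCounting n ≤ MB b x n + (a + b) := by
      apply le_MB
      intro p hp hpa hpn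
      rw [WB_prime (by omega) hq hx1 hx2.le (by omega) hpn (by omega) (by omega)]
      exact hq
    have h2 : (Nat.primeCounting n : ℝ) ≤ ((MB b x n + (a + b) : ℕ) : ℝ) := by exact_mod_cast this
    push_cast at h2 hab
    linarith

end Pool.Agent.Helper76x.EX
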