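import Pool.Agent.Helper76x.EX.RunMain
import Pool.Agent.Helper76x.EX.Gen
import Pool.Agent.Helper923.PNT

/-! Project EX (helper76): the dimension of the sets of amplitudes with too many exponents. -/

set_option autoImplicit false

namespace Pool.Agent.Helper76x.EX

open Finset Filter Topology Set

theorem ofReal_le_of_forall {t : ℝ} (ht : 0 < t) {d : ENNReal}
    (h : ∀ s : ℝ, 0 < s → s < t → ENNReal.ofReal s ≤ d) : ENNReal.ofReal t ≤ d := by
  refine le_of_forall_lt fun c hc => ?_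
  have hc' : c ≠ ⊤ := ne_top_of_lt hc
  have h1 : c.toReal < t := by
    by_contra hcon
    have : ENNReal.ofReal t ≤ ENNReal.ofReal c.toReal := ENNReal.ofReal_le_ofReal (not_lt.1 hcon)
    rw [ENNReal.ofReal_toReal hc'] at this
    exact absurd hc (not_lt.2 this)
  have h0 : 0 ≤ c.toReal := ENNReal.toReal_nonneg
  have h2 := h ((c.toReal + t) / 2) (by linarith) (by linarith)
  refine lt_of_lt_of_le ?_ h2
  have : ENNReal.ofReal c.toReal < ENNReal.ofReal ((c.toReal + t) / 2) := by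
    rw [ENNReal.ofReal_lt_ofReal_iff (by linarith)]
    linarith
  rwa [ENNReal.ofReal_toReal hc'] at this

theorem exists_Ioo {U : Set ℝ} (hU : IsOpen U) (hne : (U ∩ Set.Ioi 0).Nonempty) :
    ∃ u v : ℝ, 0 < u ∧ u < v ∧ Set.Ioo u v ⊆ U := by
  obtain ⟨x, hxU, hx0⟩ := hne
  have hx0' : (0 : ℝ) < x := hx0
  obtain ⟨δ, hδ, hb⟩ := Metric.isOpen_iff.1 hU x hxU
  refine ⟨max (x / 2) (x - δ), x + δ / 2, ?_, ?_, ?_⟩
  · exact lt_of_lt_of_le (by linarith) (le_max_left _ _)
  · exact max_lt (by linarith) (by linarith)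
  · intro y hy
    apply hb
    rw [Metric.mem_ball, Real.dist_eq, abs_lt]
    have h1 := (le_max_right (x / 2) (x - δ)).trans_lt hy.1
    have h2 := hy.2
    constructor <;> linarith

/-- runs of exponents, on a set of dimension at least `1 / (1 + ε)` in every open set -/
theorem dim_runs_open {b : ℕ} (hb : 2 ≤ b) {ε : ℝ} (hε : 0 < ε) {U : Set ℝ} (hU : IsOpen U)
    (hne : (U ∩ Set.Ioi 0).Nonempty) :
    ENNReal.ofReal (1 / (1 + ε)) ≤ dimH {x : ℝ | x ∈ U ∧ ∃ᶠ a : ℕ in atTop,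
      ∀ p : ℕ, p.Prime → a < p → (p : ℝ) ≤ (1 + ε) * a → (WB b x p).Prime} := by
  obtain ⟨u, v, hu, huv, hsub⟩ := exists_Ioo hU hne
  refine ofReal_le_of_forall (by positivity) fun s hs0 hs => ?_
  rw [lt_div_iff₀ (by linarith)] at hs
  refine (dim_runs hb hε hs0 hs hu huv).trans (dimH_mono ?_)
  rintro x ⟨hx, h⟩
  exact ⟨hsub hx, h⟩

theorem pi_nat : Tendsto (fun n : ℕ => (Nat.primeCounting n : ℝ) * Real.log n / n) atTop (𝓝 1) := by
  have h := Pool.Agent.Helper923.PNT.pi_tendsto.comp (tendsto_natCast_atTop_atTop (R := ℝ))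
  refine h.congr fun n => ?_
  simp only [Function.comp_apply, Nat.floor_natCast]

/-- a run of exponents gives many exponents up to its end -/
theorem run_count {b : ℕ} {x ε : ℝ} {a : ℕ} (hε : 0 ≤ ε)
    (h : ∀ p : ℕ, p.Prime → a < p → (p : ℝ) ≤ (1 + ε) * a → (WB b x p).Prime) :
    Nat.primeCounting ⌊(1 + ε) * a⌋₊ ≤ MB b x ⌊(1 + ε) * (a : ℝ)⌋₊ + Nat.primeCounting a := by
  rw [Nat.primeCounting, Nat.primeCounting, Nat.primeCounting', Nat.count_eq_card_filter_range,
    Nat.count_eq_card_filter_range]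
  unfold MB
  refine (Finset.card_le_card ?_).trans (Finset.card_union_le _ _)
  intro p hp
  rw [Finset.mem_filter, Finset.mem_range] at hp
  rw [Finset.mem_union, Finset.mem_filter, Finset.mem_filter, Finset.mem_range, Finset.mem_range]
  by_cases hc : p < a + 1
  · exact Or.inr ⟨hc, hp.2⟩
  · refine Or.inl ⟨hp.1, hp.2, h p hp.2 (by omega) ?_⟩
    have h1 : p ≤ ⌊(1 + ε) * (a : ℝ)⌋₊ := by omega
    exact (Nat.le_floor_iff (by positivity)).1 h1

/-- the number of exponents in the run, as a proportion of all primes -/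
theorem run_ratio {ε c : ℝ} (hε : 0 < ε) (hc0 : 0 ≤ c) (hc : c < ε / (1 + ε)) :
    ∀ᶠ a : ℕ in atTop, c * Nat.primeCounting ⌊(1 + ε) * (a : ℝ)⌋₊ + Nat.primeCounting a ≤
      Nat.primeCounting ⌊(1 + ε) * (a : ℝ)⌋₊ := by
  have hfl : Tendsto (fun a : ℕ => ⌊(1 + ε) * (a : ℝ)⌋₊) atTop atTop := by
    refine tendsto_nat_floor_atTop.comp ?_
    exact tendsto_natCast_atTop_atTop.const_mul_atTop (by linarith)
  have h1 := pi_nat
  have h2 := pi_nat.comp hfl
  -- choose a small η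
  obtain ⟨η, hη⟩ : ∃ η, η = (ε / (1 + ε) - c) / 4 := ⟨_, rfl⟩
  have hη0 : 0 < η := by rw [hη]; linarith
  have hη1 : η < 1 / 4 := by
    have : ε / (1 + ε) < 1 := by rw [div_lt_one (by linarith)]; linarith
    rw [hη]; linarith
  have h3 := h1.eventually (gt_mem_nhds (show (1 : ℝ) < 1 + η by linarith))
  have h4 := h2.eventually (lt_mem_nhds (show (1 - η : ℝ) < 1 by linarith))
  have hN : Tendsto (fun a : ℕ => ⌊(1 + ε) * (a : ℝ)⌋₊ / (a : ℝ)) atTop (𝓝 (1 + ε)) := by
    have := (tendsto_nat_floor_mul_div_atTop (R := ℝ) (a := 1 + ε) (by linarith)).comp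
      (tendsto_natCast_atTop_atTop (R := ℝ))
    exact this
  have hlr : Tendsto (fun a : ℕ => Real.log ⌊(1 + ε) * (a : ℝ)⌋₊ / Real.log a) atTop (𝓝 1) := by
    have e1 : Tendsto (fun a : ℕ => Real.log (⌊(1 + ε) * (a : ℝ)⌋₊ / (a : ℝ))) atTop
        (𝓝 (Real.log (1 + ε))) := (Real.continuousAt_log (by linarith)).tendsto.comp hN
    have e2 : Tendsto (fun a : ℕ => Real.log (a : ℝ)) atTop atTop :=
      Real.tendsto_log_atTop.comp tendsto_natCast_atTop_atTop
    have e3 := (e1.div_atTop e2).add_const 1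
    rw [zero_add] at e3
    refine e3.congr' ?_
    filter_upwards [e2.eventually_gt_atTop 0, eventually_gt_atTop 0] with a ha ha0
    have ha0' : (0 : ℝ) < a := by exact_mod_cast ha0
    have hf0 : (0 : ℝ) < ⌊(1 + ε) * (a : ℝ)⌋₊ := by
      have : a ≤ ⌊(1 + ε) * (a : ℝ)⌋₊ := Nat.le_floor (by nlinarith)
      exact_mod_cast (by omega : 0 < ⌊(1 + ε) * (a : ℝ)⌋₊)
    rw [Real.log_div hf0.ne' ha0'.ne']
    field_simp
    ring
  -- the quotient of the two counts
  have h5 : Tendsto (fun a : ℕ => ((1 + η) * a / Real.log a) /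
      ((1 - η) * ⌊(1 + ε) * (a : ℝ)⌋₊ / Real.log ⌊(1 + ε) * (a : ℝ)⌋₊)) atTop
      (𝓝 ((1 + η) / (1 - η) * (1 / (1 + ε)) * 1)) := by
    have := ((hN.inv₀ (by linarith)).const_mul ((1 + η) / (1 - η))).mul hlr
    rw [← one_div] at this
    refine this.congr' ?_
    have e2 : Tendsto (fun a : ℕ => Real.log (a : ℝ)) atTop atTop :=
      Real.tendsto_log_atTop.comp tendsto_natCast_atTop_atTop
    filter_upwards [e2.eventually_gt_atTop 0, eventually_gt_atTop 0] with a ha ha0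
    have ha0' : (0 : ℝ) < a := by exact_mod_cast ha0
    have hle : a ≤ ⌊(1 + ε) * (a : ℝ)⌋₊ := Nat.le_floor (by nlinarith)
    have hf0 : (0 : ℝ) < ⌊(1 + ε) * (a : ℝ)⌋₊ := by
      exact_mod_cast (by omega : 0 < ⌊(1 + ε) * (a : ℝ)⌋₊)
    have hl0 : 0 < Real.log ⌊(1 + ε) * (a : ℝ)⌋₊ :=
      ha.trans_le (Real.log_le_log ha0' (by exact_mod_cast hle))
    have h1η : (1 - η) ≠ 0 := by linarith
    rw [inv_div]
    field_simp
  have h6 : (1 + η) / (1 - η) * (1 / (1 + ε)) * 1 < 1 - c := by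
    rw [mul_one, div_mul_div_comm, mul_one, div_lt_iff₀ (by nlinarith)]
    have e1 : c = ε / (1 + ε) - 4 * η := by rw [hη]; ring
    have e2 : ε / (1 + ε) * (1 + ε) = ε := by field_simp
    rw [e1]
    have e3 : (1 - (ε / (1 + ε) - 4 * η)) * ((1 - η) * (1 + ε)) =
        (1 + 4 * η * (1 + ε)) * (1 - η) := by
      have : (1 - (ε / (1 + ε) - 4 * η)) * ((1 - η) * (1 + ε)) =
          ((1 + ε) - ε / (1 + ε) * (1 + ε) + 4 * η * (1 + ε)) * (1 - η) := by ring
      rw [this, e2]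
      ring
    rw [e3]
    have e4 : 4 * η ≤ 4 * η * (1 + ε) := by nlinarith
    nlinarith
  filter_upwards [h3, h4, h5.eventually (gt_mem_nhds h6), eventually_gt_atTop 1] with a a3 a4 a5 a1
  have ha0' : (1 : ℝ) < a := by exact_mod_cast a1
  have hla : 0 < Real.log a := Real.log_pos ha0'
  have hle : a ≤ ⌊(1 + ε) * (a : ℝ)⌋₊ := Nat.le_floor (by nlinarith)
  have hle' : (a : ℝ) ≤ ⌊(1 + ε) * (a : ℝ)⌋₊ := by exact_mod_cast hle
  simp only [Function.comp_apply] at a4
  set N := ⌊(1 + ε) * (a : ℝ)⌋₊ with hNd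
  have hf0 : (0 : ℝ) < N := by linarith
  have hl0 : 0 < Real.log N := hla.trans_le (Real.log_le_log (by linarith) hle')
  have b1 : (Nat.primeCounting a : ℝ) ≤ (1 + η) * a / Real.log a := by
    rw [le_div_iff₀ hla]
    rw [div_lt_iff₀ (by linarith)] at a3
    linarith
  have b2 : (1 - η) * N / Real.log N ≤ Nat.primeCounting N := by
    rw [div_le_iff₀ hl0]
    rw [lt_div_iff₀ hf0] at a4
    linarith
  have b3 : 0 < (1 - η) * N / Real.log N := by
    have : 0 < 1 - η := by linarith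
    positivity
  rw [div_lt_iff₀ b3] at a5
  have b4 : (1 - c) * ((1 - η) * N / Real.log N) ≤ (1 - c) * Nat.primeCounting N := by
    apply mul_le_mul_of_nonneg_left b2
    have : ε / (1 + ε) < 1 := by rw [div_lt_one (by linarith)]; linarith
    linarith
  linarith

/-- many exponents: at least the proportion `c` of all primes, infinitely often -/
theorem dim_many {b : ℕ} (hb : 2 ≤ b) {c : ℝ} (hc0 : 0 ≤ c) (hc1 : c < 1) {U : Set ℝ}
    (hU : IsOpen U) (hne : (U ∩ Set.Ioi 0).Nonempty) :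
    ENNReal.ofReal (1 - c) ≤ dimH {x : ℝ | x ∈ U ∧ ∃ᶠ n : ℕ in atTop,
      c * Nat.primeCounting n ≤ MB b x n} := by
  refine ofReal_le_of_forall (by linarith) fun s hs0 hs => ?_
  -- ε with 1 / (1 + ε) = s
  have hs1 : s < 1 := by linarith
  obtain ⟨ε, hε⟩ : ∃ ε, ε = 1 / s - 1 := ⟨_, rfl⟩
  have hε0 : 0 < ε := by
    rw [hε]
    have : 1 < 1 / s := by rw [lt_div_iff₀ hs0]; linarith
    linarith
  have e1 : 1 / (1 + ε) = s := by rw [hε]; field_simp; ring
  have e2 : c < ε / (1 + ε) := by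
    have : ε / (1 + ε) = 1 - 1 / (1 + ε) := by field_simp; ring
    rw [this, e1]; linarith
  have h1 := dim_runs_open hb hε0 hU hne
  rw [e1] at h1
  refine h1.trans (dimH_mono ?_)
  rintro x ⟨hx, h⟩
  refine ⟨hx, ?_⟩
  have h2 := h.and_eventually (run_ratio hε0 hc0 e2)
  rw [frequently_atTop] at h2 ⊢
  intro N
  obtain ⟨a, haN, ha1, ha2⟩ := h2 N
  refine ⟨⌊(1 + ε) * (a : ℝ)⌋₊, ?_, ?_⟩
  · have : a ≤ ⌊(1 + ε) * (a : ℝ)⌋₊ := Nat.le_floor (by
      have : (0 : ℝ) ≤ a := Nat.cast_nonneg a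
      nlinarith)
    omega
  · have h3 := run_count (b := b) (x := x) hε0.le ha1
    have h4 : (Nat.primeCounting ⌊(1 + ε) * (a : ℝ)⌋₊ : ℝ) ≤
        MB b x ⌊(1 + ε) * (a : ℝ)⌋₊ + Nat.primeCounting a := by exact_mod_cast h3
    linarith

/-- for every gauge of smaller order than `n / log n` the dimension is one -/
theorem dim_gauge {b : ℕ} (hb : 2 ≤ b) (g : ℕ → ℝ)
    (hg : Tendsto (fun n : ℕ => g n * Real.log n / n) atTop (𝓝 0)) {U : Set ℝ}
    (hU : IsOpen U) (hne : (U ∩ Set.Ioi 0).Nonempty) :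
    dimH {x : ℝ | x ∈ U ∧ ∃ᶠ n : ℕ in atTop, g n ≤ MB b x n} = 1 := by
  apply le_antisymm
  · calc _ ≤ dimH (Set.univ : Set ℝ) := dimH_mono (Set.subset_univ _)
      _ = 1 := Real.dimH_univ
  · have h0 : ENNReal.ofReal 1 ≤ dimH {x : ℝ | x ∈ U ∧ ∃ᶠ n : ℕ in atTop, g n ≤ MB b x n} := by
      refine ofReal_le_of_forall one_pos fun s hs0 hs => ?_
      have h1 := dim_many hb (c := 1 - s) (by linarith) (by linarith) hU hne
      rw [sub_sub_cancel] at h1
      refine h1.trans (dimH_mono ?_)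
      rintro x ⟨hx, h⟩
      refine ⟨hx, ?_⟩
      have h2 : ∀ᶠ n : ℕ in atTop, g n ≤ (1 - s) * Nat.primeCounting n := by
        filter_upwards [hg.eventually (gt_mem_nhds (show (0 : ℝ) < (1 - s) / 2 by linarith)),
          pi_nat.eventually (lt_mem_nhds (show (1 / 2 : ℝ) < 1 by norm_num)),
          eventually_gt_atTop 1] with n h3 h4 h5
        have h6 : (1 : ℝ) < n := by exact_mod_cast h5
        have h7 : 0 < Real.log n := Real.log_pos h6
        rw [div_lt_iff₀ (by linarith)] at h3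
        rw [lt_div_iff₀ (by linarith)] at h4
        have h8 : g n * Real.log n ≤ (1 - s) * Nat.primeCounting n * Real.log n := by
          nlinarith
        exact le_of_mul_le_mul_right h8 h7
      exact (h.and_eventually h2).mono fun n hn => hn.2.trans hn.1
    simpa using h0

end Pool.Agent.Helper76x.EX
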