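import Mathlib

/-! Project EX (helper76): lower bound of the Hausdorff dimension of the image of an interval. -/

set_option autoImplicit false

namespace Pool.Agent.Helper76x.EX

open Set

theorem dim_lower {F : ℝ → ℝ} {C s : ℝ} (hs : 0 < s) (hC : 0 ≤ C)
    (h : ∀ t ∈ Ico (0 : ℝ) 1, ∀ u ∈ Ico (0 : ℝ) 1, |t - u| ≤ C * |F t - F u| ^ s) :
    ENNReal.ofReal s ≤ dimH (F '' Ico (0 : ℝ) 1) := by
  classical
  have hinj : InjOn F (Ico (0 : ℝ) 1) := by
    intro t ht u hu htu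
    have h1 := h t ht u hu
    rw [htu, sub_self, abs_zero, Real.zero_rpow hs.ne', mul_zero] at h1
    have h2 := abs_nonneg (t - u)
    have h3 : |t - u| = 0 := le_antisymm h1 h2
    rw [abs_eq_zero] at h3
    linarith
  set g := Function.invFunOn F (Ico (0 : ℝ) 1) with hg
  have hgF : ∀ t ∈ Ico (0 : ℝ) 1, g (F t) = t := fun t ht => hinj.leftInvOn_invFunOn ht
  obtain ⟨r, hr⟩ : ∃ r : NNReal, (r : ℝ) = s := ⟨⟨s, hs.le⟩, rfl⟩
  obtain ⟨D, hD⟩ : ∃ D : NNReal, (D : ℝ) = C := ⟨⟨C, hC⟩, rfl⟩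
  have hold : HolderOnWith D r g (F '' Ico (0 : ℝ) 1) := by
    rintro _ ⟨t, ht, rfl⟩ _ ⟨u, hu, rfl⟩
    rw [hgF t ht, hgF u hu, edist_dist, edist_dist, Real.dist_eq, Real.dist_eq, hr,
      ENNReal.ofReal_rpow_of_nonneg (abs_nonneg _) hs.le]
    have e : (D : ENNReal) = ENNReal.ofReal C := by
      rw [← hD, ENNReal.ofReal_coe_nnreal]
    rw [e, ← ENNReal.ofReal_mul hC]
    exact ENNReal.ofReal_le_ofReal (h t ht u hu)
  have hr0 : 0 < r := by
    have : (0 : ℝ) < r := by rw [hr]; exact hs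
    exact_mod_cast this
  have h1 := hold.dimH_image_le hr0
  have h2 : g '' (F '' Ico (0 : ℝ) 1) = Ico (0 : ℝ) 1 := by
    rw [← image_comp]
    ext t
    constructor
    · rintro ⟨u, hu, rfl⟩
      simp only [Function.comp]
      rw [hgF u hu]
      exact hu
    · intro ht
      exact ⟨t, ht, hgF t ht⟩
  have h3 : dimH (Ico (0 : ℝ) 1) = 1 := by
    have := Real.dimH_of_nonempty_interior (E := ℝ) (s := Ico (0 : ℝ) 1) (by
      rw [interior_Ico]
      exact nonempty_Ioo.2 zero_lt_one)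
    rw [this]
    simp
  rw [h2, h3] at h1
  have hr' : (r : ENNReal) ≠ 0 := by exact_mod_cast hr0.ne'
  rw [ENNReal.le_div_iff_mul_le (Or.inl hr') (Or.inl ENNReal.coe_ne_top), one_mul] at h1
  rw [← hr, ENNReal.ofReal_coe_nnreal]
  exact h1

end Pool.Agent.Helper76x.EX
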