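import Mathlib

/-! Project EX (helper76): exceptional sets of the Lenstra-Pomerance-Wagstaff law.
Rough parts and runs of zeros. -/

set_option autoImplicit false

namespace Pool.Agent.Helper76x.EX

/-- The product, with multiplicity, of the prime factors of `m` that are larger than `p`. -/
def roughPart (p m : ℕ) : ℕ := (m.primeFactorsList.filter (fun r => p < r)).prod

/-- The `p`-rough part of the largest integer below `β * b ^ p`. -/
noncomputable def WB (b : ℕ) (β : ℝ) (p : ℕ) : ℕ := roughPart p (⌈β * (b : ℝ) ^ p⌉₊ - 1)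

theorem rough_mul {p m n : ℕ} (hm : m ≠ 0) (hn : n ≠ 0) :
    roughPart p (m * n) = roughPart p m * roughPart p n := by
  unfold roughPart
  have h := Nat.perm_primeFactorsList_mul hm hn
  rw [(h.filter _).prod_eq, List.filter_append, List.prod_append]

theorem rough_eq_one {p m : ℕ} (h : ∀ r : ℕ, r.Prime → r ∣ m → r ≤ p) : roughPart p m = 1 := by
  unfold roughPart
  rw [List.filter_eq_nil_iff.2]
  · rfl
  · intro r hr
    have := h r (Nat.prime_of_mem_primeFactorsList hr) (Nat.dvd_of_mem_primeFactorsList hr)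
    simp only [decide_eq_true_eq, not_lt]
    exact this

theorem rough_prime {p q : ℕ} (hq : q.Prime) (h : p < q) : roughPart p q = q := by
  unfold roughPart
  rw [Nat.primeFactorsList_prime hq]
  simp [h]

theorem rough_pow {p b : ℕ} (hb : 0 < b) (hbp : b ≤ p) (k : ℕ) : roughPart p (b ^ k) = 1 :=
  rough_eq_one fun _ hr h => (Nat.le_of_dvd hb (hr.dvd_of_dvd_pow h)).trans hbp

theorem rough_mul_pow {p b m : ℕ} (hm : m ≠ 0) (hb : 0 < b) (hbp : b ≤ p) (k : ℕ) :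
    roughPart p (m * b ^ k) = roughPart p m := by
  rw [rough_mul hm (pow_pos hb k).ne', rough_pow hb hbp, mul_one]

/-- The digits of `x` in the positions `a + 1, …, n` are zero, those before are `m`. -/
theorem ceil_run {b m a n p : ℕ} (hb : 0 < b) {x : ℝ} (h1 : (m : ℝ) / (b : ℝ) ^ a < x)
    (h2 : x ≤ (m : ℝ) / (b : ℝ) ^ a + 1 / (b : ℝ) ^ n) (hap : a ≤ p) (hpn : p ≤ n) :
    ⌈x * (b : ℝ) ^ p⌉₊ - 1 = m * b ^ (p - a) := by
  have hb0 : (0 : ℝ) < b := by exact_mod_cast hb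
  have hb1 : (1 : ℝ) ≤ b := by exact_mod_cast hb
  have e1 : (m : ℝ) / (b : ℝ) ^ a * (b : ℝ) ^ p = ((m * b ^ (p - a) : ℕ) : ℝ) := by
    obtain ⟨t, rfl⟩ := Nat.exists_eq_add_of_le hap
    rw [Nat.add_sub_cancel_left, pow_add]
    push_cast
    field_simp
  have e2 : 1 / (b : ℝ) ^ n * (b : ℝ) ^ p ≤ 1 := by
    rw [one_div, inv_mul_le_iff₀ (by positivity), mul_one]
    exact pow_le_pow_right₀ hb1 hpn
  have hc : ⌈x * (b : ℝ) ^ p⌉₊ = m * b ^ (p - a) + 1 := by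
    rw [Nat.ceil_eq_iff (by omega)]
    constructor
    · rw [Nat.add_sub_cancel, ← e1]
      exact mul_lt_mul_of_pos_right h1 (by positivity)
    · calc x * (b : ℝ) ^ p ≤ ((m : ℝ) / (b : ℝ) ^ a + 1 / (b : ℝ) ^ n) * (b : ℝ) ^ p :=
            mul_le_mul_of_nonneg_right h2 (by positivity)
        _ = (m : ℝ) / (b : ℝ) ^ a * (b : ℝ) ^ p + 1 / (b : ℝ) ^ n * (b : ℝ) ^ p := by ring
        _ ≤ ((m * b ^ (p - a) : ℕ) : ℝ) + 1 := by rw [e1]; linarith
        _ = ((m * b ^ (p - a) + 1 : ℕ) : ℝ) := by push_cast; ring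
  rw [hc, Nat.add_sub_cancel]

/-- during a run of zeros the rough part is that of the prefix -/
theorem WB_run {b m a n p : ℕ} (hb : 0 < b) (hm : m ≠ 0) {x : ℝ} (h1 : (m : ℝ) / (b : ℝ) ^ a < x)
    (h2 : x ≤ (m : ℝ) / (b : ℝ) ^ a + 1 / (b : ℝ) ^ n) (hap : a ≤ p) (hpn : p ≤ n) (hbp : b ≤ p) :
    WB b x p = roughPart p m := by
  unfold WB
  rw [ceil_run hb h1 h2 hap hpn, rough_mul_pow hm hb hbp]

/-- a prime prefix -/
theorem WB_prime {b q a n p : ℕ} (hb : 0 < b) (hq : q.Prime) {x : ℝ}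
    (h1 : (q : ℝ) / (b : ℝ) ^ a < x) (h2 : x ≤ (q : ℝ) / (b : ℝ) ^ a + 1 / (b : ℝ) ^ n)
    (hap : a ≤ p) (hpn : p ≤ n) (hbp : b ≤ p) (hpq : p < q) : WB b x p = q := by
  rw [WB_run hb hq.ne_zero h1 h2 hap hpn hbp, rough_prime hq hpq]

/-- a prefix that is small compared with the length of the run -/
theorem WB_one {b m a n p : ℕ} (hb : 0 < b) (hm : m ≠ 0) {x : ℝ} (h1 : (m : ℝ) / (b : ℝ) ^ a < x)
    (h2 : x ≤ (m : ℝ) / (b : ℝ) ^ a + 1 / (b : ℝ) ^ n) (hap : a ≤ p) (hpn : p ≤ n) (hbp : b ≤ p)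
    (hmp : m ≤ p) : WB b x p = 1 := by
  rw [WB_run hb hm h1 h2 hap hpn hbp]
  exact rough_eq_one fun r _ h => (Nat.le_of_dvd (Nat.pos_of_ne_zero hm) h).trans hmp

/-- a prefix with two large prime factors -/
theorem WB_two {b m a n p q₁ q₂ : ℕ} (hb : 0 < b) (hm : m ≠ 0) {x : ℝ}
    (h1 : (m : ℝ) / (b : ℝ) ^ a < x) (h2 : x ≤ (m : ℝ) / (b : ℝ) ^ a + 1 / (b : ℝ) ^ n)
    (hap : a ≤ p) (hpn : p ≤ n) (hbp : b ≤ p) (hq₁ : q₁.Prime) (hq₂ : q₂.Prime) (hp₁ : p < q₁)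
    (hp₂ : p < q₂) (hd : q₁ * q₂ ∣ m) : ¬ (WB b x p).Prime := by
  rw [WB_run hb hm h1 h2 hap hpn hbp]
  obtain ⟨k, rfl⟩ := hd
  have hk : k ≠ 0 := fun h => hm (by rw [h, mul_zero])
  rw [mul_assoc, rough_mul hq₁.ne_zero (mul_ne_zero hq₂.ne_zero hk), rough_mul hq₂.ne_zero hk,
    rough_prime hq₁ hp₁, rough_prime hq₂ hp₂]
  apply Nat.not_prime_mul hq₁.one_lt.ne'
  intro h
  have := Nat.eq_one_of_mul_eq_one_right h
  exact hq₂.one_lt.ne' this

end Pool.Agent.Helper76x.EX
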