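import Pool.Agent.Helper76x.EX.Scheme
import Pool.Agent.Helper76x.EX.Run

/-! Project EX (helper76): amplitudes with finitely many exponents, from the large gaps between
primes. -/

set_option autoImplicit false

namespace Pool.Agent.Helper76x.EX.Few

open Finset Filter Set

/-- the `k`-th prime -/
noncomputable def P (k : ℕ) : ℕ := Nat.nth Nat.Prime k

theorem P_prime (k : ℕ) : (P k).Prime := Nat.prime_nth_prime k

theorem P_mono : StrictMono P := Nat.nth_strictMono Nat.infinite_setOfPred_prime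

theorem P_surj {p : ℕ} (hp : p.Prime) : ∃ k, P k = p := ⟨Nat.count Nat.Prime p, Nat.nth_count hp⟩

theorem le_P (k : ℕ) : k ≤ P k := P_mono.le_apply

theorem P_succ_le (k : ℕ) : P (k + 1) ≤ 2 * P k := by
  obtain ⟨p, hp, h1, h2⟩ := Nat.exists_prime_lt_and_le_two_mul (P k) (P_prime k).pos.ne'
  refine le_trans ?_ h2
  obtain ⟨i, rfl⟩ := P_surj hp
  have : k < i := P_mono.lt_iff_lt.1 h1
  exact P_mono.monotone this

/-- the number of digits saved in the `k`-th gap -/
noncomputable def sv (b D k : ℕ) : ℕ := (P (k + 1) - P k) - (2 * Nat.clog b (D * P k) + 1)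

noncomputable def Sv (b D k : ℕ) : ℕ := ∑ i ∈ range k, sv b D i

theorem Sv_succ (b D k : ℕ) : Sv b D (k + 1) = Sv b D k + sv b D k := by
  unfold Sv; rw [sum_range_succ]

theorem Sv_le (b D k : ℕ) : Sv b D k ≤ P k := by
  induction k with
  | zero => simp [Sv]
  | succ k ih =>
    rw [Sv_succ]
    have h1 : sv b D k ≤ P (k + 1) - P k := Nat.sub_le _ _
    have h2 : P k ≤ P (k + 1) := P_mono.monotone (Nat.le_succ k)
    omega

/-- a proportion `s` of all digits is saved -/
def H (b : ℕ) (s : ℝ) : Prop := ∀ D : ℕ, ∃ k0 : ℕ, ∀ k ≥ k0, s * P k ≤ Sv b D k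

def lv (idx : ℕ → ℕ) : ℕ → ℕ
  | 0 => 0
  | j + 1 => idx j

/-- the scheme: prefixes divisible by the square of a prime beyond the next large gap -/
noncomputable def fewScheme {b : ℕ} (hb : 2 ≤ b) (A B : ℕ → ℕ) (q K : ℕ → ℕ) (m0 : ℕ)
    (hm0 : 1 ≤ m0) (hAB : ∀ j, A j ≤ B j) (hBA : ∀ j, B j ≤ A (j + 1))
    (hq : ∀ j, 2 ≤ q j)
    (hg : ∀ j, q j * q j * b ^ (K j + 1) ≤ b ^ (A (j + 1) - B j)) : Scheme b where
  lev := A
  fr := B
  K := K
  G := fun j => q j * q j
  Q := fun j m => 1 ≤ m ∧ (j = 0 → m = m0) ∧ ∀ i, j = i + 1 → q i * q i ∣ m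
  nx := fun j m i => (q j * q j) * (m * b ^ (A (j + 1) - A j) / (q j * q j) + 1 + i)
  m0 := m0
  h0 := ⟨hm0, fun _ => rfl, fun i hi => absurd hi (by omega)⟩
  lf := hAB
  fl := hBA
  nxQ := by
    intro j m i hQ hi
    have hZ : 0 < q j * q j := Nat.mul_pos (by have := hq j; omega) (by have := hq j; omega)
    refine ⟨?_, fun h => absurd h (by omega), ?_⟩
    · exact Nat.mul_pos hZ (by positivity)
    · intro i' hi'
      have : i' = j := by omega
      subst this
      exact Dvd.intro _ rfl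
  lo := by
    intro j m i hQ hi
    have hZ : 0 < q j * q j := Nat.mul_pos (by have := hq j; omega) (by have := hq j; omega)
    have h1 := Nat.lt_mul_div_succ (m * b ^ (A (j + 1) - A j)) hZ
    refine lt_of_lt_of_le h1 (Nat.mul_le_mul_left _ (by omega))
  up := by
    intro j m i hQ hi
    have hZ : 0 < q j * q j := Nat.mul_pos (by have := hq j; omega) (by have := hq j; omega)
    have h1 := Nat.mul_div_le (m * b ^ (A (j + 1) - A j)) (q j * q j)
    have h2 : q j * q j * (1 + i) ≤ q j * q j * b ^ K j := Nat.mul_le_mul_left _ (by omega)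
    have h3 : q j * q j * b ^ K j < q j * q j * b ^ (K j + 1) :=
      Nat.mul_lt_mul_of_pos_left (Nat.pow_lt_pow_right (by omega) (Nat.lt_succ_self _)) hZ
    have h4 := hg j
    have h5 : q j * q j * (m * b ^ (A (j + 1) - A j) / (q j * q j) + 1 + i) =
      q j * q j * (m * b ^ (A (j + 1) - A j) / (q j * q j)) + q j * q j * (1 + i) := by ring
    rw [h5]
    omega
  gap := by
    intro j m i i' hQ hii hi'
    obtain ⟨d, rfl⟩ := Nat.exists_eq_add_of_le hii.le
    rw [Nat.add_sub_cancel_left]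
    exact le_of_eq (by ring)
  hG := by
    intro j
    have h1 : b ^ A (j + 1) ≤ b ^ B (j + 1) := Nat.pow_le_pow_right (by omega) (hAB (j + 1))
    have h2 : 2 * 2 ≤ q j * q j := Nat.mul_le_mul (hq j) (hq j)
    calc 2 * b ^ A (j + 1) ≤ (q j * q j) * b ^ A (j + 1) := Nat.mul_le_mul_right _ (by omega)
      _ ≤ _ := Nat.mul_le_mul_left _ h1

theorem dim_few {b : ℕ} (hb : 2 ≤ b) {s : ℝ} (hs : 0 < s) (h : H b s) {u0 v0 : ℝ} (hu : 0 < u0)
    (huv : u0 < v0) : ENNReal.ofReal s ≤ dimH {x : ℝ | x ∈ Set.Ioo u0 v0 ∧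
      ∀ᶠ p : ℕ in atTop, p.Prime → ¬ (WB b x p).Prime} := by
  have hb0 : (0 : ℝ) < b := by exact_mod_cast (by omega : 0 < b)
  have hb1 : (1 : ℝ) < b := by exact_mod_cast (by omega : 1 < b)
  obtain ⟨D, hD⟩ : ∃ D, D = ⌈4 / s⌉₊ + 2 := ⟨_, rfl⟩
  have hDs : 4 / s ≤ D := by
    rw [hD]; push_cast
    have := Nat.le_ceil (4 / s)
    linarith
  obtain ⟨k0, hk0⟩ := h D
  have hs1 : s ≤ 1 := by
    have h1 := hk0 k0 le_rfl
    have h2 : (Sv b D k0 : ℝ) ≤ P k0 := by exact_mod_cast Sv_le b D k0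
    have h3 : (0 : ℝ) < P k0 := by exact_mod_cast (P_prime k0).pos
    by_contra hc
    nlinarith
  -- good gaps
  have hinf : {k | 1 ≤ sv b D k}.Infinite := by
    intro hfin
    obtain ⟨M, hM⟩ := hfin.bddAbove
    have hz : ∀ k > M, sv b D k = 0 := by
      intro k hk
      by_contra hc
      have : k ≤ M := hM (show 1 ≤ sv b D k by omega)
      omega
    have hc : ∀ k, Sv b D (M + 1 + k) = Sv b D (M + 1) := by
      intro k
      induction k with
      | zero => rfl
      | succ k ih => rw [← add_assoc, Sv_succ, ih, hz _ (by omega), add_zero]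
    obtain ⟨N, hN⟩ := exists_nat_gt ((Sv b D (M + 1) : ℝ) / s)
    have h1 := hk0 (M + 1 + (k0 + N)) (by omega)
    rw [hc] at h1
    have h2 : (N : ℝ) ≤ P (M + 1 + (k0 + N)) := by
      have := le_P (M + 1 + (k0 + N))
      exact_mod_cast (by omega : N ≤ P (M + 1 + (k0 + N)))
    rw [div_lt_iff₀ hs] at hN
    nlinarith
  -- the threshold
  have hpow : Tendsto (fun n : ℕ => (b : ℝ) ^ n) atTop atTop := tendsto_pow_atTop_atTop_of_one_lt hb1
  obtain ⟨N0, hN0⟩ := eventually_atTop.1 (hpow.eventually_gt_atTop (2 / (v0 - u0)))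
  obtain ⟨j0, hj0⟩ : ∃ j0, j0 = k0 + N0 + b := ⟨_, rfl⟩
  set idx : ℕ → ℕ := fun j => Nat.nth (fun k => 1 ≤ sv b D k) (j + j0) with hidx
  have hnm : StrictMono (Nat.nth (fun k => 1 ≤ sv b D k)) := Nat.nth_strictMono hinf
  have hidxm : StrictMono idx := fun i j hij => hnm (by omega)
  have hidxge : ∀ j, j + j0 ≤ idx j := fun j => hnm.le_apply
  have hgood : ∀ j, 1 ≤ sv b D (idx j) := fun j => Nat.nth_mem_of_infinite hinf (j + j0)
  have hbad : ∀ j i, idx j < i → i < idx (j + 1) → sv b D i = 0 := by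
    intro j i h1 h2
    by_contra hc
    have hgi : 1 ≤ sv b D i := by omega
    have e : Nat.nth (fun k => 1 ≤ sv b D k) (Nat.count (fun k => 1 ≤ sv b D k) i) = i :=
      Nat.nth_count (p := fun k => 1 ≤ sv b D k) hgi
    rw [← e] at h1 h2
    have h3 := hnm.lt_iff_lt.1 h1
    have h4 := hnm.lt_iff_lt.1 h2
    omega
  have hSnext : ∀ j, Sv b D (idx (j + 1)) = Sv b D (idx j + 1) := by
    intro j
    have : ∀ d, idx j + 1 + d ≤ idx (j + 1) → Sv b D (idx j + 1 + d) = Sv b D (idx j + 1) := by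
      intro d
      induction d with
      | zero => intro _; rfl
      | succ d ih =>
        intro hd
        rw [← add_assoc, Sv_succ, ih (by omega), hbad j _ (by omega) (by omega), add_zero]
    have h1 : idx j < idx (j + 1) := hidxm (Nat.lt_succ_self j)
    have h2 := this (idx (j + 1) - (idx j + 1)) (by omega)
    rwa [show idx j + 1 + (idx (j + 1) - (idx j + 1)) = idx (j + 1) by omega] at h2
  have hSs : ∀ j, Sv b D (idx (j + 1)) = Sv b D (idx j) + sv b D (idx j) := by
    intro j; rw [hSnext, Sv_succ]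
  have hnext : ∀ j, 2 * P (idx (j + 1)) ≤ D * P (idx j) := by
    intro j
    have h1 := hk0 (idx (j + 1)) (by have := hidxge (j + 1); omega)
    have h2 : (Sv b D (idx (j + 1)) : ℝ) ≤ 2 * P (idx j) := by
      have : Sv b D (idx (j + 1)) ≤ 2 * P (idx j) := by
        rw [hSnext]
        exact (Sv_le _ _ _).trans (P_succ_le _)
      exact_mod_cast this
    have h3 : (2 : ℝ) * P (idx (j + 1)) ≤ D * P (idx j) := by
      have h4 : (0 : ℝ) ≤ P (idx j) := Nat.cast_nonneg _
      calc (2 : ℝ) * P (idx (j + 1)) = 2 / s * (s * P (idx (j + 1))) := by field_simp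
        _ ≤ 2 / s * (2 * P (idx j)) := mul_le_mul_of_nonneg_left (by linarith) (by positivity)
        _ = 4 / s * P (idx j) := by ring
        _ ≤ D * P (idx j) := mul_le_mul_of_nonneg_right hDs h4
    exact_mod_cast h3
  -- the primes
  have hqex : ∀ j, ∃ q : ℕ, q.Prime ∧ P (idx (j + 1)) < q ∧ q ≤ 2 * P (idx (j + 1)) := fun j =>
    Nat.exists_prime_lt_and_le_two_mul _ (P_prime _).pos.ne'
  choose q hqp hq1 hq2 using hqex
  have hqD : ∀ j, q j ≤ b ^ Nat.clog b (D * P (idx j)) := fun j =>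
    ((hq2 j).trans (hnext j)).trans (Nat.le_pow_clog (by omega) _)
  have hgap : ∀ j, P (idx j + 1) - P (idx j) =
      sv b D (idx j) + (2 * Nat.clog b (D * P (idx j)) + 1) := by
    intro j
    have h1 := hgood j
    unfold sv at h1 ⊢
    omega
  have hg : ∀ j, q j * q j * b ^ (sv b D (idx j) + 1) ≤ b ^ (P (idx j + 1) - P (idx j)) := by
    intro j
    rw [hgap]
    calc q j * q j * b ^ (sv b D (idx j) + 1) ≤
        b ^ Nat.clog b (D * P (idx j)) * b ^ Nat.clog b (D * P (idx j)) *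
          b ^ (sv b D (idx j) + 1) :=
          Nat.mul_le_mul_right _ (Nat.mul_le_mul (hqD j) (hqD j))
      _ = _ := by ring
  -- levels
  obtain ⟨A, hA0, hAs⟩ : ∃ A : ℕ → ℕ, A 0 = P (idx 0) ∧ ∀ j, A (j + 1) = P (idx j + 1) :=
    ⟨fun j => Nat.casesOn j (P (idx 0)) (fun j => P (idx j + 1)), rfl, fun _ => rfl⟩
  have hAB : ∀ j, A j ≤ P (idx j) := by
    intro j
    cases j with
    | zero => exact hA0.le
    | succ j =>
      rw [hAs]
      exact P_mono.monotone (hidxm (Nat.lt_succ_self j))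
  have hBA : ∀ j, P (idx j) ≤ A (j + 1) := by
    intro j
    rw [hAs]
    exact P_mono.monotone (Nat.le_succ _)
  -- the first prefix
  set B0 := P (idx 0) with hB0
  have hB0ge : j0 ≤ B0 := (by have := hidxge 0; omega : j0 ≤ idx 0).trans (le_P _)
  have hpB : (0 : ℝ) < (b : ℝ) ^ B0 := by positivity
  set m0 := ⌊u0 * (b : ℝ) ^ B0⌋₊ + 1 with hm0
  have hm1 : 1 ≤ m0 := by omega
  have hlo : u0 < (m0 : ℝ) / (b : ℝ) ^ B0 := by
    rw [lt_div_iff₀ hpB, hm0]
    push_cast
    exact Nat.lt_floor_add_one _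
  have hhi : ((m0 : ℝ) + 1) / (b : ℝ) ^ B0 < v0 := by
    rw [div_lt_iff₀ hpB, hm0]
    push_cast
    have h1 := Nat.floor_le (show 0 ≤ u0 * (b : ℝ) ^ B0 by positivity)
    have h2 := hN0 B0 (by omega)
    rw [div_lt_iff₀ (by linarith)] at h2
    nlinarith
  set S := fewScheme hb A (fun j => P (idx j)) q (fun j => sv b D (idx j)) m0 hm1 hAB hBA
    (fun j => (hqp j).two_le) (fun j => by rw [hAs]; exact hg j) with hS
  have hkap : ∀ j, S.kap j + Sv b D (idx 0) = Sv b D (idx j) := by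
    intro j
    induction j with
    | zero => unfold Scheme.kap; simp
    | succ j ih =>
      have : S.kap (j + 1) = S.kap j + sv b D (idx j) := by
        unfold Scheme.kap; rw [sum_range_succ]; rfl
      rw [this, hSs]
      omega
  have hdim : ENNReal.ofReal s ≤ dimH S.limits := by
    refine S.dim hb (C := (b : ℝ) ^ 3 * (D : ℝ) ^ 2 * (b : ℝ) ^ Sv b D (idx 0)) hs hs1
      (by positivity) ?_ ?_
    · have h1 : ∀ j, j ≤ S.kap j := by
        intro j
        induction j with
        | zero => exact Nat.zero_le _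
        | succ j ih =>
          have : S.kap (j + 1) = S.kap j + sv b D (idx j) := by
            unfold Scheme.kap; rw [sum_range_succ]; rfl
          have h2 := hgood j
          omega
      exact tendsto_atTop_mono h1 tendsto_id
    · intro j
      have hkap' : S.kap (j + 1) = S.kap j + sv b D (idx j) := by
        unfold Scheme.kap; rw [sum_range_succ]; rfl
      show (b : ℝ) ^ A (j + 1) ≤ (b : ℝ) ^ 3 * (D : ℝ) ^ 2 * (b : ℝ) ^ Sv b D (idx 0) *
        ((q j * q j : ℕ) : ℝ) * (b : ℝ) ^ S.kap (j + 1) * ((b : ℝ) ^ P (idx j)) ^ (1 - s)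
      have hPpos : 0 < P (idx j) := (P_prime _).pos
      have hDP : 1 < D * P (idx j) := by
        have : 2 ≤ D := by omega
        nlinarith
      have hcl : (b : ℝ) ^ Nat.clog b (D * P (idx j)) ≤ b * (D * q j) := by
        have h1 : Nat.clog b (D * P (idx j)) ≠ 0 := by
          have := Nat.clog_pos (by omega : 1 < b) (by omega : 2 ≤ D * P (idx j))
          omega
        have h2 := Nat.pow_pred_clog_lt_self (by omega : 1 < b) hDP
        obtain ⟨c, hc⟩ := Nat.exists_eq_succ_of_ne_zero h1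
        rw [hc] at h2 ⊢
        rw [Nat.pred_succ] at h2
        have h3 : b ^ c ≤ D * q j := h2.le.trans (Nat.mul_le_mul_left _
          ((P_mono.monotone (hidxm (Nat.lt_succ_self j)).le).trans (hq1 j).le))
        have h4 : b ^ (c + 1) ≤ b * (D * q j) := by
          rw [pow_succ, mul_comm]
          exact Nat.mul_le_mul_left _ h3
        exact_mod_cast h4
      have e1 : (b : ℝ) ^ A (j + 1) = (b : ℝ) ^ P (idx j) * ((b : ℝ) ^ sv b D (idx j) *
          ((b : ℝ) ^ Nat.clog b (D * P (idx j)) * (b : ℝ) ^ Nat.clog b (D * P (idx j)) * b)) := by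
        have h1 : A (j + 1) = P (idx j) + (sv b D (idx j) +
            (2 * Nat.clog b (D * P (idx j)) + 1)) := by
          rw [← hgap, hAs]
          have := P_mono.monotone (Nat.le_succ (idx j))
          simp only [Nat.succ_eq_add_one] at this
          omega
        rw [h1]
        ring
      have e2 : (b : ℝ) ^ Nat.clog b (D * P (idx j)) * (b : ℝ) ^ Nat.clog b (D * P (idx j)) * b ≤
          (b : ℝ) ^ 3 * (D : ℝ) ^ 2 * ((q j * q j : ℕ) : ℝ) := by
        calc (b : ℝ) ^ Nat.clog b (D * P (idx j)) * (b : ℝ) ^ Nat.clog b (D * P (idx j)) * b ≤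
            (b * (D * q j)) * (b * (D * q j)) * b := by
              apply mul_le_mul_of_nonneg_right _ hb0.le
              exact mul_le_mul hcl hcl (by positivity) (by positivity)
          _ = _ := by push_cast; ring
      have e3 : (b : ℝ) ^ P (idx j) ≤ (b : ℝ) ^ Sv b D (idx 0) * (b : ℝ) ^ S.kap j *
          ((b : ℝ) ^ P (idx j)) ^ (1 - s) := by
        have h1 : (b : ℝ) ^ P (idx j) = ((b : ℝ) ^ P (idx j)) ^ s *
            ((b : ℝ) ^ P (idx j)) ^ (1 - s) := by
          rw [← Real.rpow_add (by positivity)]; simp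
        have hk : ((b : ℝ) ^ P (idx j)) ^ s ≤ (b : ℝ) ^ Sv b D (idx 0) * (b : ℝ) ^ S.kap j := by
          rw [← pow_add, add_comm, hkap, ← Real.rpow_natCast (b : ℝ) (P (idx j)),
            ← Real.rpow_mul hb0.le, ← Real.rpow_natCast (b : ℝ) (Sv b D (idx j))]
          apply Real.rpow_le_rpow_of_exponent_le hb1.le
          rw [mul_comm]
          exact hk0 _ (by have := hidxge j; omega)
        calc (b : ℝ) ^ P (idx j) = ((b : ℝ) ^ P (idx j)) ^ s *
            ((b : ℝ) ^ P (idx j)) ^ (1 - s) := h1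
          _ ≤ _ := mul_le_mul_of_nonneg_right hk (by positivity)
      rw [e1]
      calc (b : ℝ) ^ P (idx j) * ((b : ℝ) ^ sv b D (idx j) *
          ((b : ℝ) ^ Nat.clog b (D * P (idx j)) * (b : ℝ) ^ Nat.clog b (D * P (idx j)) * b)) ≤
          ((b : ℝ) ^ Sv b D (idx 0) * (b : ℝ) ^ S.kap j * ((b : ℝ) ^ P (idx j)) ^ (1 - s)) *
          ((b : ℝ) ^ sv b D (idx j) * ((b : ℝ) ^ 3 * (D : ℝ) ^ 2 * ((q j * q j : ℕ) : ℝ))) := by
            apply mul_le_mul e3 _ (by positivity) (by positivity)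
            exact mul_le_mul_of_nonneg_left e2 (by positivity)
        _ = _ := by rw [hkap']; ring
  refine hdim.trans (dimH_mono ?_)
  intro x hx
  refine ⟨?_, ?_⟩
  · obtain ⟨m, hQ, h1, h2⟩ := hx 0
    obtain ⟨_, q2, _⟩ := hQ
    have e : m = m0 := q2 rfl
    have h1' : (m : ℝ) / (b : ℝ) ^ A 0 < x := h1
    have h2' : x ≤ (m : ℝ) / (b : ℝ) ^ A 0 + 1 / (b : ℝ) ^ P (idx 0) := h2
    rw [e, hA0] at h1' h2'
    constructor
    · linarith
    · have : (m0 : ℝ) / (b : ℝ) ^ B0 + 1 / (b : ℝ) ^ B0 = ((m0 : ℝ) + 1) / (b : ℝ) ^ B0 := by ring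
      linarith
  · rw [eventually_atTop]
    refine ⟨P (idx 0 + 1), fun p hp1 hp => ?_⟩
    obtain ⟨k, rfl⟩ := P_surj hp
    have hk : idx 0 + 1 ≤ k := P_mono.le_iff_le.1 hp1
    -- the stage
    have hex : ∃ j, k ≤ idx (j + 1) := ⟨k, by have := hidxge (k + 1); omega⟩
    classical
    obtain ⟨j, hj⟩ : ∃ j, j = Nat.find hex := ⟨_, rfl⟩
    have hj1 : k ≤ idx (j + 1) := hj ▸ Nat.find_spec hex
    have hj2 : idx j < k := by
      cases j with
      | zero => omega
      | succ i =>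
        have := Nat.find_min hex (m := i) (by omega)
        omega
    obtain ⟨m, hQ, h1, h2⟩ := hx (j + 1)
    obtain ⟨q1, _, q3⟩ := hQ
    have h1' : (m : ℝ) / (b : ℝ) ^ A (j + 1) < x := h1
    have h2' : x ≤ (m : ℝ) / (b : ℝ) ^ A (j + 1) + 1 / (b : ℝ) ^ P (idx (j + 1)) := h2
    have hpq : P k < q j := (P_mono.monotone hj1).trans_lt (hq1 j)
    exact WB_two (by omega) (by omega) h1' h2' (by rw [hAs]; exact P_mono.monotone hj2)
      (P_mono.monotone hj1) (by have := le_P k; have := hidxge 0; omega) (hqp j) (hqp j) hpq hpq (q3 j rfl)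

end Pool.Agent.Helper76x.EX.Few
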