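import Pool.Agent.Helper76x.EX.Scheme
import Pool.Agent.Helper76x.EX.Run

/-! Project EX (helper76): images of sets of positive measure, and the number of smooth integers. -/

set_option autoImplicit false

namespace Pool.Agent.Helper76x.EX

open Set Finset Filter MeasureTheory

theorem dim_lower' {F : ℝ → ℝ} {C s : ℝ} (hs : 0 < s) (hC : 0 ≤ C)
    (h : ∀ t ∈ Ico (0 : ℝ) 1, ∀ u ∈ Ico (0 : ℝ) 1, |t - u| ≤ C * |F t - F u| ^ s) {T : Set ℝ}
    (hT : T ⊆ Ico (0 : ℝ) 1) (hv : volume T ≠ 0) :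
    ENNReal.ofReal s ≤ dimH (F '' T) := by
  classical
  have hinj : InjOn F T := by
    intro t ht u hu htu
    have h1 := h t (hT ht) u (hT hu)
    rw [htu, sub_self, abs_zero, Real.zero_rpow hs.ne', mul_zero] at h1
    have h2 := abs_nonneg (t - u)
    have h3 : |t - u| = 0 := le_antisymm h1 h2
    rw [abs_eq_zero] at h3
    linarith
  set g := Function.invFunOn F T with hg
  have hne : T.Nonempty := by
    by_contra hc
    rw [Set.not_nonempty_iff_eq_empty] at hc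
    rw [hc, measure_empty] at hv
    exact hv rfl
  have hgF : ∀ t ∈ T, g (F t) = t := fun t ht => hinj.leftInvOn_invFunOn ht
  obtain ⟨r, hr⟩ : ∃ r : NNReal, (r : ℝ) = s := ⟨⟨s, hs.le⟩, rfl⟩
  obtain ⟨D, hD⟩ : ∃ D : NNReal, (D : ℝ) = C := ⟨⟨C, hC⟩, rfl⟩
  have hold : HolderOnWith D r g (F '' T) := by
    rintro _ ⟨t, ht, rfl⟩ _ ⟨u, hu, rfl⟩
    rw [hgF t ht, hgF u hu, edist_dist, edist_dist, Real.dist_eq, Real.dist_eq, hr,
      ENNReal.ofReal_rpow_of_nonneg (abs_nonneg _) hs.le]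
    have e : (D : ENNReal) = ENNReal.ofReal C := by
      rw [← hD, ENNReal.ofReal_coe_nnreal]
    rw [e, ← ENNReal.ofReal_mul hC]
    exact ENNReal.ofReal_le_ofReal (h t (hT ht) u (hT hu))
  have hr0 : 0 < r := by
    have : (0 : ℝ) < r := by rw [hr]; exact hs
    exact_mod_cast this
  have h1 := hold.dimH_image_le hr0
  have h2 : g '' (F '' T) = T := by
    rw [← image_comp]
    ext t
    constructor
    · rintro ⟨u, hu, rfl⟩
      simp only [Function.comp]
      rw [hgF u hu]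
      exact hu
    · intro ht
      exact ⟨t, ht, hgF t ht⟩
  have h3 : (1 : ENNReal) ≤ dimH T := by
    have h4 : Measure.hausdorffMeasure ((1 : NNReal) : ℝ) T ≠ 0 := by
      rw [NNReal.coe_one, hausdorffMeasure_real]
      exact hv
    have := le_dimH_of_hausdorffMeasure_ne_zero h4
    simpa using this
  rw [h2] at h1
  have h5 := h3.trans h1
  have hr' : (r : ENNReal) ≠ 0 := by exact_mod_cast hr0.ne'
  rw [ENNReal.le_div_iff_mul_le (Or.inl hr') (Or.inl ENNReal.coe_ne_top), one_mul] at h5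
  rw [← hr, ENNReal.ofReal_coe_nnreal]
  exact h5

/-- Rankin's bound for the number of integers up to `X` without prime factors `≥ N` -/
theorem smooth_count {σ : ℝ} (hσ : 0 < σ) (N X : ℕ) :
    ((((Finset.Icc 1 X).filter (fun k => k ∈ N.smoothNumbers)).card : ℕ) : ℝ) ≤
      (X : ℝ) ^ σ * ((1 - (2 : ℝ) ^ (-σ))⁻¹) ^ N.primesBelow.card := by
  classical
  let f : ℕ →*₀ ℝ :=
    { toFun := fun k => (k : ℝ) ^ (-σ)
      map_zero' := by
        rw [Nat.cast_zero]
        exact Real.zero_rpow (by linarith)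
      map_one' := by simp
      map_mul' := fun m n => by
        push_cast
        exact Real.mul_rpow (Nat.cast_nonneg _) (Nat.cast_nonneg _) }
  have hf : ∀ k : ℕ, (f : ℕ →* ℝ) k = (k : ℝ) ^ (-σ) := fun _ => rfl
  have hlt : ∀ {p : ℕ}, p.Prime → ‖(f : ℕ →* ℝ) p‖ < 1 := by
    intro p hp
    rw [hf, Real.norm_of_nonneg (Real.rpow_nonneg (Nat.cast_nonneg _) _)]
    exact Real.rpow_lt_one_of_one_lt_of_neg (by exact_mod_cast hp.one_lt) (by linarith)
  have hsum := (EulerProduct.summable_and_hasSum_smoothNumbers_prod_primesBelow_geometric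
    (f := (f : ℕ →* ℝ)) hlt N).2
  set A := (Finset.Icc 1 X).filter (fun k => k ∈ N.smoothNumbers) with hA
  have hAs : ∀ k ∈ A, k ∈ N.smoothNumbers := fun k hk => (Finset.mem_filter.1 hk).2
  have h1 : ∑ k ∈ A, (k : ℝ) ^ (-σ) ≤ ∏ p ∈ N.primesBelow, (1 - (f : ℕ →* ℝ) p)⁻¹ := by
    have h2 := sum_le_hasSum (A.attach.map ⟨fun k => (⟨k.1, hAs k.1 k.2⟩ : N.smoothNumbers), by
      intro a b hab
      simp only [Subtype.mk.injEq] at hab
      exact Subtype.ext hab⟩) (fun i _ => by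
        rw [hf]; exact Real.rpow_nonneg (Nat.cast_nonneg _) _) hsum
    rw [Finset.sum_map] at h2
    have h3 : ∑ x ∈ A.attach, (f : ℕ →* ℝ) (x : ℕ) ≤
        ∏ p ∈ N.primesBelow, (1 - (f : ℕ →* ℝ) p)⁻¹ := h2
    rw [Finset.sum_attach A (fun k => (f : ℕ →* ℝ) k)] at h3
    exact h3
  have h2 : ∏ p ∈ N.primesBelow, (1 - (f : ℕ →* ℝ) p)⁻¹ ≤
      ((1 - (2 : ℝ) ^ (-σ))⁻¹) ^ N.primesBelow.card := by
    rw [← Finset.prod_const]
    have h2lt : (2 : ℝ) ^ (-σ) < 1 := Real.rpow_lt_one_of_one_lt_of_neg (by norm_num) (by linarith)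
    refine Finset.prod_le_prod (fun p hp => ?_) (fun p hp => ?_)
    · have := hlt (Nat.prime_of_mem_primesBelow hp)
      rw [Real.norm_eq_abs] at this
      have := (abs_lt.1 this).2
      exact inv_nonneg.2 (by linarith)
    · have hpp := Nat.prime_of_mem_primesBelow hp
      rw [hf]
      have h3 : (p : ℝ) ^ (-σ) ≤ (2 : ℝ) ^ (-σ) :=
        Real.rpow_le_rpow_of_nonpos (by norm_num) (by exact_mod_cast hpp.two_le) (by linarith)
      exact inv_anti₀ (by linarith) (by linarith)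
  have h3 : (A.card : ℝ) * (X : ℝ) ^ (-σ) ≤ ∑ k ∈ A, (k : ℝ) ^ (-σ) := by
    rw [← nsmul_eq_mul]
    refine Finset.card_nsmul_le_sum _ _ _ fun k hk => ?_
    rw [hA, Finset.mem_filter, Finset.mem_Icc] at hk
    exact Real.rpow_le_rpow_of_nonpos (by exact_mod_cast hk.1.1) (by exact_mod_cast hk.1.2)
      (by linarith)
  rcases Nat.eq_zero_or_pos X with hX | hX
  · have : A = ∅ := by rw [hA, hX]; rfl
    rw [this, Finset.card_empty]
    have h2lt : (2 : ℝ) ^ (-σ) < 1 := Real.rpow_lt_one_of_one_lt_of_neg (by norm_num) (by linarith)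
    have : 0 < (1 - (2 : ℝ) ^ (-σ))⁻¹ := inv_pos.2 (by linarith)
    push_cast
    positivity
  · have hX0 : (0 : ℝ) < X := by exact_mod_cast hX
    have h4 := h3.trans (h1.trans h2)
    have h5 : (X : ℝ) ^ σ * (X : ℝ) ^ (-σ) = 1 := by
      rw [← Real.rpow_add hX0]; simp
    calc (A.card : ℝ) = (X : ℝ) ^ σ * (A.card * (X : ℝ) ^ (-σ)) := by
          rw [mul_left_comm, h5, mul_one]
      _ ≤ _ := mul_le_mul_of_nonneg_left h4 (by positivity)

namespace Scheme

variable {b : ℕ} (S : Scheme b)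

/-- the prefix determines the digits of the index -/
theorem PP_inj (hb : 2 ≤ b) {t u : ℝ} (ht : t ∈ Ico (0 : ℝ) 1) (hu : u ∈ Ico (0 : ℝ) 1) (j : ℕ)
    (h : S.PP t j = S.PP u j) : S.Dg j t = S.Dg j u := by
  induction j with
  | zero => rw [S.Dg_zero ht, S.Dg_zero hu]
  | succ j ih =>
    have hmt : S.Dg (j + 1) t % b ^ S.K j < b ^ S.K j := Nat.mod_lt _ (pow_pos (by omega) _)
    have hmu : S.Dg (j + 1) u % b ^ S.K j < b ^ S.K j := Nat.mod_lt _ (pow_pos (by omega) _)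
    have h' : S.nx j (S.PP t j) (S.Dg (j + 1) t % b ^ S.K j) =
        S.nx j (S.PP u j) (S.Dg (j + 1) u % b ^ S.K j) := h
    have h1 := S.lo j _ _ (S.PP_Q hb t j) hmt
    have h2 := S.up j _ _ (S.PP_Q hb t j) hmt
    have h3 := S.lo j _ _ (S.PP_Q hb u j) hmu
    have h4 := S.up j _ _ (S.PP_Q hb u j) hmu
    rw [h'] at h1 h2
    have h5 : b ^ (S.lev (j + 1) - S.fr j) ≤ b ^ (S.lev (j + 1) - S.lev j) :=
      Nat.pow_le_pow_right (by omega) (by have := S.lf j; omega)
    have hpos : 0 < b ^ (S.lev (j + 1) - S.lev j) := pow_pos (by omega) _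
    have hPP : S.PP t j = S.PP u j := by
      set Y := b ^ (S.lev (j + 1) - S.lev j) with hY
      rcases lt_trichotomy (S.PP t j) (S.PP u j) with hlt | heq | hgt
      · exfalso
        have : (S.PP t j + 1) * Y ≤ S.PP u j * Y := Nat.mul_le_mul_right _ hlt
        rw [add_mul, one_mul] at this
        omega
      · exact heq
      · exfalso
        have : (S.PP u j + 1) * Y ≤ S.PP t j * Y := Nat.mul_le_mul_right _ hgt
        rw [add_mul, one_mul] at this
        omega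
    have hD := ih hPP
    rw [hPP] at h'
    have hG : 0 < S.G j := by
      have h1 := S.hG j
      rcases Nat.eq_zero_or_pos (S.G j) with h | h
      · rw [h, zero_mul] at h1
        have : 0 < b ^ S.lev (j + 1) := pow_pos (by omega) _
        omega
      · exact h
    have hmod : S.Dg (j + 1) t % b ^ S.K j = S.Dg (j + 1) u % b ^ S.K j := by
      rcases lt_trichotomy (S.Dg (j + 1) t % b ^ S.K j) (S.Dg (j + 1) u % b ^ S.K j) with
        hlt | heq | hgt
      · exfalso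
        have h6 := S.gap j _ _ _ (S.PP_Q hb u j) hlt hmu
        have h7 : 0 < S.G j * (S.Dg (j + 1) u % b ^ S.K j - S.Dg (j + 1) t % b ^ S.K j) :=
          Nat.mul_pos hG (by omega)
        omega
      · exact heq
      · exfalso
        have h6 := S.gap j _ _ _ (S.PP_Q hb u j) hgt hmt
        have h7 : 0 < S.G j * (S.Dg (j + 1) t % b ^ S.K j - S.Dg (j + 1) u % b ^ S.K j) :=
          Nat.mul_pos hG (by omega)
        omega
    have hq1 := Nat.div_add_mod (S.Dg (j + 1) t) (b ^ S.K j)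
    have hq2 := Nat.div_add_mod (S.Dg (j + 1) u) (b ^ S.K j)
    rw [S.Dg_div hb] at hq1 hq2
    rw [hD] at hq1
    omega

/-- the measure of the indices with a given finite set of prefixes -/
theorem vol_le (hb : 2 ≤ b) (j : ℕ) (B : Finset ℕ) :
    volume {t : ℝ | t ∈ Ico (0 : ℝ) 1 ∧ S.PP t j ∈ B} ≤
      ENNReal.ofReal (B.card * ((b : ℝ) ^ S.kap j)⁻¹) := by
  classical
  have hb0 : (0 : ℝ) < b := by exact_mod_cast (by omega : 0 < b)
  have hpk : (0 : ℝ) < (b : ℝ) ^ S.kap j := by positivity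
  have h1 : {t : ℝ | t ∈ Ico (0 : ℝ) 1 ∧ S.PP t j ∈ B} ⊆
      ⋃ m ∈ B, {t : ℝ | t ∈ Ico (0 : ℝ) 1 ∧ S.PP t j = m} := by
    rintro t ⟨h1, h2⟩
    rw [mem_iUnion₂]
    exact ⟨S.PP t j, h2, h1, rfl⟩
  have h2 : ∀ m ∈ B, volume {t : ℝ | t ∈ Ico (0 : ℝ) 1 ∧ S.PP t j = m} ≤
      ENNReal.ofReal ((b : ℝ) ^ S.kap j)⁻¹ := by
    intro m _
    by_cases hne : {t : ℝ | t ∈ Ico (0 : ℝ) 1 ∧ S.PP t j = m}.Nonempty
    · obtain ⟨u, hu, hum⟩ := hne
      have h3 : {t : ℝ | t ∈ Ico (0 : ℝ) 1 ∧ S.PP t j = m} ⊆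
          Set.Icc ((S.Dg j u : ℝ) / (b : ℝ) ^ S.kap j) (((S.Dg j u : ℝ) + 1) / (b : ℝ) ^ S.kap j) := by
        rintro t ⟨ht, htm⟩
        have h4 := S.PP_inj hb ht hu j (htm.trans hum.symm)
        rw [← h4]
        constructor
        · rw [div_le_iff₀ hpk]
          exact Nat.floor_le (mul_nonneg ht.1 hpk.le)
        · rw [le_div_iff₀ hpk]
          exact (Nat.lt_floor_add_one _).le
      refine (measure_mono h3).trans ?_
      rw [Real.volume_Icc]
      apply ENNReal.ofReal_le_ofReal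
      rw [← sub_div, add_sub_cancel_left, one_div]
    · rw [Set.not_nonempty_iff_eq_empty] at hne
      rw [hne, measure_empty]
      exact zero_le
  refine (measure_mono h1).trans ((measure_biUnion_finset_le _ _).trans ?_)
  refine (Finset.sum_le_card_nsmul _ _ _ h2).trans ?_
  rw [nsmul_eq_mul, ENNReal.ofReal_mul (Nat.cast_nonneg _), ENNReal.ofReal_natCast]

theorem dim' (hb : 2 ≤ b) {s C : ℝ} (hs0 : 0 < s) (hs1 : s ≤ 1) (hC : 0 ≤ C)
    (hk : Tendsto S.kap atTop atTop)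
    (hH : ∀ j, (b : ℝ) ^ S.lev (j + 1) ≤
      C * S.G j * (b : ℝ) ^ S.kap (j + 1) * ((b : ℝ) ^ S.fr j) ^ (1 - s)) {T : Set ℝ}
    (hT : T ⊆ Ico (0 : ℝ) 1) (hv : volume T ≠ 0) :
    ENNReal.ofReal s ≤ dimH (S.lim '' T) := by
  refine dim_lower' (F := S.lim) (C := 4 * C) hs0 (by linarith) ?_ hT hv
  intro t ht u hu
  rcases lt_trichotomy t u with h | h | h
  · exact S.holder hb hs0 hs1 hC hk hH ht hu h
  · rw [h, sub_self, sub_self, abs_zero, Real.zero_rpow hs0.ne', mul_zero]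
  · have := S.holder hb hs0 hs1 hC hk hH hu ht h
    rw [abs_sub_comm t u, abs_sub_comm (S.lim t)]
    exact this

end Scheme

end Pool.Agent.Helper76x.EX
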