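import Pool.Agent.Helper76x.EX.FewPnt
import Pool.Agent.Helper76x.EX.Smooth

/-! Project EX (helper76): amplitudes with finitely many exponents; one large prime factor of each
prefix and the small number of smooth integers. -/

set_option autoImplicit false

namespace Pool.Agent.Helper76x.EX.Few

open Finset Filter Set Topology MeasureTheory

/-- the number of digits saved in the `k`-th gap -/
noncomputable def sv1 (b D k : ℕ) : ℕ := (P (k + 1) - P k) - (Nat.clog b (D * P k) + 1)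

noncomputable def Sv1 (b D k : ℕ) : ℕ := ∑ i ∈ Finset.range k, sv1 b D i

theorem Sv1_succ (b D k : ℕ) : Sv1 b D (k + 1) = Sv1 b D k + sv1 b D k := by
  unfold Sv1; rw [sum_range_succ]

theorem Sv1_le (b D k : ℕ) : Sv1 b D k ≤ P k := by
  induction k with
  | zero => simp [Sv1]
  | succ k ih =>
    rw [Sv1_succ]
    have h1 : sv1 b D k ≤ P (k + 1) - P k := Nat.sub_le _ _
    have h2 : P k ≤ P (k + 1) := P_mono.monotone (Nat.le_succ k)
    omega

/-- a proportion `s` of all digits is saved -/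
def H1 (b : ℕ) (s : ℝ) : Prop := ∀ D : ℕ, ∃ k0 : ℕ, ∀ k ≥ k0, s * P k ≤ Sv1 b D k

theorem H1_of_H {b : ℕ} {s : ℝ} (h : H b s) : H1 b s := by
  intro D
  obtain ⟨k0, hk0⟩ := h D
  refine ⟨k0, fun k hk => (hk0 k hk).trans ?_⟩
  have : Sv b D k ≤ Sv1 b D k := by
    unfold Sv Sv1
    refine Finset.sum_le_sum fun i _ => ?_
    unfold sv sv1
    omega
  exact_mod_cast this

theorem P_le_Sv1 (b D k : ℕ) : P k ≤ Sv1 b D k + P 0 + k * (Nat.clog b (D * P k) + 1) := by
  induction k with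
  | zero => omega
  | succ k ih =>
    have h1 : P (k + 1) - P k ≤ sv1 b D k + (Nat.clog b (D * P k) + 1) := by
      unfold sv1; omega
    have h2 : Nat.clog b (D * P k) ≤ Nat.clog b (D * P (k + 1)) :=
      Nat.clog_mono_right _ (Nat.mul_le_mul_left _ (P_mono.monotone (Nat.le_succ k)))
    have h3 : k * (Nat.clog b (D * P k) + 1) ≤ k * (Nat.clog b (D * P (k + 1)) + 1) :=
      Nat.mul_le_mul_left _ (by omega)
    rw [Sv1_succ, add_mul, one_mul]
    omega

theorem P_small : Tendsto (fun j : ℕ => ((j : ℝ) + 1) / P j) atTop (𝓝 0) := by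
  have hL : Tendsto (fun j : ℕ => Real.log (P j)) atTop atTop :=
    Real.tendsto_log_atTop.comp P_tendsto
  have := P_ratio.div_atTop hL
  refine this.congr' ?_
  filter_upwards [hL.eventually_gt_atTop 0] with j hj
  field_simp

theorem H1_pnt {b : ℕ} (hb : 2 ≤ b) {s : ℝ} (hs : s < 1 - 1 / Real.log b) : H1 b s := by
  intro D
  have hl : 0 < Real.log b := Real.log_pos (by exact_mod_cast (by omega : 1 < b))
  have hL : Tendsto (fun j : ℕ => Real.log (P j)) atTop atTop :=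
    Real.tendsto_log_atTop.comp P_tendsto
  have hinv : Tendsto (fun j : ℕ => ((P j : ℝ))⁻¹) atTop (𝓝 0) := tendsto_inv_atTop_zero.comp P_tendsto
  have h0 : Tendsto (fun j : ℕ => Real.log (P j) / P j) atTop (𝓝 0) := by
    have h5 : Tendsto (fun x : ℝ => Real.log x / x) atTop (nhds 0) :=
      Real.isLittleO_log_id_atTop.tendsto_div_nhds_zero
    exact h5.comp P_tendsto
  have h1 : Tendsto (fun j : ℕ => (j : ℝ) * Real.log (P j) / P j) atTop (𝓝 1) := by
    have := P_ratio.sub h0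
    rw [sub_zero] at this
    refine this.congr fun j => ?_
    ring
  have h2 : Tendsto (fun j : ℕ => (j : ℝ) / P j) atTop (𝓝 0) := by
    have := h1.div_atTop hL
    refine this.congr' ?_
    filter_upwards [hL.eventually_gt_atTop 0] with j hj
    field_simp
  have h3 : Tendsto (fun j : ℕ => 1 - 2 * ((P j : ℝ))⁻¹ -
      (1 / Real.log b) * ((j : ℝ) * Real.log (P j) / P j) -
      (Real.log D / Real.log b + 2) * ((j : ℝ) / P j)) atTop (𝓝 (1 - 2 * 0 -
        (1 / Real.log b) * 1 - (Real.log D / Real.log b + 2) * 0)) :=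
    ((tendsto_const_nhds.sub (hinv.const_mul _)).sub (h1.const_mul _)).sub (h2.const_mul _)
  have h4 : s < 1 - 2 * 0 - (1 / Real.log b) * 1 - (Real.log D / Real.log b + 2) * 0 := by
    simpa using hs
  obtain ⟨k0, hk0⟩ := eventually_atTop.1 (h3.eventually (lt_mem_nhds h4))
  refine ⟨k0, fun k hk => ?_⟩
  have h5 := hk0 k hk
  have hP : (0 : ℝ) < P k := by exact_mod_cast (P_prime k).pos
  have h6 : (P k : ℝ) ≤ Sv1 b D k + 2 + k * ((Nat.clog b (D * P k) : ℝ) + 1) := by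
    have := P_le_Sv1 b D k
    have h0 : P 0 = 2 := Nat.nth_prime_zero_eq_two
    rw [h0] at this
    exact_mod_cast this
  have h7 := clog_le' hb D k
  have h8 : (k : ℝ) * ((Nat.clog b (D * P k) : ℝ) + 1) ≤
      k * (((Real.log D + Real.log (P k)) / Real.log b + 1) + 1) := by
    apply mul_le_mul_of_nonneg_left _ (Nat.cast_nonneg _)
    linarith
  have h9 : (1 - 2 * ((P k : ℝ))⁻¹ - (1 / Real.log b) * ((k : ℝ) * Real.log (P k) / P k) -
      (Real.log D / Real.log b + 2) * ((k : ℝ) / P k)) * P k =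
      P k - 2 - k * (((Real.log D + Real.log (P k)) / Real.log b + 1) + 1) := by
    field_simp
    ring
  have h10 := mul_le_mul_of_nonneg_right h5.le hP.le
  rw [h9] at h10
  linarith

/-- the scheme: prefixes divisible by a prime beyond the next large gap -/
noncomputable def fewScheme1 {b : ℕ} (hb : 2 ≤ b) (A B : ℕ → ℕ) (q K : ℕ → ℕ) (m0 : ℕ)
    (hm0 : 1 ≤ m0) (hAB : ∀ j, A j ≤ B j) (hBA : ∀ j, B j ≤ A (j + 1))
    (hq : ∀ j, 2 ≤ q j)
    (hg : ∀ j, q j * b ^ (K j + 1) ≤ b ^ (A (j + 1) - B j)) : Scheme b where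
  lev := A
  fr := B
  K := K
  G := fun j => q j
  Q := fun j m => 1 ≤ m ∧ (j = 0 → m = m0) ∧ ∀ i, j = i + 1 → q i ∣ m
  nx := fun j m i => q j * (m * b ^ (A (j + 1) - A j) / q j + 1 + i)
  m0 := m0
  h0 := ⟨hm0, fun _ => rfl, fun i hi => absurd hi (by omega)⟩
  lf := hAB
  fl := hBA
  nxQ := by
    intro j m i hQ hi
    have hZ : 0 < q j := by have := hq j; omega
    refine ⟨?_, fun h => absurd h (by omega), ?_⟩
    · exact Nat.mul_pos hZ (by positivity)
    · intro i' hi'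
      have : i' = j := by omega
      subst this
      exact Dvd.intro _ rfl
  lo := by
    intro j m i hQ hi
    have hZ : 0 < q j := by have := hq j; omega
    have h1 := Nat.lt_mul_div_succ (m * b ^ (A (j + 1) - A j)) hZ
    refine lt_of_lt_of_le h1 (Nat.mul_le_mul_left _ (by omega))
  up := by
    intro j m i hQ hi
    have hZ : 0 < q j := by have := hq j; omega
    have h1 := Nat.mul_div_le (m * b ^ (A (j + 1) - A j)) (q j)
    have h2 : q j * (1 + i) ≤ q j * b ^ K j := Nat.mul_le_mul_left _ (by omega)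
    have h3 : q j * b ^ K j < q j * b ^ (K j + 1) :=
      Nat.mul_lt_mul_of_pos_left (Nat.pow_lt_pow_right (by omega) (Nat.lt_succ_self _)) hZ
    have h4 := hg j
    have h5 : q j * (m * b ^ (A (j + 1) - A j) / q j + 1 + i) =
      q j * (m * b ^ (A (j + 1) - A j) / q j) + q j * (1 + i) := by ring
    rw [h5]
    omega
  gap := by
    intro j m i i' hQ hii hi'
    obtain ⟨d, rfl⟩ := Nat.exists_eq_add_of_le hii.le
    rw [Nat.add_sub_cancel_left]
    exact le_of_eq (by ring)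
  hG := by
    intro j
    have h1 : b ^ A (j + 1) ≤ b ^ B (j + 1) := Nat.pow_le_pow_right (by omega) (hAB (j + 1))
    calc 2 * b ^ A (j + 1) ≤ q j * b ^ A (j + 1) := Nat.mul_le_mul_right _ (hq j)
      _ ≤ _ := Nat.mul_le_mul_left _ h1

/-- a prefix with a large prime factor and prime rough part is a multiple of this factor by a
smooth number -/
theorem smooth_of_prime {p B q m : ℕ} (hm : m ≠ 0) (hq : q.Prime) (hpq : p < q) (hpB : p ≤ B)
    (hd : q ∣ m) (h : (roughPart p m).Prime) : ∃ k, m = q * k ∧ k ∈ (B + 1).smoothNumbers := by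
  obtain ⟨k, rfl⟩ := hd
  have hk : k ≠ 0 := fun h => hm (by rw [h, mul_zero])
  refine ⟨k, rfl, ?_⟩
  rw [rough_mul hq.ne_zero hk, rough_prime hq hpq] at h
  have h1 : roughPart p k = 1 := by
    rcases (Nat.dvd_prime h).1 (Dvd.intro _ rfl : q ∣ q * roughPart p k) with h2 | h2
    · exact absurd h2 hq.one_lt.ne'
    · have h3 : q * 1 = q * roughPart p k := by rw [mul_one]; exact h2
      exact (Nat.eq_of_mul_eq_mul_left hq.pos h3).symm
  rw [Nat.mem_smoothNumbers]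
  refine ⟨hk, fun r hr => ?_⟩
  by_contra hc
  have hpr : p < r := by omega
  have hmem : r ∈ k.primeFactorsList.filter (fun r => p < r) := by
    rw [List.mem_filter]
    exact ⟨hr, by simpa using hpr⟩
  have h2 : r ∣ roughPart p k := List.dvd_prod hmem
  rw [h1] at h2
  exact (Nat.prime_of_mem_primeFactorsList hr).one_lt.ne' (Nat.dvd_one.1 h2)

theorem dim_few1 {b : ℕ} (hb : 2 ≤ b) {s : ℝ} (hs : 0 < s) (h : H1 b s) {u0 v0 : ℝ} (hu : 0 < u0)
    (huv : u0 < v0) : ENNReal.ofReal s ≤ dimH {x : ℝ | x ∈ Set.Ioo u0 v0 ∧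
      ∀ᶠ p : ℕ in atTop, p.Prime → ¬ (WB b x p).Prime} := by
  classical
  have hb0 : (0 : ℝ) < b := by exact_mod_cast (by omega : 0 < b)
  have hb1 : (1 : ℝ) < b := by exact_mod_cast (by omega : 1 < b)
  have hlb : 0 < Real.log b := Real.log_pos hb1
  obtain ⟨D, hD⟩ : ∃ D, D = ⌈4 / s⌉₊ + 2 := ⟨_, rfl⟩
  have hDs : 4 / s ≤ D := by
    rw [hD]; push_cast
    have := Nat.le_ceil (4 / s)
    linarith
  obtain ⟨k0, hk0⟩ := h D
  have hs1 : s ≤ 1 := by
    have h1 := hk0 k0 le_rfl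
    have h2 : (Sv1 b D k0 : ℝ) ≤ P k0 := by exact_mod_cast Sv1_le b D k0
    have h3 : (0 : ℝ) < P k0 := by exact_mod_cast (P_prime k0).pos
    by_contra hc
    nlinarith
  -- good gaps
  have hinf : {k | 1 ≤ sv1 b D k}.Infinite := by
    intro hfin
    obtain ⟨M, hM⟩ := hfin.bddAbove
    have hz : ∀ k > M, sv1 b D k = 0 := by
      intro k hk
      by_contra hc
      have : k ≤ M := hM (show 1 ≤ sv1 b D k by omega)
      omega
    have hc : ∀ k, Sv1 b D (M + 1 + k) = Sv1 b D (M + 1) := by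
      intro k
      induction k with
      | zero => rfl
      | succ k ih => rw [← add_assoc, Sv1_succ, ih, hz _ (by omega), add_zero]
    obtain ⟨N, hN⟩ := exists_nat_gt ((Sv1 b D (M + 1) : ℝ) / s)
    have h1 := hk0 (M + 1 + (k0 + N)) (by omega)
    rw [hc] at h1
    have h2 : (N : ℝ) ≤ P (M + 1 + (k0 + N)) := by
      have := le_P (M + 1 + (k0 + N))
      exact_mod_cast (by omega : N ≤ P (M + 1 + (k0 + N)))
    rw [div_lt_iff₀ hs] at hN
    nlinarith
  -- the thresholds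
  have hpow : Tendsto (fun n : ℕ => (b : ℝ) ^ n) atTop atTop := tendsto_pow_atTop_atTop_of_one_lt hb1
  obtain ⟨N0, hN0⟩ := eventually_atTop.1 (hpow.eventually_gt_atTop (2 / (v0 - u0)))
  obtain ⟨σ, hσ⟩ : ∃ σ, σ = s / 4 := ⟨_, rfl⟩
  have hσ0 : 0 < σ := by rw [hσ]; linarith
  obtain ⟨c, hc⟩ : ∃ c, c = (1 - (2 : ℝ) ^ (-σ))⁻¹ := ⟨_, rfl⟩
  have h2lt : (2 : ℝ) ^ (-σ) < 1 := Real.rpow_lt_one_of_one_lt_of_neg (by norm_num) (by linarith)
  have h2pos : (0 : ℝ) < (2 : ℝ) ^ (-σ) := Real.rpow_pos_of_pos (by norm_num) _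
  have hc1 : 1 < c := by
    rw [hc]
    exact (one_lt_inv₀ (by linarith)).2 (by linarith)
  have hlc : 0 < Real.log c := Real.log_pos hc1
  obtain ⟨N1, hN1⟩ := eventually_atTop.1 (P_small.eventually (gt_mem_nhds
    (show (0 : ℝ) < σ * Real.log b / Real.log c by positivity)))
  obtain ⟨j0, hj0⟩ : ∃ j0, j0 = k0 + N0 + N1 + b := ⟨_, rfl⟩
  set idx : ℕ → ℕ := fun j => Nat.nth (fun k => 1 ≤ sv1 b D k) (j + j0) with hidx
  have hnm : StrictMono (Nat.nth (fun k => 1 ≤ sv1 b D k)) := Nat.nth_strictMono hinf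
  have hidxm : StrictMono idx := fun i j hij => hnm (by omega)
  have hidxge : ∀ j, j + j0 ≤ idx j := fun j => hnm.le_apply
  have hgood : ∀ j, 1 ≤ sv1 b D (idx j) := fun j => Nat.nth_mem_of_infinite hinf (j + j0)
  have hbad : ∀ j i, idx j < i → i < idx (j + 1) → sv1 b D i = 0 := by
    intro j i h1 h2
    by_contra hc
    have hgi : 1 ≤ sv1 b D i := by omega
    have e : Nat.nth (fun k => 1 ≤ sv1 b D k) (Nat.count (fun k => 1 ≤ sv1 b D k) i) = i :=
      Nat.nth_count (p := fun k => 1 ≤ sv1 b D k) hgi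
    rw [← e] at h1 h2
    have h3 := hnm.lt_iff_lt.1 h1
    have h4 := hnm.lt_iff_lt.1 h2
    omega
  have hSnext : ∀ j, Sv1 b D (idx (j + 1)) = Sv1 b D (idx j + 1) := by
    intro j
    have : ∀ d, idx j + 1 + d ≤ idx (j + 1) → Sv1 b D (idx j + 1 + d) = Sv1 b D (idx j + 1) := by
      intro d
      induction d with
      | zero => intro _; rfl
      | succ d ih =>
        intro hd
        rw [← add_assoc, Sv1_succ, ih (by omega), hbad j _ (by omega) (by omega), add_zero]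
    have h1 : idx j < idx (j + 1) := hidxm (Nat.lt_succ_self j)
    have h2 := this (idx (j + 1) - (idx j + 1)) (by omega)
    rwa [show idx j + 1 + (idx (j + 1) - (idx j + 1)) = idx (j + 1) by omega] at h2
  have hSs : ∀ j, Sv1 b D (idx (j + 1)) = Sv1 b D (idx j) + sv1 b D (idx j) := by
    intro j; rw [hSnext, Sv1_succ]
  have hnext : ∀ j, 2 * P (idx (j + 1)) ≤ D * P (idx j) := by
    intro j
    have h1 := hk0 (idx (j + 1)) (by have := hidxge (j + 1); omega)
    have h2 : (Sv1 b D (idx (j + 1)) : ℝ) ≤ 2 * P (idx j) := by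
      have : Sv1 b D (idx (j + 1)) ≤ 2 * P (idx j) := by
        rw [hSnext]
        exact (Sv1_le _ _ _).trans (P_succ_le _)
      exact_mod_cast this
    have h3 : (2 : ℝ) * P (idx (j + 1)) ≤ D * P (idx j) := by
      have h4 : (0 : ℝ) ≤ P (idx j) := Nat.cast_nonneg _
      calc (2 : ℝ) * P (idx (j + 1)) = 2 / s * (s * P (idx (j + 1))) := by field_simp
        _ ≤ 2 / s * (2 * P (idx j)) := mul_le_mul_of_nonneg_left (by linarith) (by positivity)
        _ = 4 / s * P (idx j) := by ring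
        _ ≤ D * P (idx j) := mul_le_mul_of_nonneg_right hDs h4
    exact_mod_cast h3
  -- the primes
  have hqex : ∀ j, ∃ q : ℕ, q.Prime ∧ P (idx (j + 1)) < q ∧ q ≤ 2 * P (idx (j + 1)) := fun j =>
    Nat.exists_prime_lt_and_le_two_mul _ (P_prime _).pos.ne'
  choose q hqp hq1 hq2 using hqex
  have hqD : ∀ j, q j ≤ b ^ Nat.clog b (D * P (idx j)) := fun j =>
    ((hq2 j).trans (hnext j)).trans (Nat.le_pow_clog (by omega) _)
  have hgap : ∀ j, P (idx j + 1) - P (idx j) =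
      sv1 b D (idx j) + (Nat.clog b (D * P (idx j)) + 1) := by
    intro j
    have h1 := hgood j
    unfold sv1 at h1 ⊢
    omega
  have hg : ∀ j, q j * b ^ (sv1 b D (idx j) + 1) ≤ b ^ (P (idx j + 1) - P (idx j)) := by
    intro j
    rw [hgap]
    calc q j * b ^ (sv1 b D (idx j) + 1) ≤
        b ^ Nat.clog b (D * P (idx j)) * b ^ (sv1 b D (idx j) + 1) :=
          Nat.mul_le_mul_right _ (hqD j)
      _ = _ := by ring
  -- levels
  obtain ⟨A, hA0, hAs⟩ : ∃ A : ℕ → ℕ, A 0 = P (idx 0) ∧ ∀ j, A (j + 1) = P (idx j + 1) :=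
    ⟨fun j => Nat.casesOn j (P (idx 0)) (fun j => P (idx j + 1)), rfl, fun _ => rfl⟩
  have hAB : ∀ j, A j ≤ P (idx j) := by
    intro j
    cases j with
    | zero => exact hA0.le
    | succ j =>
      rw [hAs]
      exact P_mono.monotone (hidxm (Nat.lt_succ_self j))
  have hBA : ∀ j, P (idx j) ≤ A (j + 1) := by
    intro j
    rw [hAs]
    exact P_mono.monotone (Nat.le_succ _)
  -- the first prefix
  set B0 := P (idx 0) with hB0
  have hB0ge : j0 ≤ B0 := (by have := hidxge 0; omega : j0 ≤ idx 0).trans (le_P _)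
  have hpB : (0 : ℝ) < (b : ℝ) ^ B0 := by positivity
  set m0 := ⌊u0 * (b : ℝ) ^ B0⌋₊ + 1 with hm0
  have hm1 : 1 ≤ m0 := by omega
  have hlo : u0 < (m0 : ℝ) / (b : ℝ) ^ B0 := by
    rw [lt_div_iff₀ hpB, hm0]
    push_cast
    exact Nat.lt_floor_add_one _
  have hhi : ((m0 : ℝ) + 1) / (b : ℝ) ^ B0 < v0 := by
    rw [div_lt_iff₀ hpB, hm0]
    push_cast
    have h1 := Nat.floor_le (show 0 ≤ u0 * (b : ℝ) ^ B0 by positivity)
    have h2 := hN0 B0 (by omega)
    rw [div_lt_iff₀ (by linarith)] at h2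
    nlinarith
  set S := fewScheme1 hb A (fun j => P (idx j)) q (fun j => sv1 b D (idx j)) m0 hm1 hAB hBA
    (fun j => (hqp j).two_le) (fun j => by rw [hAs]; exact hg j) with hS
  have hkap : ∀ j, S.kap j + Sv1 b D (idx 0) = Sv1 b D (idx j) := by
    intro j
    induction j with
    | zero => unfold Scheme.kap; simp
    | succ j ih =>
      have : S.kap (j + 1) = S.kap j + sv1 b D (idx j) := by
        unfold Scheme.kap; rw [sum_range_succ]; rfl
      rw [this, hSs]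
      omega
  have hkt : Tendsto S.kap atTop atTop := by
    have h1 : ∀ j, j ≤ S.kap j := by
      intro j
      induction j with
      | zero => exact Nat.zero_le _
      | succ j ih =>
        have : S.kap (j + 1) = S.kap j + sv1 b D (idx j) := by
          unfold Scheme.kap; rw [sum_range_succ]; rfl
        have h2 := hgood j
        omega
    exact tendsto_atTop_mono h1 tendsto_id
  -- powers of `b` and the saved digits
  have hpk : ∀ j, ((b : ℝ) ^ P (idx j)) ^ s ≤ (b : ℝ) ^ Sv1 b D (idx 0) * (b : ℝ) ^ S.kap j := by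
    intro j
    rw [← pow_add, add_comm, hkap, ← Real.rpow_natCast (b : ℝ) (P (idx j)),
      ← Real.rpow_mul hb0.le, ← Real.rpow_natCast (b : ℝ) (Sv1 b D (idx j))]
    apply Real.rpow_le_rpow_of_exponent_le hb1.le
    rw [mul_comm]
    exact hk0 _ (by have := hidxge j; omega)
  -- the inverse Hölder inequality
  have hH : ∀ j, (b : ℝ) ^ S.lev (j + 1) ≤ ((b : ℝ) ^ 2 * (D : ℝ) * (b : ℝ) ^ Sv1 b D (idx 0)) *
      S.G j * (b : ℝ) ^ S.kap (j + 1) * ((b : ℝ) ^ S.fr j) ^ (1 - s) := by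
    intro j
    have hkap' : S.kap (j + 1) = S.kap j + sv1 b D (idx j) := by
      unfold Scheme.kap; rw [sum_range_succ]; rfl
    show (b : ℝ) ^ A (j + 1) ≤ (b : ℝ) ^ 2 * (D : ℝ) * (b : ℝ) ^ Sv1 b D (idx 0) *
      (q j : ℝ) * (b : ℝ) ^ S.kap (j + 1) * ((b : ℝ) ^ P (idx j)) ^ (1 - s)
    have hPpos : 0 < P (idx j) := (P_prime _).pos
    have hDP : 1 < D * P (idx j) := by
      have : 2 ≤ D := by omega
      nlinarith
    have hcl : (b : ℝ) ^ Nat.clog b (D * P (idx j)) ≤ b * (D * q j) := by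
      have h1 : Nat.clog b (D * P (idx j)) ≠ 0 := by
        have := Nat.clog_pos (by omega : 1 < b) (by omega : 2 ≤ D * P (idx j))
        omega
      have h2 := Nat.pow_pred_clog_lt_self (by omega : 1 < b) hDP
      obtain ⟨c, hc⟩ := Nat.exists_eq_succ_of_ne_zero h1
      rw [hc] at h2 ⊢
      rw [Nat.pred_succ] at h2
      have h3 : b ^ c ≤ D * q j := h2.le.trans (Nat.mul_le_mul_left _
        ((P_mono.monotone (hidxm (Nat.lt_succ_self j)).le).trans (hq1 j).le))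
      have h4 : b ^ (c + 1) ≤ b * (D * q j) := by
        rw [pow_succ, mul_comm]
        exact Nat.mul_le_mul_left _ h3
      exact_mod_cast h4
    have e1 : (b : ℝ) ^ A (j + 1) = (b : ℝ) ^ P (idx j) * ((b : ℝ) ^ sv1 b D (idx j) *
        ((b : ℝ) ^ Nat.clog b (D * P (idx j)) * b)) := by
      have h1 : A (j + 1) = P (idx j) + (sv1 b D (idx j) +
          (Nat.clog b (D * P (idx j)) + 1)) := by
        rw [← hgap, hAs]
        have := P_mono.monotone (Nat.le_succ (idx j))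
        simp only [Nat.succ_eq_add_one] at this
        omega
      rw [h1]
      ring
    have e2 : (b : ℝ) ^ Nat.clog b (D * P (idx j)) * b ≤ (b : ℝ) ^ 2 * (D : ℝ) * (q j : ℝ) := by
      calc (b : ℝ) ^ Nat.clog b (D * P (idx j)) * b ≤ (b * (D * q j)) * b :=
            mul_le_mul_of_nonneg_right hcl hb0.le
        _ = _ := by ring
    have e3 : (b : ℝ) ^ P (idx j) ≤ (b : ℝ) ^ Sv1 b D (idx 0) * (b : ℝ) ^ S.kap j *
        ((b : ℝ) ^ P (idx j)) ^ (1 - s) := by
      have h1 : (b : ℝ) ^ P (idx j) = ((b : ℝ) ^ P (idx j)) ^ s *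
          ((b : ℝ) ^ P (idx j)) ^ (1 - s) := by
        rw [← Real.rpow_add (by positivity)]; simp
      calc (b : ℝ) ^ P (idx j) = ((b : ℝ) ^ P (idx j)) ^ s *
          ((b : ℝ) ^ P (idx j)) ^ (1 - s) := h1
        _ ≤ _ := mul_le_mul_of_nonneg_right (hpk j) (by positivity)
    rw [e1]
    calc (b : ℝ) ^ P (idx j) * ((b : ℝ) ^ sv1 b D (idx j) *
        ((b : ℝ) ^ Nat.clog b (D * P (idx j)) * b)) ≤
        ((b : ℝ) ^ Sv1 b D (idx 0) * (b : ℝ) ^ S.kap j * ((b : ℝ) ^ P (idx j)) ^ (1 - s)) *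
        ((b : ℝ) ^ sv1 b D (idx j) * ((b : ℝ) ^ 2 * (D : ℝ) * (q j : ℝ))) := by
          apply mul_le_mul e3 _ (by positivity) (by positivity)
          exact mul_le_mul_of_nonneg_left e2 (by positivity)
      _ = _ := by rw [hkap']; ring
  -- the exceptional prefixes
  obtain ⟨V, hV⟩ : ∃ V, V = ⌈v0⌉₊ + 1 := ⟨_, rfl⟩
  have hV1 : (1 : ℝ) ≤ V := by rw [hV]; push_cast; have : (0 : ℝ) ≤ ⌈v0⌉₊ := Nat.cast_nonneg _; linarith
  have hVv : v0 ≤ V := by rw [hV]; push_cast; have := Nat.le_ceil v0; linarith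
  set Bad : ℕ → Finset ℕ := fun j => ((Finset.Icc 1 (V * b ^ A (j + 1))).filter
    (fun k => k ∈ (P (idx (j + 1)) + 1).smoothNumbers)).image (fun k => q j * k) with hBad
  have hpb : ∀ k, (P k + 1).primesBelow.card = k + 1 := by
    intro k
    rw [Nat.primesBelow_card_eq_primeCounting', Nat.primeCounting', Nat.count_succ, if_pos (P_prime k)]
    unfold P
    rw [Nat.count_nth_of_infinite Nat.infinite_setOfPred_prime]
  have hcard : ∀ j, ((Bad j).card : ℝ) * ((b : ℝ) ^ S.kap (j + 1))⁻¹ ≤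
      ((V : ℝ) ^ σ * (b : ℝ) ^ Sv1 b D (idx 0)) * (((b : ℝ) ^ (2 * σ))⁻¹) ^ (j + 1) := by
    intro j
    set k := idx (j + 1) with hk
    have hkj : j + 1 + j0 ≤ k := hidxge (j + 1)
    have h1 : ((Bad j).card : ℝ) ≤ ((V * b ^ A (j + 1) : ℕ) : ℝ) ^ σ * c ^ (k + 1) := by
      have h2 : (Bad j).card ≤ _ := Finset.card_image_le
      have h3 := smooth_count hσ0 (P k + 1) (V * b ^ A (j + 1))
      rw [hpb, ← hc] at h3
      exact le_trans (by exact_mod_cast h2) h3
    have h2 : ((V * b ^ A (j + 1) : ℕ) : ℝ) ^ σ ≤ (V : ℝ) ^ σ * ((b : ℝ) ^ P k) ^ σ := by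
      push_cast
      rw [Real.mul_rpow (by positivity) (by positivity)]
      apply mul_le_mul_of_nonneg_left _ (by positivity)
      apply Real.rpow_le_rpow (by positivity) _ hσ0.le
      exact pow_le_pow_right₀ hb1.le (hAB (j + 1))
    have h3 : c ^ (k + 1) ≤ ((b : ℝ) ^ P k) ^ σ := by
      have h4 := hN1 k (by omega)
      have hPk : (0 : ℝ) < P k := by exact_mod_cast (P_prime k).pos
      rw [div_lt_div_iff₀ hPk hlc] at h4
      have h5 : Real.log (c ^ (k + 1)) ≤ Real.log (((b : ℝ) ^ P k) ^ σ) := by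
        rw [Real.log_pow, Real.log_rpow (by positivity), Real.log_pow]
        push_cast
        linarith
      exact (Real.log_le_log_iff (by positivity) (by positivity)).1 h5
    have h4 := hpk (j + 1)
    rw [← hk] at h4
    have hks : ((b : ℝ) ^ P k) ^ s = (((b : ℝ) ^ P k) ^ σ * ((b : ℝ) ^ P k) ^ σ) *
        ((b : ℝ) ^ P k) ^ (2 * σ) := by
      rw [← Real.rpow_add (by positivity), ← Real.rpow_add (by positivity)]
      congr 1
      rw [hσ]; ring
    have h5 : (((b : ℝ) ^ (2 * σ))) ^ (j + 1) ≤ ((b : ℝ) ^ P k) ^ (2 * σ) := by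
      rw [← Real.rpow_natCast ((b : ℝ) ^ (2 * σ)) (j + 1), ← Real.rpow_mul hb0.le,
        ← Real.rpow_natCast (b : ℝ) (P k), ← Real.rpow_mul hb0.le]
      apply Real.rpow_le_rpow_of_exponent_le hb1.le
      have h6 : ((j + 1 : ℕ) : ℝ) ≤ P k := by
        have := le_P k
        exact_mod_cast (by omega : j + 1 ≤ P k)
      nlinarith
    have hkp : (0 : ℝ) < (b : ℝ) ^ S.kap (j + 1) := by positivity
    have hbp : (0 : ℝ) < ((b : ℝ) ^ (2 * σ)) ^ (j + 1) := by positivity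
    rw [inv_pow, ← div_eq_mul_inv, ← div_eq_mul_inv, div_le_div_iff₀ hkp hbp]
    have hX : (0 : ℝ) ≤ ((b : ℝ) ^ P k) ^ σ := by positivity
    have h1' : ((Bad j).card : ℝ) ≤ (V : ℝ) ^ σ * (((b : ℝ) ^ P k) ^ σ * ((b : ℝ) ^ P k) ^ σ) := by
      refine h1.trans ?_
      calc _ ≤ ((V : ℝ) ^ σ * ((b : ℝ) ^ P k) ^ σ) * ((b : ℝ) ^ P k) ^ σ :=
            mul_le_mul h2 h3 (by positivity) (by positivity)
        _ = _ := by ring
    calc ((Bad j).card : ℝ) * ((b : ℝ) ^ (2 * σ)) ^ (j + 1) ≤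
        ((V : ℝ) ^ σ * (((b : ℝ) ^ P k) ^ σ * ((b : ℝ) ^ P k) ^ σ)) * ((b : ℝ) ^ P k) ^ (2 * σ) :=
          mul_le_mul h1' h5 (by positivity) (by positivity)
      _ = (V : ℝ) ^ σ * ((b : ℝ) ^ P k) ^ s := by rw [hks]; ring
      _ ≤ (V : ℝ) ^ σ * ((b : ℝ) ^ Sv1 b D (idx 0) * (b : ℝ) ^ S.kap (j + 1)) :=
          mul_le_mul_of_nonneg_left h4 (by positivity)
      _ = _ := by ring
  -- Borel-Cantelli
  have hr1 : ((b : ℝ) ^ (2 * σ))⁻¹ < 1 := by
    apply inv_lt_one_of_one_lt₀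
    exact Real.one_lt_rpow hb1 (by linarith)
  have hr0 : (0 : ℝ) ≤ ((b : ℝ) ^ (2 * σ))⁻¹ := by positivity
  have hsumm : Summable (fun j : ℕ => ((V : ℝ) ^ σ * (b : ℝ) ^ Sv1 b D (idx 0)) *
      (((b : ℝ) ^ (2 * σ))⁻¹) ^ (j + 1)) := by
    refine Summable.mul_left _ ?_
    exact (summable_nat_add_iff 1).2 (summable_geometric_of_lt_one hr0 hr1)
  have hBC : volume {t : ℝ | ∃ᶠ j : ℕ in atTop, t ∈ Ico (0 : ℝ) 1 ∧ S.PP t (j + 1) ∈ Bad j} = 0 := by
    refine measure_setOfPred_frequently_eq_zero ?_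
    have h1 : ∀ j : ℕ, volume {t : ℝ | t ∈ Ico (0 : ℝ) 1 ∧ S.PP t (j + 1) ∈ Bad j} ≤
        ENNReal.ofReal (((V : ℝ) ^ σ * (b : ℝ) ^ Sv1 b D (idx 0)) *
          (((b : ℝ) ^ (2 * σ))⁻¹) ^ (j + 1)) := fun j =>
      (S.vol_le hb (j + 1) (Bad j)).trans (ENNReal.ofReal_le_ofReal (hcard j))
    refine ne_top_of_le_ne_top ?_ (ENNReal.tsum_le_tsum h1)
    rw [← ENNReal.ofReal_tsum_of_nonneg (fun j => by positivity) hsumm]
    exact ENNReal.ofReal_ne_top
  set T : Set ℝ := Ico (0 : ℝ) 1 \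
    {t : ℝ | ∃ᶠ j : ℕ in atTop, t ∈ Ico (0 : ℝ) 1 ∧ S.PP t (j + 1) ∈ Bad j} with hT
  have hTv : volume T ≠ 0 := by
    rw [hT, measure_sdiff_null hBC, Real.volume_Ico]
    simp
  have hdim := S.dim' hb hs hs1 (by positivity) hkt hH (T := T) Set.sdiff_subset hTv
  refine hdim.trans (dimH_mono ?_)
  rintro _ ⟨t, ⟨ht, htf⟩, rfl⟩
  -- the position
  have hU : S.lim t ∈ Set.Ioo u0 v0 := by
    have h1 := S.lim_gt hb t 0
    have h2 := S.lim_le hb t 0
    have e : S.y t 0 = (m0 : ℝ) / (b : ℝ) ^ B0 := by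
      show (m0 : ℝ) / (b : ℝ) ^ A 0 = _
      rw [hA0]
    have h2' : S.lim t ≤ S.y t 0 + 1 / (b : ℝ) ^ P (idx 0) := h2
    rw [e] at h1 h2'
    constructor
    · linarith
    · have : (m0 : ℝ) / (b : ℝ) ^ B0 + 1 / (b : ℝ) ^ B0 = ((m0 : ℝ) + 1) / (b : ℝ) ^ B0 := by ring
      linarith
  refine ⟨hU, ?_⟩
  -- finitely many exceptional stages
  have hfin : ∀ᶠ j : ℕ in atTop, S.PP t (j + 1) ∉ Bad j := by
    have : ¬ ∃ᶠ j : ℕ in atTop, t ∈ Ico (0 : ℝ) 1 ∧ S.PP t (j + 1) ∈ Bad j := htf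
    rw [not_frequently] at this
    exact this.mono fun j hj h => hj ⟨ht, h⟩
  obtain ⟨J, hJ⟩ := eventually_atTop.1 hfin
  rw [eventually_atTop]
  refine ⟨P (idx J + 1), fun p hp1 hp hW => ?_⟩
  obtain ⟨k, rfl⟩ := P_surj hp
  have hk : idx J + 1 ≤ k := P_mono.le_iff_le.1 hp1
  have hex : ∃ j, k ≤ idx (j + 1) := ⟨k, by have := hidxge (k + 1); omega⟩
  obtain ⟨j, hj⟩ : ∃ j, j = Nat.find hex := ⟨_, rfl⟩
  have hj1 : k ≤ idx (j + 1) := hj ▸ Nat.find_spec hex
  have hj2 : idx j < k := by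
    cases j with
    | zero =>
      have : idx 0 ≤ idx J := hidxm.monotone (Nat.zero_le _)
      omega
    | succ i =>
      have := Nat.find_min hex (m := i) (by omega)
      omega
  have hJj : J ≤ j := by
    by_contra hc
    have : idx (j + 1) ≤ idx J := hidxm.monotone (by omega)
    omega
  obtain ⟨qQ1, _, qQ3⟩ := S.PP_Q hb t (j + 1)
  have h1 : ((S.PP t (j + 1) : ℕ) : ℝ) / (b : ℝ) ^ A (j + 1) < S.lim t := S.lim_gt hb t (j + 1)
  have h2 : S.lim t ≤ ((S.PP t (j + 1) : ℕ) : ℝ) / (b : ℝ) ^ A (j + 1) +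
      1 / (b : ℝ) ^ P (idx (j + 1)) := S.lim_le hb t (j + 1)
  have hd : q j ∣ S.PP t (j + 1) := qQ3 j rfl
  have hpq : P k < q j := (P_mono.monotone hj1).trans_lt (hq1 j)
  have hbk : b ≤ P k := by
    have e1 := le_P k
    have e2 := hidxge 0
    have e3 := hidxm.monotone (Nat.zero_le j)
    omega
  rw [WB_run (by omega) (by omega) h1 h2 (by rw [hAs]; exact P_mono.monotone hj2)
    (P_mono.monotone hj1) hbk] at hW
  obtain ⟨l, hl1, hl2⟩ := smooth_of_prime (by omega) (hqp j) hpq (P_mono.monotone hj1) hd hW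
  apply hJ j hJj
  rw [hBad, Finset.mem_image]
  refine ⟨l, ?_, hl1.symm⟩
  rw [Finset.mem_filter, Finset.mem_Icc]
  refine ⟨⟨?_, ?_⟩, hl2⟩
  · have := (Nat.mem_smoothNumbers.1 hl2).1
    omega
  · have h3 : l ≤ S.PP t (j + 1) := by
      rw [hl1]
      exact Nat.le_mul_of_pos_left _ (hqp j).pos
    have h4 : ((S.PP t (j + 1) : ℕ) : ℝ) ≤ ((V * b ^ A (j + 1) : ℕ) : ℝ) := by
      have hpA : (0 : ℝ) < (b : ℝ) ^ A (j + 1) := by positivity
      rw [div_lt_iff₀ hpA] at h1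
      push_cast
      have := hU.2
      nlinarith
    have h5 : S.PP t (j + 1) ≤ V * b ^ A (j + 1) := by exact_mod_cast h4
    omega

end Pool.Agent.Helper76x.EX.Few
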