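import Pool.Agent.Helper76x.EX.FewPnt
import Pool.Agent.H361R2.PP.Cor7

/-! Project EX (helper76): the digits saved, from the positive proportion of large gaps. -/

set_option autoImplicit false

namespace Pool.Agent.Helper76x.EX.Few

open Finset Filter Topology

open Classical in
theorem H_gap {b : ℕ} (hb : 2 ≤ b) : ∃ s : ℝ, 0 < s ∧ H b s := by
  have hl : 0 < Real.log b := Real.log_pos (by exact_mod_cast (by omega : 1 < b))
  obtain ⟨c, hc, N₀, hgp⟩ := Pool.Agent.H361R2.PP.large_gaps (5 / Real.log b + 1)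
  refine ⟨c / 64, by positivity, fun D => ?_⟩
  have hL : Tendsto (fun j : ℕ => Real.log (P j)) atTop atTop :=
    Real.tendsto_log_atTop.comp P_tendsto
  have hlog : Tendsto (fun j : ℕ => Real.log (j : ℝ)) atTop atTop :=
    Real.tendsto_log_atTop.comp tendsto_natCast_atTop_atTop
  have hlog1 : Tendsto (fun j : ℕ => Real.log ((j : ℝ) + 1)) atTop atTop :=
    Real.tendsto_log_atTop.comp (tendsto_natCast_atTop_atTop.atTop_add tendsto_const_nhds)
  -- the gaps
  obtain ⟨J1, hJ10, hJ1⟩ := Pool.Agent.H361R2.PP.ratio_ev 1 one_pos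
  obtain ⟨J2, hJ2⟩ := eventually_atTop.1
    (hlog1.eventually_ge_atTop (2 * Real.log D + 3 * Real.log b))
  have hsv : ∀ i, J1 + J2 ≤ i → 5 / Real.log b + 1 ≤ Pool.Agent.H361R2.PP.gp (i + 1) →
      Real.log ((i : ℝ) + 1) ≤ sv b D i := by
    intro i hi hgi
    obtain ⟨h1, h2, h3⟩ := hJ1 i (by omega)
    have h4 := hJ2 i (by omega)
    have h5 : Real.log (P i) ≤ 2 * Real.log ((i : ℝ) + 1) := by
      have h6 := (abs_le.1 h1).2
      have h7 : Real.log (P i) / Real.log ((i : ℝ) + 1) ≤ 2 := by
        change Real.log (P i) / Real.log ((i : ℝ) + 1) - 1 ≤ 1 at h6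
        linarith
      rwa [div_le_iff₀ h3] at h7
    have h6 := clog_le' hb D i
    have h7 : (5 / Real.log b + 1) * Real.log ((i : ℝ) + 1) ≤ (P (i + 1) : ℝ) - P i := by
      unfold Pool.Agent.H361R2.PP.gp at hgi
      rw [Nat.add_sub_cancel] at hgi
      push_cast at hgi
      rw [le_div_iff₀ h3] at hgi
      exact hgi
    have h8 : (2 : ℝ) * Nat.clog b (D * P i) + 1 ≤ 5 / Real.log b * Real.log ((i : ℝ) + 1) := by
      have h9 : 2 * ((Real.log D + Real.log (P i)) / Real.log b + 1) + 1 ≤
          5 / Real.log b * Real.log ((i : ℝ) + 1) := by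
        rw [div_mul_eq_mul_div, le_div_iff₀ hl]
        have e : (2 * ((Real.log D + Real.log (P i)) / Real.log b + 1) + 1) * Real.log b =
            2 * (Real.log D + Real.log (P i)) + 3 * Real.log b := by
          field_simp
          ring
        rw [e]
        linarith
      linarith
    have h9 : (P (i + 1) : ℝ) ≤ P i + (sv b D i + (2 * Nat.clog b (D * P i) + 1)) := by
      have : P (i + 1) ≤ P i + (sv b D i + (2 * Nat.clog b (D * P i) + 1)) := by
        unfold sv; omega
      exact_mod_cast this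
    nlinarith
  -- the size of the primes
  obtain ⟨J3, hJ3⟩ := eventually_atTop.1 (P_ratio.eventually (lt_mem_nhds
    (show (1 / 2 : ℝ) < 1 by norm_num)))
  obtain ⟨J4, hJ4⟩ := eventually_atTop.1 (hlog.eventually_ge_atTop
    (2 * |Real.log (c / 2)| + 1))
  obtain ⟨M, hM⟩ := exists_nat_ge (2 * ((J1 : ℝ) + J2 + 2) / c)
  refine ⟨N₀ + J1 + J3 + J4 + M + 2, fun k hk => ?_⟩
  have hk0 : (2 : ℝ) ≤ k := by exact_mod_cast (by omega : 2 ≤ k)
  have hMk : (M : ℝ) ≤ k := by exact_mod_cast (by omega : M ≤ k)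
  have hck : (J1 : ℝ) + J2 + 2 ≤ c / 2 * k := by
    have := hM.trans hMk
    rw [div_le_iff₀ hc] at this
    linarith
  have hlk := hJ4 k (by omega)
  have hlk0 : 0 < Real.log k := by have := abs_nonneg (Real.log (c / 2)); linarith
  -- upper bound of the prime
  have hup : (P k : ℝ) ≤ 16 * (k * Real.log k) := by
    have h1 := hJ3 k (by omega)
    have hP : (0 : ℝ) < P k := by exact_mod_cast (P_prime k).pos
    rw [lt_div_iff₀ hP] at h1
    obtain ⟨h2, h3, h4⟩ := hJ1 k (by omega)
    have h5 : Real.log (P k) ≤ 2 * Real.log ((k : ℝ) + 1) := by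
      have h6 := (abs_le.1 h2).2
      have h7 : Real.log (P k) / Real.log ((k : ℝ) + 1) ≤ 2 := by
        change Real.log (P k) / Real.log ((k : ℝ) + 1) - 1 ≤ 1 at h6
        linarith
      rwa [div_le_iff₀ h4] at h7
    have h6 : Real.log ((k : ℝ) + 1) ≤ 2 * Real.log k := by
      have : Real.log ((k : ℝ) + 1) ≤ Real.log ((k : ℝ) ^ 2) :=
        Real.log_le_log (by linarith) (by nlinarith)
      rw [Real.log_pow] at this
      exact_mod_cast this
    have h7 : ((k : ℝ) + 1) * Real.log (P k) ≤ (2 * k) * (4 * Real.log k) := by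
      apply mul_le_mul (by linarith) (by linarith) _ (by linarith)
      exact Real.log_natCast_nonneg _
    nlinarith
  -- lower bound of the number of digits saved
  have hcard := hgp k (by omega)
  set A := (Icc 2 k).filter (fun n => 5 / Real.log b + 1 ≤ Pool.Agent.H361R2.PP.gp n) with hA
  set A' := A.filter (fun n : ℕ => c / 2 * k < (n : ℝ)) with hA'
  have hcard' : c / 2 * k ≤ (A'.card : ℝ) := by
    have h1 : A.card ≤ A'.card + (Icc 1 ⌊c / 2 * k⌋₊).card := by
      have : A ⊆ A' ∪ Icc 1 ⌊c / 2 * k⌋₊ := by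
        intro n hn
        rw [mem_union]
        by_cases h : c / 2 * k < n
        · left; rw [hA', mem_filter]; exact ⟨hn, h⟩
        · right
          rw [hA, mem_filter, mem_Icc] at hn
          rw [mem_Icc]
          exact ⟨by omega, Nat.le_floor (not_lt.1 h)⟩
      exact (card_le_card this).trans (card_union_le _ _)
    rw [Nat.card_Icc, Nat.add_sub_cancel] at h1
    have h2 : (A.card : ℝ) ≤ A'.card + ⌊c / 2 * k⌋₊ := by exact_mod_cast h1
    have h3 := Nat.floor_le (show 0 ≤ c / 2 * k by positivity)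
    linarith
  have hsum : (A'.card : ℝ) * (Real.log k / 2) ≤ Sv b D k := by
    have h1 : ∑ n ∈ A', (sv b D (n - 1) : ℝ) ≤ Sv b D k := by
      have h2 : ∑ n ∈ A', (sv b D (n - 1) : ℝ) = ∑ i ∈ A'.image (fun n => n - 1), (sv b D i : ℝ) := by
        rw [sum_image]
        intro n hn m hm hnm
        rw [mem_coe, hA', mem_filter, hA, mem_filter, mem_Icc] at hn hm
        simp only at hnm
        omega
      rw [h2]
      unfold Sv
      push_cast
      apply sum_le_sum_of_subset_of_nonneg
      · intro i hi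
        rw [mem_image] at hi
        obtain ⟨n, hn, rfl⟩ := hi
        rw [hA', mem_filter, hA, mem_filter, mem_Icc] at hn
        rw [mem_range]
        omega
      · intro i _ _
        exact Nat.cast_nonneg _
    refine le_trans ?_ h1
    rw [← nsmul_eq_mul]
    apply card_nsmul_le_sum
    intro n hn
    rw [hA', mem_filter, hA, mem_filter, mem_Icc] at hn
    obtain ⟨⟨⟨hn1, hn2⟩, hn3⟩, hn4⟩ := hn
    obtain ⟨i, rfl⟩ : ∃ i, n = i + 1 := ⟨n - 1, by omega⟩
    have hi : J1 + J2 ≤ i := by
      have h2 : ((J1 + J2 + 2 : ℕ) : ℝ) < ((i + 1 : ℕ) : ℝ) := by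
        push_cast at hn4 ⊢
        linarith
      have : J1 + J2 + 2 < i + 1 := by exact_mod_cast h2
      omega
    have h2 := hsv i hi hn3
    rw [Nat.add_sub_cancel]
    refine le_trans ?_ h2
    have h3 : Real.log (c / 2 * k) ≤ Real.log ((i : ℝ) + 1) := by
      apply Real.log_le_log (by positivity)
      push_cast at hn4
      linarith
    rw [Real.log_mul (by positivity) (by linarith)] at h3
    have h4 := neg_abs_le (Real.log (c / 2))
    linarith
  have h1 : c / 2 * k * (Real.log k / 2) ≤ A'.card * (Real.log k / 2) :=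
    mul_le_mul_of_nonneg_right hcard' (by linarith)
  have h2 : c / 64 * (P k : ℝ) ≤ c / 64 * (16 * (k * Real.log k)) :=
    mul_le_mul_of_nonneg_left hup (by positivity)
  calc c / 64 * (P k : ℝ) ≤ c / 64 * (16 * (k * Real.log k)) := h2
    _ = c / 2 * k * (Real.log k / 2) := by ring
    _ ≤ A'.card * (Real.log k / 2) := h1
    _ ≤ _ := hsum

end Pool.Agent.Helper76x.EX.Few
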