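import Pool.Agent.Helper76x.EX.Few
import Pool.Agent.Helper923.PNT

/-! Project EX (helper76): the digits saved, from the prime number theorem. -/

set_option autoImplicit false

namespace Pool.Agent.Helper76x.EX.Few

open Finset Filter Topology

theorem P_tendsto : Tendsto (fun j : ℕ => (P j : ℝ)) atTop atTop :=
  tendsto_natCast_atTop_atTop.comp P_mono.tendsto_atTop

theorem P_ratio : Tendsto (fun j : ℕ => ((j : ℝ) + 1) * Real.log (P j) / P j) atTop (𝓝 1) := by
  have h1 := Pool.Agent.Helper923.PNT.pi_tendsto.comp P_tendsto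
  refine h1.congr fun j => ?_
  simp only [Function.comp_apply, Nat.floor_natCast]
  have h3 : Nat.primeCounting (P j) = j + 1 := by
    unfold P Nat.primeCounting Nat.primeCounting'
    rw [Nat.count_succ, Nat.count_nth_of_infinite Nat.infinite_setOfPred_prime,
      if_pos (Nat.prime_nth_prime j)]
  rw [h3]
  push_cast
  ring

theorem P_le_Sv (b D k : ℕ) : P k ≤ Sv b D k + P 0 + k * (2 * Nat.clog b (D * P k) + 1) := by
  induction k with
  | zero => omega
  | succ k ih =>
    have h1 : P (k + 1) - P k ≤ sv b D k + (2 * Nat.clog b (D * P k) + 1) := by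
      unfold sv; omega
    have h2 : Nat.clog b (D * P k) ≤ Nat.clog b (D * P (k + 1)) :=
      Nat.clog_mono_right _ (Nat.mul_le_mul_left _ (P_mono.monotone (Nat.le_succ k)))
    have h3 : k * (2 * Nat.clog b (D * P k) + 1) ≤ k * (2 * Nat.clog b (D * P (k + 1)) + 1) :=
      Nat.mul_le_mul_left _ (by omega)
    rw [Sv_succ, add_mul, one_mul]
    omega

theorem clog_le {b : ℕ} (hb : 2 ≤ b) (n : ℕ) :
    (Nat.clog b n : ℝ) ≤ Real.log n / Real.log b + 1 := by
  have hl : 0 < Real.log b := Real.log_pos (by exact_mod_cast (by omega : 1 < b))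
  have hln : 0 ≤ Real.log n := Real.log_natCast_nonneg n
  rcases Nat.eq_zero_or_pos (Nat.clog b n) with h | h
  · rw [h]
    push_cast
    positivity
  · have hn : 1 < n := by
      by_contra hc
      have : Nat.clog b n = 0 := Nat.clog_of_right_le_one (by omega) b
      omega
    have h2 := Nat.pow_pred_clog_lt_self (by omega : 1 < b) hn
    obtain ⟨c, hc⟩ := Nat.exists_eq_succ_of_ne_zero h.ne'
    rw [hc] at h2 ⊢
    rw [Nat.pred_succ] at h2
    have h3 : (b : ℝ) ^ c ≤ n := by exact_mod_cast h2.le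
    have h4 := Real.log_le_log (by positivity) h3
    rw [Real.log_pow] at h4
    push_cast
    have : (c : ℝ) ≤ Real.log n / Real.log b := by
      rw [le_div_iff₀ hl]; exact h4
    linarith

theorem clog_le' {b : ℕ} (hb : 2 ≤ b) (D k : ℕ) :
    (Nat.clog b (D * P k) : ℝ) ≤ (Real.log D + Real.log (P k)) / Real.log b + 1 := by
  have hl : 0 < Real.log b := Real.log_pos (by exact_mod_cast (by omega : 1 < b))
  refine (clog_le hb _).trans ?_
  have h1 : Real.log ((D * P k : ℕ) : ℝ) ≤ Real.log D + Real.log (P k) := by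
    rcases Nat.eq_zero_or_pos D with h | h
    · rw [h, zero_mul]
      simp only [Nat.cast_zero, Real.log_zero, zero_add]
      exact Real.log_natCast_nonneg _
    · push_cast
      rw [Real.log_mul (by exact_mod_cast h.ne') (by exact_mod_cast (P_prime k).ne_zero)]
  have := div_le_div_of_nonneg_right h1 hl.le
  linarith

theorem H_pnt {b : ℕ} (hb : 2 ≤ b) {s : ℝ} (hs : s < 1 - 2 / Real.log b) : H b s := by
  intro D
  have hl : 0 < Real.log b := Real.log_pos (by exact_mod_cast (by omega : 1 < b))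
  have hL : Tendsto (fun j : ℕ => Real.log (P j)) atTop atTop :=
    Real.tendsto_log_atTop.comp P_tendsto
  have hinv : Tendsto (fun j : ℕ => ((P j : ℝ))⁻¹) atTop (𝓝 0) := tendsto_inv_atTop_zero.comp P_tendsto
  have h0 : Tendsto (fun j : ℕ => Real.log (P j) / P j) atTop (𝓝 0) := by
    have h5 : Tendsto (fun x : ℝ => Real.log x / x) atTop (nhds 0) :=
      Real.isLittleO_log_id_atTop.tendsto_div_nhds_zero
    exact h5.comp P_tendsto
  have h1 : Tendsto (fun j : ℕ => (j : ℝ) * Real.log (P j) / P j) atTop (𝓝 1) := by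
    have := P_ratio.sub h0
    rw [sub_zero] at this
    refine this.congr fun j => ?_
    ring
  have h2 : Tendsto (fun j : ℕ => (j : ℝ) / P j) atTop (𝓝 0) := by
    have := h1.div_atTop hL
    refine this.congr' ?_
    filter_upwards [hL.eventually_gt_atTop 0] with j hj
    field_simp
  have h3 : Tendsto (fun j : ℕ => 1 - 2 * ((P j : ℝ))⁻¹ -
      (2 / Real.log b) * ((j : ℝ) * Real.log (P j) / P j) -
      (2 * Real.log D / Real.log b + 3) * ((j : ℝ) / P j)) atTop (𝓝 (1 - 2 * 0 -
        (2 / Real.log b) * 1 - (2 * Real.log D / Real.log b + 3) * 0)) :=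
    ((tendsto_const_nhds.sub (hinv.const_mul _)).sub (h1.const_mul _)).sub (h2.const_mul _)
  have h4 : s < 1 - 2 * 0 - (2 / Real.log b) * 1 - (2 * Real.log D / Real.log b + 3) * 0 := by
    simpa using hs
  obtain ⟨k0, hk0⟩ := eventually_atTop.1 (h3.eventually (lt_mem_nhds h4))
  refine ⟨k0, fun k hk => ?_⟩
  have h5 := hk0 k hk
  have hP : (0 : ℝ) < P k := by exact_mod_cast (P_prime k).pos
  have h6 : (P k : ℝ) ≤ Sv b D k + 2 + k * (2 * (Nat.clog b (D * P k) : ℝ) + 1) := by
    have := P_le_Sv b D k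
    have h0 : P 0 = 2 := Nat.nth_prime_zero_eq_two
    rw [h0] at this
    exact_mod_cast this
  have h7 := clog_le' hb D k
  have h8 : (k : ℝ) * (2 * (Nat.clog b (D * P k) : ℝ) + 1) ≤
      k * (2 * ((Real.log D + Real.log (P k)) / Real.log b + 1) + 1) := by
    apply mul_le_mul_of_nonneg_left _ (Nat.cast_nonneg _)
    linarith
  have h9 : (1 - 2 * ((P k : ℝ))⁻¹ - (2 / Real.log b) * ((k : ℝ) * Real.log (P k) / P k) -
      (2 * Real.log D / Real.log b + 3) * ((k : ℝ) / P k)) * P k =
      P k - 2 - k * (2 * ((Real.log D + Real.log (P k)) / Real.log b + 1) + 1) := by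
    field_simp
    ring
  have h10 := mul_le_mul_of_nonneg_right h5.le hP.le
  rw [h9] at h10
  linarith

end Pool.Agent.Helper76x.EX.Few
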