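import Pool.Agent.Helper76x.EX.Cnt

/-! Project EX (helper76): many primes with a prescribed prefix that is not too long. -/

set_option autoImplicit false

namespace Pool.Agent.Helper76x.EX

open Finset Filter

/-- the primes beyond `A` -/
def pb (A n : ℕ) : Prop := n.Prime ∧ A < n

instance (A : ℕ) : DecidablePred (pb A) := fun n => by unfold pb; infer_instance

theorem pb_infinite (A : ℕ) : (setOf (pb A)).Infinite := by
  rw [Set.infinite_iff_exists_gt]
  intro a
  obtain ⟨p, hp, hp'⟩ := Nat.exists_infinite_primes (max a A + 1)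
  exact ⟨p, ⟨hp', by have := le_max_right a A; omega⟩, by have := le_max_left a A; omega⟩

/-- the `i`-th prime beyond `A` -/
noncomputable def np (A i : ℕ) : ℕ := Nat.nth (pb A) i

theorem np_prime (A i : ℕ) : (np A i).Prime := (Nat.nth_mem_of_infinite (pb_infinite A) i).1

theorem np_gt (A i : ℕ) : A < np A i := (Nat.nth_mem_of_infinite (pb_infinite A) i).2

theorem np_gap (A : ℕ) {i i' : ℕ} (h : i ≤ i') : np A i + (i' - i) ≤ np A i' := by
  have hm := Nat.nth_strictMono (pb_infinite A)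
  induction i', h using Nat.le_induction with
  | base => simp
  | succ n hn ih =>
    have h1 : np A n < np A (n + 1) := hm (Nat.lt_succ_self n)
    omega

theorem np_lt {A y i : ℕ} (h : i + 1 < (prs A (A + y)).card) : np A i < A + y := by
  apply Nat.nth_lt_of_lt_count
  rw [Nat.count_eq_card_filter_range]
  change i < ((Finset.range (A + y)).filter (pb A)).card
  have h1 : prs A (A + y) ⊆ insert (A + y) ((Finset.range (A + y)).filter (pb A)) := by
    intro n hn
    unfold prs at hn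
    rw [mem_filter, mem_Ioc] at hn
    rw [mem_insert, mem_filter, mem_range]
    by_cases h : n = A + y
    · exact Or.inl h
    · exact Or.inr ⟨by omega, hn.2, hn.1.1⟩
  have h2 := (Finset.card_le_card h1).trans (Finset.card_insert_le _ _)
  omega

/-- exponential growth of the integer part -/
theorem ev_pow {b V : ℕ} (hb : 2 ≤ b) (hV : 0 < V) {η c : ℝ} (hη : 0 < η) :
    ∀ᶠ n : ℕ in atTop, 2 * (n : ℝ) + c ≤ η * ((b ^ (n / V) : ℕ) : ℝ) := by
  have hV0 : (0 : ℝ) < V := by exact_mod_cast hV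
  -- in terms of k = n / V
  have h1 : ∀ᶠ k : ℕ in atTop, 2 * (V * ((k : ℝ) + 1)) + c ≤ η * (2 : ℝ) ^ k := by
    have h2 : Tendsto (fun k : ℕ => (k : ℝ) / (2 : ℝ) ^ k) atTop (nhds 0) := by
      have := tendsto_pow_const_div_const_pow_of_one_lt 1 (show (1 : ℝ) < 2 by norm_num)
      simpa using this
    have h3 : Tendsto (fun k : ℕ => (1 : ℝ) / (2 : ℝ) ^ k) atTop (nhds 0) := by
      have := tendsto_pow_const_div_const_pow_of_one_lt 0 (show (1 : ℝ) < 2 by norm_num)
      simpa using this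
    have h4 : Tendsto (fun k : ℕ => 2 * V * ((k : ℝ) / (2 : ℝ) ^ k) +
        (2 * V + c) * (1 / (2 : ℝ) ^ k)) atTop (nhds (2 * V * 0 + (2 * V + c) * 0)) :=
      (h2.const_mul _).add (h3.const_mul _)
    rw [mul_zero, mul_zero, add_zero] at h4
    filter_upwards [h4.eventually (gt_mem_nhds hη)] with k hk
    have hp : (0 : ℝ) < (2 : ℝ) ^ k := by positivity
    have h5 : 2 * V * ((k : ℝ) / (2 : ℝ) ^ k) + (2 * V + c) * (1 / (2 : ℝ) ^ k) =
        (2 * (V * ((k : ℝ) + 1)) + c) / (2 : ℝ) ^ k := by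
      field_simp
      ring
    rw [h5, div_lt_iff₀ hp] at hk
    exact hk.le
  have h6 : Tendsto (fun n : ℕ => n / V) atTop atTop := Nat.tendsto_div_const_atTop hV.ne'
  filter_upwards [h6.eventually h1] with n hn
  have h7 : (n : ℝ) ≤ V * (((n / V : ℕ) : ℝ) + 1) := by
    have : n ≤ V * (n / V + 1) := (Nat.lt_mul_div_succ n hV).le
    exact_mod_cast this
  have h8 : (2 : ℝ) ^ (n / V) ≤ ((b ^ (n / V) : ℕ) : ℝ) := by
    push_cast
    exact pow_le_pow_left₀ (by norm_num) (by exact_mod_cast hb) _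
  calc 2 * (n : ℝ) + c ≤ 2 * (V * (((n / V : ℕ) : ℝ) + 1)) + c := by linarith
    _ ≤ η * (2 : ℝ) ^ (n / V) := hn
    _ ≤ _ := mul_le_mul_of_nonneg_left h8 hη.le

theorem window {b V : ℕ} (hb : 2 ≤ b) (hV : 0 < V) {lo hi : ℝ} (hlo : 0 < lo) (hhi : lo < hi) :
    ∀ᶠ n : ℕ in atTop, n + (n / V + 4) + 1 ≤ b ^ (n / V) ∧
      ∀ A : ℕ, lo * ((b : ℝ) ^ (b ^ (n / V))) ≤ A → A ≤ hi * ((b : ℝ) ^ (b ^ (n / V))) →
        ∀ i < b ^ (b ^ (n / V) - n - (n / V + 4)), np A i < A + b ^ (b ^ (n / V) - n) := by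
  obtain ⟨C, hC, hcard⟩ := card_lower (2 * V)
  have hb0 : (0 : ℝ) < b := by exact_mod_cast (by omega : 0 < b)
  have hb1 : (1 : ℝ) < b := by exact_mod_cast (by omega : 1 < b)
  have hb2 : (2 : ℝ) ≤ b := by exact_mod_cast hb
  have hlb : (0.69 : ℝ) < Real.log b := by
    have h1 := Real.log_two_gt_d9
    have h2 : Real.log 2 ≤ Real.log b := Real.log_le_log (by norm_num) hb2
    linarith
  have hlb' : Real.log b ≤ b - 1 := Real.log_le_sub_one_of_pos hb0
  have hhi0 : 0 < hi := by linarith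
  have hpow : Tendsto (fun n : ℕ => (b : ℝ) ^ n) atTop atTop := tendsto_pow_atTop_atTop_of_one_lt hb1
  have hexp : Tendsto (fun n : ℕ => ((b ^ (n / V) : ℕ) : ℝ)) atTop atTop := by
    have h6 : Tendsto (fun n : ℕ => n / V) atTop atTop := Nat.tendsto_div_const_atTop hV.ne'
    have := hpow.comp h6
    refine this.congr fun n => ?_
    simp [Function.comp]
  filter_upwards [ev_pow hb hV (η := 1) (c := 5) one_pos,
    hpow.eventually_ge_atTop (2 * C * (hi + 1) * 4 ^ V * (b : ℝ) ^ (2 * V)),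
    hexp.eventually_ge_atTop (max (-Real.log lo / 0.19) (Real.log (hi + 1))),
    hexp.eventually_ge_atTop 2, eventually_ge_atTop V]
    with n h1 h2 h3 h4 hnV
  obtain ⟨e, he⟩ : ∃ e, e = n / V := ⟨_, rfl⟩
  rw [← he] at h1 h3 h4 ⊢
  obtain ⟨a', ha'⟩ : ∃ a', a' = b ^ e := ⟨_, rfl⟩
  rw [← ha'] at h1 h3 h4 ⊢
  have hen : e ≤ n := by rw [he]; exact Nat.div_le_self _ _
  have hsize : n + (e + 4) + 1 ≤ a' := by
    have h5 : (2 * n + 5 : ℕ) ≤ a' := by
      have : ((2 * n + 5 : ℕ) : ℝ) ≤ a' := by push_cast; linarith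
      exact_mod_cast this
    omega
  refine ⟨hsize, fun A hA1 hA2 i hi' => ?_⟩
  apply np_lt
  obtain ⟨K, hK⟩ := Nat.exists_eq_add_of_le (show n + (e + 4) ≤ a' by omega)
  have hK1 : a' - n - (e + 4) = K := by omega
  have hK2 : a' - n = e + 4 + K := by omega
  rw [hK1] at hi'
  rw [hK2]
  set y := b ^ (e + 4 + K) with hy
  have hX : (0 : ℝ) < (b : ℝ) ^ a' := by positivity
  have hyX : (y : ℝ) = (b : ℝ) ^ a' / (b : ℝ) ^ n := by
    rw [hy, eq_div_iff (by positivity)]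
    push_cast
    rw [← pow_add]
    congr 1
    omega
  have hbn : (1 : ℝ) ≤ (b : ℝ) ^ n := one_le_pow₀ hb1.le
  have hyle : (y : ℝ) ≤ (b : ℝ) ^ a' := by
    rw [hyX]; exact div_le_self hX.le hbn
  have ha'0 : (0 : ℝ) < a' := by linarith
  -- log A
  have hA0 : (0 : ℝ) < A := lt_of_lt_of_le (by positivity) hA1
  have hlogA : (a' : ℝ) / 2 ≤ Real.log A := by
    have e1 : Real.log lo + a' * Real.log b ≤ Real.log A := by
      rw [← Real.log_pow, ← Real.log_mul hlo.ne' hX.ne']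
      exact Real.log_le_log (by positivity) hA1
    have e2 := (le_max_left _ _).trans h3
    rw [div_le_iff₀ (by norm_num)] at e2
    have e3 : (a' : ℝ) * 0.69 ≤ a' * Real.log b := mul_le_mul_of_nonneg_left hlb.le ha'0.le
    linarith
  have hA2' : 2 ≤ A := by
    by_contra hlt
    have : A = 1 ∨ A = 0 := by omega
    rcases this with h | h
    · rw [h] at hlogA; simp at hlogA; linarith
    · rw [h] at hA0; simp at hA0
  have key := hcard A (A + y) hA2' (by omega)
  -- error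
  have hAy : ((A + y : ℕ) : ℝ) ≤ (hi + 1) * (b : ℝ) ^ a' := by push_cast; nlinarith
  have hVe : (b : ℝ) ^ (2 * n) ≤ (a' : ℝ) ^ (2 * V) * (b : ℝ) ^ (2 * V) := by
    have e1 : (a' : ℝ) = (b : ℝ) ^ e := by rw [ha']; push_cast; rfl
    rw [e1, ← pow_mul, ← pow_add]
    apply pow_le_pow_right₀ hb1.le
    have : n ≤ V * (n / V + 1) := (Nat.lt_mul_div_succ n hV).le
    rw [← he] at this
    nlinarith
  have herr : C * (((A + y : ℕ) : ℝ) / Real.log A ^ (2 * V)) ≤ y / 2 := by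
    have hl0 : (0 : ℝ) < a' / 2 := by positivity
    have e1 : ((A + y : ℕ) : ℝ) / Real.log A ^ (2 * V) ≤
        (hi + 1) * (b : ℝ) ^ a' / (a' / 2 : ℝ) ^ (2 * V) := by
      apply div_le_div₀ (by positivity) hAy (by positivity)
      exact pow_le_pow_left₀ hl0.le hlogA _
    have e2 : (hi + 1) * (b : ℝ) ^ a' / (a' / 2 : ℝ) ^ (2 * V) ≤
        (b : ℝ) ^ a' / (b : ℝ) ^ n / (2 * C) := by
      rw [div_div, div_le_div_iff₀ (by positivity) (by positivity)]
      have e3 : (a' / 2 : ℝ) ^ (2 * V) * 4 ^ V = (a' : ℝ) ^ (2 * V) := by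
        rw [div_pow, pow_mul 2 2 V]
        norm_num
      have e4 : (hi + 1) * ((b : ℝ) ^ n * (2 * C)) ≤ (a' / 2 : ℝ) ^ (2 * V) := by
        have hq : (0 : ℝ) < 4 ^ V * (b : ℝ) ^ (2 * V) := by positivity
        rw [← mul_le_mul_iff_of_pos_right hq]
        calc (hi + 1) * ((b : ℝ) ^ n * (2 * C)) * (4 ^ V * (b : ℝ) ^ (2 * V))
            = (2 * C * (hi + 1) * 4 ^ V * (b : ℝ) ^ (2 * V)) * (b : ℝ) ^ n := by ring
          _ ≤ (b : ℝ) ^ n * (b : ℝ) ^ n := mul_le_mul_of_nonneg_right h2 (by positivity)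
          _ = (b : ℝ) ^ (2 * n) := by rw [two_mul, pow_add]
          _ ≤ (a' : ℝ) ^ (2 * V) * (b : ℝ) ^ (2 * V) := hVe
          _ = _ := by rw [← e3]; ring
      calc (hi + 1) * (b : ℝ) ^ a' * ((b : ℝ) ^ n * (2 * C))
          = (b : ℝ) ^ a' * ((hi + 1) * ((b : ℝ) ^ n * (2 * C))) := by ring
        _ ≤ (b : ℝ) ^ a' * (a' / 2 : ℝ) ^ (2 * V) := mul_le_mul_of_nonneg_left e4 hX.le
    calc C * (((A + y : ℕ) : ℝ) / Real.log A ^ (2 * V)) ≤
        C * ((b : ℝ) ^ a' / (b : ℝ) ^ n / (2 * C)) :=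
          mul_le_mul_of_nonneg_left (e1.trans e2) hC.le
      _ = y / 2 := by rw [hyX]; field_simp
  have hlogB : Real.log ((A + y : ℕ) : ℝ) ≤ b * a' := by
    have e1 : Real.log ((A + y : ℕ) : ℝ) ≤ Real.log (hi + 1) + a' * Real.log b := by
      rw [← Real.log_pow, ← Real.log_mul (by positivity) hX.ne']
      exact Real.log_le_log (by push_cast; positivity) hAy
    have e2 := (le_max_right _ _).trans h3
    have e3 : (a' : ℝ) * Real.log b ≤ a' * (b - 1) := mul_le_mul_of_nonneg_left hlb' ha'0.le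
    nlinarith
  have hc : (y : ℝ) / 2 ≤ (prs A (A + y)).card * (b * a') := by
    have e1 : (((A + y : ℕ) : ℝ) - A) = y := by push_cast; ring
    rw [e1] at key
    have e2 : ((prs A (A + y)).card : ℝ) * Real.log ((A + y : ℕ) : ℝ) ≤
        (prs A (A + y)).card * (b * a') := mul_le_mul_of_nonneg_left hlogB (Nat.cast_nonneg _)
    linarith
  have hfin : (b : ℝ) ^ K + 1 < (prs A (A + y)).card := by
    have e1 : (y : ℝ) = (b : ℝ) ^ K * (b : ℝ) ^ 3 * (b * a') := by
      rw [hy, ha']; push_cast; ring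
    have hba : (0 : ℝ) < b * a' := by positivity
    have e2 : (b : ℝ) ^ K * (b : ℝ) ^ 3 / 2 ≤ (prs A (A + y)).card := by
      rw [e1] at hc
      have : (b : ℝ) ^ K * (b : ℝ) ^ 3 / 2 * (b * a') ≤ (prs A (A + y)).card * (b * a') := by
        linarith
      exact le_of_mul_le_mul_right this hba
    have e3 : (8 : ℝ) ≤ (b : ℝ) ^ 3 := by
      calc (8 : ℝ) = 2 ^ 3 := by norm_num
        _ ≤ (b : ℝ) ^ 3 := pow_le_pow_left₀ (by norm_num) hb2 3
    have e4 : (1 : ℝ) ≤ (b : ℝ) ^ K := one_le_pow₀ hb1.le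
    nlinarith
  have hi'' : (i : ℝ) + 1 ≤ (b : ℝ) ^ K := by exact_mod_cast hi'
  have : ((i + 1 : ℕ) : ℝ) < (prs A (A + y)).card := by push_cast; linarith
  exact_mod_cast this

end Pool.Agent.Helper76x.EX
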