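import Pool.Agent.Helper76x.EX.Scheme
import Pool.Agent.Helper76x.EX.Win
import Pool.Agent.Helper76x.EX.Run

/-! Project EX (helper76): long runs of exponents on a set of large dimension. -/

set_option autoImplicit false

namespace Pool.Agent.Helper76x.EX

open Finset Filter Set

/-- level and position of the first free digit -/
noncomputable def lf (b V B0 : ℕ) (ε : ℝ) : ℕ → ℕ × ℕ
  | 0 => (B0, B0)
  | j + 1 => (b ^ ((lf b V B0 ε j).2 / V), b ^ ((lf b V B0 ε j).2 / V) +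
      ⌊ε * ((b ^ ((lf b V B0 ε j).2 / V) : ℕ) : ℝ)⌋₊)

/-- everything we need for large `n` -/
def Fine (b V : ℕ) (ε η lo hi : ℝ) (n : ℕ) : Prop :=
  (n + (n / V + 4) + 1 ≤ b ^ (n / V) ∧
    ∀ A : ℕ, lo * ((b : ℝ) ^ (b ^ (n / V))) ≤ A → A ≤ hi * ((b : ℝ) ^ (b ^ (n / V))) →
      ∀ i < b ^ (b ^ (n / V) - n - (n / V + 4)), np A i < A + b ^ (b ^ (n / V) - n)) ∧
  2 * (n : ℝ) + 8 ≤ η * ((b ^ (n / V) : ℕ) : ℝ) ∧
  2 * (n : ℝ) + 1 ≤ ε * ((b ^ (n / V) : ℕ) : ℝ) ∧
  b ≤ b ^ (n / V) ∧ n + 5 ≤ b ^ (n / V)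

theorem ev_fine {b V : ℕ} (hb : 2 ≤ b) (hV : 0 < V) {ε η lo hi : ℝ} (hε : 0 < ε) (hη : 0 < η)
    (hlo : 0 < lo) (hhi : lo < hi) : ∀ᶠ n : ℕ in atTop, Fine b V ε η lo hi n := by
  filter_upwards [window hb hV hlo hhi, ev_pow hb hV (c := 8) hη, ev_pow hb hV (c := 1) hε,
    eventually_ge_atTop V] with n h1 h2 h3 h4
  refine ⟨h1, h2, h3, ?_, ?_⟩
  · have : 1 ≤ n / V := (Nat.one_le_div_iff hV).2 h4
    calc b = b ^ 1 := (pow_one b).symm
      _ ≤ b ^ (n / V) := Nat.pow_le_pow_right (by omega) this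
  · refine le_trans ?_ h1.1
    have := Nat.zero_le (n / V)
    generalize n / V = e at *
    omega

section

variable {b V B0 m0 : ℕ} {ε η : ℝ}

theorem lf_ge (hf : ∀ n ≥ B0, n ≤ b ^ (n / V)) (j : ℕ) :
    B0 ≤ (lf b V B0 ε j).2 := by
  induction j with
  | zero => exact le_rfl
  | succ j ih =>
    have := hf _ ih
    show B0 ≤ b ^ ((lf b V B0 ε j).2 / V) + _
    omega

end

/-- the tree -/
noncomputable def runScheme {b V B0 m0 : ℕ} {ε η : ℝ} (hb : 2 ≤ b) (hm0 : 1 ≤ m0)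
    (hF : ∀ n ≥ B0, Fine b V ε η ((m0 : ℝ) / (b : ℝ) ^ B0) (((m0 : ℝ) + 1) / (b : ℝ) ^ B0) n) :
    Scheme b where
  lev j := (lf b V B0 ε j).1
  fr j := (lf b V B0 ε j).2
  K j := (lf b V B0 ε (j + 1)).1 - (lf b V B0 ε j).2 - ((lf b V B0 ε j).2 / V + 4)
  G _ := 1
  Q j m := B0 ≤ (lf b V B0 ε j).1 ∧ m0 * b ^ ((lf b V B0 ε j).1 - B0) ≤ m ∧
    m < (m0 + 1) * b ^ ((lf b V B0 ε j).1 - B0) ∧ (1 ≤ j → m.Prime)
  nx j m i := np (m * b ^ ((lf b V B0 ε (j + 1)).1 - (lf b V B0 ε j).1)) i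
  m0 := m0
  h0 := by
    refine ⟨le_rfl, ?_, ?_, fun h => absurd h (by norm_num)⟩
    · show m0 * b ^ (B0 - B0) ≤ m0
      simp
    · show m0 < (m0 + 1) * b ^ (B0 - B0)
      simp
  lf j := by
    cases j with
    | zero => exact le_rfl
    | succ j => exact Nat.le_add_right _ _
  fl j := by
    have h1 := lf_ge (ε := ε) (V := V) (B0 := B0) (b := b) (fun n hn => by have := (hF n hn).2.2.2.2; omega) j
    have h2 := (hF _ h1).2.2.2.2
    show (lf b V B0 ε j).2 ≤ b ^ ((lf b V B0 ε j).2 / V)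
    omega
  nxQ j m i hQ hi := by
    have h1 := lf_ge (ε := ε) (V := V) (B0 := B0) (b := b) (fun n hn => by have := (hF n hn).2.2.2.2; omega) j
    have h2 := (hF _ h1).1
    have h25 := (hF _ h1).2.2.2.2
    have h3 : (lf b V B0 ε j).1 ≤ (lf b V B0 ε j).2 := by
      cases j with
      | zero => exact le_rfl
      | succ j => exact Nat.le_add_right _ _
    obtain ⟨q1, q2, q3, _⟩ := hQ
    set l := (lf b V B0 ε j).1 with hl
    set n := (lf b V B0 ε j).2 with hn
    have hl' : (lf b V B0 ε (j + 1)).1 = b ^ (n / V) := rfl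
    rw [hl'] at hi ⊢
    have e1 : l ≤ b ^ (n / V) := by omega
    obtain ⟨d, hd⟩ := Nat.exists_eq_add_of_le e1
    obtain ⟨c, hc⟩ := Nat.exists_eq_add_of_le q1
    have e2 : b ^ (n / V) - l = d := by omega
    have e3 : b ^ (n / V) - B0 = c + d := by omega
    have e4 : l - B0 = c := by omega
    rw [e4] at q2 q3
    have hbp : (0 : ℝ) < b := by exact_mod_cast (by omega : 0 < b)
    have hbd : 0 < b ^ d := pow_pos (by omega) d
    have hA1 : m0 * b ^ (c + d) ≤ m * b ^ d := by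
      rw [pow_add, ← mul_assoc]; exact Nat.mul_le_mul_right _ q2
    have hA2 : (m + 1) * b ^ d ≤ (m0 + 1) * b ^ (c + d) := by
      rw [pow_add, ← mul_assoc]; exact Nat.mul_le_mul_right _ q3
    refine ⟨by omega, ?_, ?_, fun _ => np_prime _ _⟩
    · rw [e3, e2]
      exact hA1.trans (np_gt _ _).le
    · rw [e3, e2]
      have hup := h2.2 (m * b ^ d) ?_ ?_ i hi
      · refine hup.trans_le ?_
        have : b ^ (b ^ (n / V) - n) ≤ b ^ d := Nat.pow_le_pow_right (by omega) (by omega)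
        calc m * b ^ d + b ^ (b ^ (n / V) - n) ≤ m * b ^ d + b ^ d := by omega
          _ = (m + 1) * b ^ d := by ring
          _ ≤ _ := hA2
      · have : ((m0 * b ^ (c + d) : ℕ) : ℝ) ≤ ((m * b ^ d : ℕ) : ℝ) := by exact_mod_cast hA1
        refine le_trans (le_of_eq ?_) this
        rw [hd, hc]
        push_cast
        rw [pow_add, pow_add, pow_add]
        field_simp
      · have h5 : m * b ^ d ≤ (m0 + 1) * b ^ (c + d) := by
          refine le_trans ?_ hA2
          exact Nat.mul_le_mul_right _ (by omega)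
        have : ((m * b ^ d : ℕ) : ℝ) ≤ (((m0 + 1) * b ^ (c + d) : ℕ) : ℝ) := by exact_mod_cast h5
        refine le_trans this (le_of_eq ?_)
        rw [hd, hc]
        push_cast
        rw [pow_add, pow_add, pow_add]
        field_simp
  lo j m i _ _ := np_gt _ _
  up j m i hQ hi := by
    have h1 := lf_ge (ε := ε) (V := V) (B0 := B0) (b := b) (fun n hn => by have := (hF n hn).2.2.2.2; omega) j
    have h2 := (hF _ h1).1
    have h25 := (hF _ h1).2.2.2.2
    have h3 : (lf b V B0 ε j).1 ≤ (lf b V B0 ε j).2 := by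
      cases j with
      | zero => exact le_rfl
      | succ j => exact Nat.le_add_right _ _
    obtain ⟨q1, q2, q3, _⟩ := hQ
    set l := (lf b V B0 ε j).1 with hl
    set n := (lf b V B0 ε j).2 with hn
    have hl' : (lf b V B0 ε (j + 1)).1 = b ^ (n / V) := rfl
    rw [hl'] at hi ⊢
    have e1 : l ≤ b ^ (n / V) := by omega
    obtain ⟨d, hd⟩ := Nat.exists_eq_add_of_le e1
    obtain ⟨c, hc⟩ := Nat.exists_eq_add_of_le q1
    have e2 : b ^ (n / V) - l = d := by omega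
    have e4 : l - B0 = c := by omega
    rw [e4] at q2 q3
    rw [e2]
    have hbp : (0 : ℝ) < b := by exact_mod_cast (by omega : 0 < b)
    have hA1 : m0 * b ^ (c + d) ≤ m * b ^ d := by
      rw [pow_add, ← mul_assoc]; exact Nat.mul_le_mul_right _ q2
    have hA2 : (m + 1) * b ^ d ≤ (m0 + 1) * b ^ (c + d) := by
      rw [pow_add, ← mul_assoc]; exact Nat.mul_le_mul_right _ q3
    apply h2.2 (m * b ^ d) _ _ i hi
    · have : ((m0 * b ^ (c + d) : ℕ) : ℝ) ≤ ((m * b ^ d : ℕ) : ℝ) := by exact_mod_cast hA1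
      refine le_trans (le_of_eq ?_) this
      rw [hd, hc]
      push_cast
      rw [pow_add, pow_add, pow_add]
      field_simp
    · have h5 : m * b ^ d ≤ (m0 + 1) * b ^ (c + d) := by
        refine le_trans ?_ hA2
        exact Nat.mul_le_mul_right _ (by omega)
      have : ((m * b ^ d : ℕ) : ℝ) ≤ (((m0 + 1) * b ^ (c + d) : ℕ) : ℝ) := by exact_mod_cast h5
      refine le_trans this (le_of_eq ?_)
      rw [hd, hc]
      push_cast
      rw [pow_add, pow_add, pow_add]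
      field_simp
  gap j m i i' _ h _ := by
    rw [one_mul]
    exact np_gap _ h.le
  hG j := by
    have h1 := lf_ge (ε := ε) (V := V) (B0 := B0) (b := b) (fun n hn => by have := (hF n hn).2.2.2.2; omega) j
    have h2 := (hF _ h1).2.2.1
    set n := (lf b V B0 ε j).2 with hn
    have hl' : (lf b V B0 ε (j + 1)).1 = b ^ (n / V) := rfl
    have hr' : (lf b V B0 ε (j + 1)).2 = b ^ (n / V) + ⌊ε * ((b ^ (n / V) : ℕ) : ℝ)⌋₊ := rfl
    rw [hl', hr', one_mul, pow_add, mul_comm 2]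
    apply Nat.mul_le_mul_left
    have h3 : 1 ≤ ⌊ε * ((b ^ (n / V) : ℕ) : ℝ)⌋₊ := by
      rw [Nat.one_le_floor_iff]
      have : (0 : ℝ) ≤ n := Nat.cast_nonneg _
      linarith
    calc 2 ≤ b := hb
      _ = b ^ 1 := (pow_one b).symm
      _ ≤ _ := Nat.pow_le_pow_right (by omega) h3

end Pool.Agent.Helper76x.EX
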