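import Pool.Agent.Helper76x.EX.RunDim

/-! Project EX (helper76): long runs of exponents on a set of large dimension, the theorem. -/

set_option autoImplicit false

namespace Pool.Agent.Helper76x.EX

open Finset Filter Set

theorem Fine.mono {b V : ℕ} {ε η lo hi lo' hi' : ℝ} {n : ℕ} (h : Fine b V ε η lo hi n)
    (h1 : lo ≤ lo') (h2 : hi' ≤ hi) : Fine b V ε η lo' hi' n := by
  obtain ⟨⟨f1, f2⟩, f3⟩ := h
  refine ⟨⟨f1, fun A hA1 hA2 => f2 A ?_ ?_⟩, f3⟩
  · exact (mul_le_mul_of_nonneg_right h1 (by positivity)).trans hA1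
  · exact hA2.trans (mul_le_mul_of_nonneg_right h2 (by positivity))

theorem dim_runs {b : ℕ} (hb : 2 ≤ b) {ε s : ℝ} (hε : 0 < ε) (hs0 : 0 < s) (hs : s * (1 + ε) < 1)
    {u0 v0 : ℝ} (hu : 0 < u0) (huv : u0 < v0) :
    ENNReal.ofReal s ≤ dimH {x : ℝ | x ∈ Set.Ioo u0 v0 ∧ ∃ᶠ a : ℕ in atTop,
      ∀ p : ℕ, p.Prime → a < p → (p : ℝ) ≤ (1 + ε) * a → (WB b x p).Prime} := by
  have hb0 : (0 : ℝ) < b := by exact_mod_cast (by omega : 0 < b)
  have hb1 : (1 : ℝ) < b := by exact_mod_cast (by omega : 1 < b)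
  have hs1 : s ≤ 1 := by nlinarith
  -- the parameter V
  obtain ⟨V, hV⟩ := exists_nat_gt ((1 + ε) / (1 - s * (1 + ε)))
  have hd : 0 < 1 - s * (1 + ε) := by linarith
  have hVpos : (0 : ℝ) < V := lt_trans (by positivity) hV
  have hV0 : 0 < V := by exact_mod_cast hVpos
  obtain ⟨η, hη⟩ : ∃ η, η = 1 - (s + 1 / V) * (1 + ε) := ⟨_, rfl⟩
  have hη0 : 0 < η := by
    rw [div_lt_iff₀ hd] at hV
    have : 1 / (V : ℝ) * (1 + ε) < 1 - s * (1 + ε) := by
      rw [one_div, inv_mul_lt_iff₀ hVpos]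
      exact hV
    rw [hη]; linarith
  -- the threshold
  have hpow : Tendsto (fun n : ℕ => (b : ℝ) ^ n) atTop atTop := tendsto_pow_atTop_atTop_of_one_lt hb1
  have hbig : ∀ᶠ a : ℕ in atTop, (1 + ε) * (a : ℝ) < u0 * (b : ℝ) ^ a := by
    have h1 : Tendsto (fun a : ℕ => (a : ℝ) / (b : ℝ) ^ a) atTop (nhds 0) := by
      have := tendsto_pow_const_div_const_pow_of_one_lt 1 hb1
      simpa using this
    filter_upwards [h1.eventually (gt_mem_nhds (show 0 < u0 / (1 + ε) by positivity))] with a ha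
    rw [div_lt_div_iff₀ (by positivity) (by positivity)] at ha
    linarith
  obtain ⟨N0, hN0⟩ := eventually_atTop.1 ((ev_fine hb hV0 hε hη0 hu huv).and
    (hbig.and (hpow.eventually_gt_atTop (2 / (v0 - u0)))))
  set B0 := N0 with hB0
  have hpB : (0 : ℝ) < (b : ℝ) ^ B0 := by positivity
  set m0 := ⌊u0 * (b : ℝ) ^ B0⌋₊ + 1 with hm0
  have hm1 : 1 ≤ m0 := by omega
  have hlo : u0 < (m0 : ℝ) / (b : ℝ) ^ B0 := by
    rw [lt_div_iff₀ hpB, hm0]
    push_cast
    exact Nat.lt_floor_add_one _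
  have hhi : ((m0 : ℝ) + 1) / (b : ℝ) ^ B0 < v0 := by
    rw [div_lt_iff₀ hpB, hm0]
    push_cast
    have h1 := Nat.floor_le (show 0 ≤ u0 * (b : ℝ) ^ B0 by positivity)
    have h2 := (hN0 B0 le_rfl).2.2
    rw [div_lt_iff₀ (by linarith)] at h2
    nlinarith
  have hF : ∀ n ≥ B0, Fine b V ε η ((m0 : ℝ) / (b : ℝ) ^ B0) (((m0 : ℝ) + 1) / (b : ℝ) ^ B0) n :=
    fun n hn => (hN0 n hn).1.mono hlo.le hhi.le
  set S := runScheme hb hm1 hF with hS
  have hlev0 : S.lev 0 = B0 := rfl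
  have hfr0 : S.fr 0 = B0 := rfl
  have hlevs : ∀ j, S.lev (j + 1) = b ^ (S.fr j / V) := fun j => rfl
  have hfrs : ∀ j, S.fr (j + 1) = S.lev (j + 1) + ⌊ε * ((S.lev (j + 1) : ℕ) : ℝ)⌋₊ := fun j => rfl
  have hKs : ∀ j, S.K j = S.lev (j + 1) - S.fr j - (S.fr j / V + 4) := fun j => rfl
  have hfrB : ∀ j, B0 ≤ S.fr j := fun j =>
    lf_ge (ε := ε) (V := V) (B0 := B0) (b := b) (fun n hn => by have := (hF n hn).2.2.2.2; omega) j
  have hK : ∀ j, S.lev (j + 1) = S.fr j + (S.fr j / V + 4) + S.K j ∧ 1 ≤ S.K j := by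
    intro j
    have h1 := (hF _ (hfrB j)).1.1
    rw [← hlevs] at h1
    have h2 := hKs j
    generalize S.fr j / V = e at *
    omega
  have hle : ∀ j, S.lev j + 5 ≤ S.lev (j + 1) := by
    intro j
    have h1 := (hF _ (hfrB j)).2.2.2.2
    rw [← hlevs] at h1
    have h2 := S.lf j
    omega
  have hlevj : ∀ j, B0 + j ≤ S.lev j := by
    intro j
    induction j with
    | zero => exact le_rfl
    | succ j ih => have := hle j; omega
  have hfrup : ∀ j, (S.fr (j + 1) : ℝ) ≤ (1 + ε) * S.lev (j + 1) := by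
    intro j
    rw [hfrs]
    push_cast
    have := Nat.floor_le (show 0 ≤ ε * ((S.lev (j + 1) : ℕ) : ℝ) by positivity)
    linarith
  -- the dimension
  have hdim : ENNReal.ofReal s ≤ dimH S.limits := by
    refine S.dim hb (C := (b : ℝ) ^ (B0 + (B0 / V + 4))) hs0 hs1 (by positivity) ?_ ?_
    · have h1 : ∀ j, j ≤ S.kap j := by
        intro j
        induction j with
        | zero => exact Nat.zero_le _
        | succ j ih =>
          unfold Scheme.kap at *
          rw [sum_range_succ]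
          have := (hK j).2
          omega
      exact tendsto_atTop_mono h1 tendsto_id
    · intro j
      have hG : ((S.G j : ℕ) : ℝ) = 1 := by
        show ((1 : ℕ) : ℝ) = 1
        norm_num
      rw [hG, mul_one]
      have hone : (1 : ℝ) ≤ ((b : ℝ) ^ S.fr j) ^ (1 - s) :=
        Real.one_le_rpow (one_le_pow₀ hb1.le) (by linarith)
      have hkap : S.kap (j + 1) = S.kap j + S.K j := by
        unfold Scheme.kap; rw [sum_range_succ]
      cases j with
      | zero =>
        rw [(hK 0).1, hkap, hfr0]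
        have : S.kap 0 = 0 := by unfold Scheme.kap; simp
        rw [this, zero_add, pow_add _ (B0 + (B0 / V + 4))]
        rw [hfr0] at hone
        have hp : (0 : ℝ) ≤ (b : ℝ) ^ (B0 + (B0 / V + 4)) * (b : ℝ) ^ S.K 0 := by positivity
        exact le_mul_of_one_le_right hp hone
      | succ i =>
        -- exponents
        obtain ⟨a, ha⟩ : ∃ a, a = S.lev (i + 1) := ⟨_, rfl⟩
        have hn := (hF _ (hfrB i)).2.1
        rw [← hlevs, ← ha] at hn
        have h1 : (S.fr (i + 1) : ℝ) ≤ (1 + ε) * a := by rw [ha]; exact hfrup i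
        have h2 : ((S.fr (i + 1) / V : ℕ) : ℝ) ≤ S.fr (i + 1) / V := Nat.cast_div_le
        have h3 : (a : ℝ) ≤ S.K i + 2 * S.fr i + 4 := by
          have e1 := (hK i).1
          have e2 : S.fr i / V ≤ S.fr i := Nat.div_le_self _ _
          have : a ≤ S.K i + 2 * S.fr i + 4 := by
            rw [ha]
            generalize S.fr i / V = e at *
            omega
          exact_mod_cast this
        have h4 : (S.K i : ℝ) ≤ S.kap (i + 1) := by
          have : S.K i ≤ S.kap (i + 1) := by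
            unfold Scheme.kap; rw [sum_range_succ]; omega
          exact_mod_cast this
        have hfr0' : (0 : ℝ) ≤ S.fr (i + 1) := Nat.cast_nonneg _
        have h5 : s * (S.fr (i + 1) : ℝ) + S.fr (i + 1) / V ≤ (s + 1 / V) * ((1 + ε) * a) := by
          calc s * (S.fr (i + 1) : ℝ) + S.fr (i + 1) / V = (s + 1 / V) * S.fr (i + 1) := by ring
            _ ≤ _ := mul_le_mul_of_nonneg_left h1 (by positivity)
        have h6 : (s + 1 / V) * ((1 + ε) * (a : ℝ)) = (1 - η) * a := by rw [hη]; ring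
        have hexp : ((S.lev (i + 1 + 1) : ℕ) : ℝ) ≤ ((S.kap (i + 1 + 1) : ℕ) : ℝ) +
            S.fr (i + 1) * (1 - s) := by
          rw [(hK (i + 1)).1, hkap]
          push_cast
          linarith
        have hCone : (1 : ℝ) ≤ (b : ℝ) ^ (B0 + (B0 / V + 4)) := one_le_pow₀ hb1.le
        have e1 : (b : ℝ) ^ S.lev (i + 1 + 1) ≤
            (b : ℝ) ^ S.kap (i + 1 + 1) * ((b : ℝ) ^ S.fr (i + 1)) ^ (1 - s) := by
          rw [← Real.rpow_natCast (b : ℝ) (S.lev (i + 1 + 1)),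
            ← Real.rpow_natCast (b : ℝ) (S.kap (i + 1 + 1)),
            ← Real.rpow_natCast (b : ℝ) (S.fr (i + 1)), ← Real.rpow_mul hb0.le,
            ← Real.rpow_add hb0]
          exact Real.rpow_le_rpow_of_exponent_le hb1.le hexp
        calc (b : ℝ) ^ S.lev (i + 1 + 1) ≤
            (b : ℝ) ^ S.kap (i + 1 + 1) * ((b : ℝ) ^ S.fr (i + 1)) ^ (1 - s) := e1
          _ = 1 * ((b : ℝ) ^ S.kap (i + 1 + 1) * ((b : ℝ) ^ S.fr (i + 1)) ^ (1 - s)) := by ring
          _ ≤ (b : ℝ) ^ (B0 + (B0 / V + 4)) *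
              ((b : ℝ) ^ S.kap (i + 1 + 1) * ((b : ℝ) ^ S.fr (i + 1)) ^ (1 - s)) :=
              mul_le_mul_of_nonneg_right hCone (by positivity)
          _ = _ := by ring
  refine hdim.trans (dimH_mono ?_)
  intro x hx
  refine ⟨?_, ?_⟩
  · obtain ⟨m, hQ, h1, h2⟩ := hx 0
    obtain ⟨_, q2, q3, _⟩ := hQ
    have e0 : (lf b V B0 ε 0).1 - B0 = 0 := Nat.sub_self B0
    rw [e0, pow_zero, mul_one] at q2 q3
    have : m = m0 := by omega
    rw [hlev0, this] at h1 h2
    rw [hfr0] at h2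
    constructor
    · linarith
    · have : (m0 : ℝ) / (b : ℝ) ^ B0 + 1 / (b : ℝ) ^ B0 = ((m0 : ℝ) + 1) / (b : ℝ) ^ B0 := by ring
      linarith
  · rw [frequently_atTop]
    intro N
    refine ⟨S.lev (N + 1), by have := hlevj (N + 1); omega, fun p hp hap hpe => ?_⟩
    obtain ⟨m, hQ, h1, h2⟩ := hx (N + 1)
    have hmp : m.Prime := hQ.2.2.2 (by omega)
    have hab : b ≤ S.lev (N + 1) := by
      have := (hF _ (hfrB N)).2.2.2.1
      rw [← hlevs] at this
      exact this
    have hpfr : p ≤ S.fr (N + 1) := by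
      rw [hfrs]
      have h3 : ((p - S.lev (N + 1) : ℕ) : ℝ) ≤ ε * ((S.lev (N + 1) : ℕ) : ℝ) := by
        rw [Nat.cast_sub hap.le]
        linarith
      have := Nat.le_floor h3
      omega
    have hpm : p < m := by
      have hq2 := hQ.2.1
      have hle' : B0 ≤ S.lev (N + 1) := hQ.1
      have h3 : (u0 : ℝ) * (b : ℝ) ^ S.lev (N + 1) < m := by
        have h4 : ((m0 * b ^ (S.lev (N + 1) - B0) : ℕ) : ℝ) ≤ m := by exact_mod_cast hq2
        refine lt_of_lt_of_le ?_ h4
        rw [lt_div_iff₀ hpB] at hlo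
        obtain ⟨c, hc⟩ := Nat.exists_eq_add_of_le hle'
        rw [hc, Nat.add_sub_cancel_left, pow_add]
        push_cast
        have : (0 : ℝ) < (b : ℝ) ^ c := by positivity
        nlinarith
      have h5 := (hN0 (S.lev (N + 1)) hle').2.1
      have : (p : ℝ) < m := by linarith
      exact_mod_cast this
    rw [WB_prime (by omega) hmp h1 h2 hap.le hpfr (by omega) hpm]
    exact hmp

end Pool.Agent.Helper76x.EX
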