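import Pool.Agent.Helper76x.EX.Dim

/-! Project EX (helper76): the dimension of the set of all limit points of a tree of prefixes. -/

set_option autoImplicit false

namespace Pool.Agent.Helper76x.EX

open Set Finset Filter

/-- A tree of prefixes in base `b`: a prefix at stage `j` has `lev j` digits, it is followed by zeros
up to the position `fr j`; then come free digits up to the position `lev (j + 1)`. The next prefix
is chosen with the help of an index with `K j` digits. -/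
structure Scheme (b : ℕ) where
  lev : ℕ → ℕ
  fr : ℕ → ℕ
  K : ℕ → ℕ
  G : ℕ → ℕ
  Q : ℕ → ℕ → Prop
  nx : ℕ → ℕ → ℕ → ℕ
  m0 : ℕ
  h0 : Q 0 m0
  lf : ∀ j, lev j ≤ fr j
  fl : ∀ j, fr j ≤ lev (j + 1)
  nxQ : ∀ j m i, Q j m → i < b ^ K j → Q (j + 1) (nx j m i)
  lo : ∀ j m i, Q j m → i < b ^ K j → m * b ^ (lev (j + 1) - lev j) < nx j m i
  up : ∀ j m i, Q j m → i < b ^ K j →
    nx j m i < m * b ^ (lev (j + 1) - lev j) + b ^ (lev (j + 1) - fr j)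
  gap : ∀ j m i i', Q j m → i < i' → i' < b ^ K j → nx j m i + G j * (i' - i) ≤ nx j m i'
  hG : ∀ j, 2 * b ^ lev (j + 1) ≤ G j * b ^ fr (j + 1)

namespace Scheme

variable {b : ℕ} (S : Scheme b)

def kap (j : ℕ) : ℕ := ∑ i ∈ range j, S.K i

noncomputable def Dg (j : ℕ) (t : ℝ) : ℕ := ⌊t * (b : ℝ) ^ S.kap j⌋₊

noncomputable def PP (t : ℝ) : ℕ → ℕ
  | 0 => S.m0
  | j + 1 => S.nx j (PP t j) (S.Dg (j + 1) t % b ^ S.K j)

noncomputable def y (t : ℝ) (j : ℕ) : ℝ := (S.PP t j : ℝ) / (b : ℝ) ^ S.lev j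

noncomputable def lim (t : ℝ) : ℝ := ⨆ j, S.y t j

/-- the set of the limit points -/
def limits : Set ℝ := {x | ∀ j, ∃ m, S.Q j m ∧ (m : ℝ) / (b : ℝ) ^ S.lev j < x ∧
  x ≤ (m : ℝ) / (b : ℝ) ^ S.lev j + 1 / (b : ℝ) ^ S.fr j}

theorem PP_Q (hb : 2 ≤ b) (t : ℝ) (j : ℕ) : S.Q j (S.PP t j) := by
  induction j with
  | zero => exact S.h0
  | succ j ih => exact S.nxQ j _ _ ih (Nat.mod_lt _ (pow_pos (by omega) _))

theorem y_step (hb : 2 ≤ b) (t : ℝ) (j : ℕ) : S.y t j < S.y t (j + 1) ∧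
    S.y t (j + 1) + 1 / (b : ℝ) ^ S.lev (j + 1) ≤ S.y t j + 1 / (b : ℝ) ^ S.fr j := by
  have hb0 : (0 : ℝ) < b := by exact_mod_cast (by omega : 0 < b)
  have hmod : S.Dg (j + 1) t % b ^ S.K j < b ^ S.K j := Nat.mod_lt _ (pow_pos (by omega) _)
  have h1 := S.lo j _ _ (S.PP_Q hb t j) hmod
  have h2 := S.up j _ _ (S.PP_Q hb t j) hmod
  have e1 : (((S.PP t j * b ^ (S.lev (j + 1) - S.lev j) : ℕ)) : ℝ) / (b : ℝ) ^ S.lev (j + 1) =
      (S.PP t j : ℝ) / (b : ℝ) ^ S.lev j := by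
    obtain ⟨d, hd⟩ := Nat.exists_eq_add_of_le ((S.lf j).trans (S.fl j))
    rw [hd, Nat.add_sub_cancel_left, pow_add]
    push_cast
    field_simp
  have e2 : ((b ^ (S.lev (j + 1) - S.fr j) : ℕ) : ℝ) / (b : ℝ) ^ S.lev (j + 1) =
      1 / (b : ℝ) ^ S.fr j := by
    obtain ⟨d, hd⟩ := Nat.exists_eq_add_of_le (S.fl j)
    rw [hd, Nat.add_sub_cancel_left, pow_add]
    push_cast
    field_simp
  have hp : (0 : ℝ) < (b : ℝ) ^ S.lev (j + 1) := by positivity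
  constructor
  · unfold y
    rw [← e1]
    apply div_lt_div_of_pos_right _ hp
    exact_mod_cast h1
  · unfold y
    rw [← e1, ← e2, ← add_div, ← add_div]
    apply div_le_div_of_nonneg_right _ hp.le
    have h3 : S.nx j (S.PP t j) (S.Dg (j + 1) t % b ^ S.K j) + 1 ≤
        S.PP t j * b ^ (S.lev (j + 1) - S.lev j) + b ^ (S.lev (j + 1) - S.fr j) := h2
    exact_mod_cast h3

theorem y_mono (hb : 2 ≤ b) (t : ℝ) : StrictMono (S.y t) :=
  strictMono_nat_of_lt_succ fun j => (S.y_step hb t j).1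

theorem z_anti (hb : 2 ≤ b) (t : ℝ) : Antitone fun j => S.y t j + 1 / (b : ℝ) ^ S.fr j := by
  have hb0 : (0 : ℝ) < b := by exact_mod_cast (by omega : 0 < b)
  have hb1 : (1 : ℝ) ≤ b := by exact_mod_cast (by omega : 1 ≤ b)
  refine antitone_nat_of_succ_le fun j => ?_
  refine le_trans ?_ (S.y_step hb t j).2
  have : 1 / (b : ℝ) ^ S.fr (j + 1) ≤ 1 / (b : ℝ) ^ S.lev (j + 1) :=
    one_div_le_one_div_of_le (by positivity) (pow_le_pow_right₀ hb1 (S.lf _))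
  linarith

theorem y_le_z (hb : 2 ≤ b) (t : ℝ) (i j : ℕ) : S.y t i ≤ S.y t j + 1 / (b : ℝ) ^ S.fr j := by
  have hb0 : (0 : ℝ) < b := by exact_mod_cast (by omega : 0 < b)
  have h1 : ∀ i, S.y t i ≤ S.y t i + 1 / (b : ℝ) ^ S.fr i := by
    intro i
    have : 0 < 1 / (b : ℝ) ^ S.fr i := by positivity
    linarith
  rcases le_total i j with h | h
  · exact ((S.y_mono hb t).monotone h).trans (h1 j)
  · exact (h1 i).trans (S.z_anti hb t h)

theorem bdd (hb : 2 ≤ b) (t : ℝ) : BddAbove (range (S.y t)) := by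
  refine ⟨S.y t 0 + 1 / (b : ℝ) ^ S.fr 0, ?_⟩
  rintro _ ⟨i, rfl⟩
  exact S.y_le_z hb t i 0

theorem lim_gt (hb : 2 ≤ b) (t : ℝ) (j : ℕ) : S.y t j < S.lim t :=
  lt_of_lt_of_le (S.y_step hb t j).1 (le_ciSup (S.bdd hb t) (j + 1))

theorem lim_le (hb : 2 ≤ b) (t : ℝ) (j : ℕ) : S.lim t ≤ S.y t j + 1 / (b : ℝ) ^ S.fr j :=
  ciSup_le fun i => S.y_le_z hb t i j

theorem lim_mem (hb : 2 ≤ b) (t : ℝ) : S.lim t ∈ S.limits := fun j =>
  ⟨S.PP t j, S.PP_Q hb t j, S.lim_gt hb t j, S.lim_le hb t j⟩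

theorem Dg_div (hb : 2 ≤ b) (j : ℕ) (t : ℝ) : S.Dg (j + 1) t / b ^ S.K j = S.Dg j t := by
  unfold Dg kap
  rw [← Nat.floor_div_natCast, sum_range_succ, pow_add]
  congr 1
  have hb0 : (0 : ℝ) < b := by exact_mod_cast (by omega : 0 < b)
  push_cast
  field_simp

theorem Dg_zero {t : ℝ} (ht : t ∈ Ico (0 : ℝ) 1) : S.Dg 0 t = 0 := by
  unfold Dg kap
  simp only [Finset.range_zero, Finset.sum_empty, pow_zero, mul_one]
  rw [Nat.floor_eq_zero]
  exact ht.2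

theorem PP_eq {t u : ℝ} (j : ℕ) (h : ∀ i ≤ j, S.Dg i t = S.Dg i u) : S.PP t j = S.PP u j := by
  induction j with
  | zero => rfl
  | succ j ih =>
    show S.nx j (S.PP t j) _ = S.nx j (S.PP u j) _
    rw [ih fun i hi => h i (by omega), h (j + 1) le_rfl]

theorem holder (hb : 2 ≤ b) {s C : ℝ} (hs0 : 0 < s) (hs1 : s ≤ 1) (hC : 0 ≤ C)
    (hk : Tendsto S.kap atTop atTop)
    (hH : ∀ j, (b : ℝ) ^ S.lev (j + 1) ≤
      C * S.G j * (b : ℝ) ^ S.kap (j + 1) * ((b : ℝ) ^ S.fr j) ^ (1 - s))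
    {t u : ℝ} (ht : t ∈ Ico (0 : ℝ) 1) (hu : u ∈ Ico (0 : ℝ) 1) (htu : t < u) :
    |t - u| ≤ 4 * C * |S.lim t - S.lim u| ^ s := by
  classical
  have hb0 : (0 : ℝ) < b := by exact_mod_cast (by omega : 0 < b)
  have hb1 : (1 : ℝ) < b := by exact_mod_cast (by omega : 1 < b)
  -- the first difference
  have hex : ∃ j, S.Dg j t ≠ S.Dg j u := by
    obtain ⟨n, hn⟩ := pow_unbounded_of_one_lt (2 / (u - t)) hb1
    obtain ⟨j, hj⟩ := (hk.eventually_ge_atTop n).exists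
    refine ⟨j, fun h => ?_⟩
    have h1 : 2 / (u - t) < (b : ℝ) ^ S.kap j := hn.trans_le (pow_le_pow_right₀ hb1.le hj)
    rw [div_lt_iff₀ (by linarith)] at h1
    unfold Dg at h
    have h2 := Nat.lt_floor_add_one (t * (b : ℝ) ^ S.kap j)
    have h3 := Nat.floor_le (show 0 ≤ t * (b : ℝ) ^ S.kap j from mul_nonneg ht.1 (by positivity))
    have h4 := Nat.lt_floor_add_one (u * (b : ℝ) ^ S.kap j)
    rw [← h] at h4
    nlinarith
  obtain ⟨j', hj'⟩ : ∃ j', j' = Nat.find hex := ⟨_, rfl⟩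
  have hne : S.Dg j' t ≠ S.Dg j' u := hj' ▸ Nat.find_spec hex
  have hlt : ∀ i < j', S.Dg i t = S.Dg i u := by
    intro i hi
    by_contra h
    exact Nat.find_min hex (hj' ▸ hi) h
  obtain ⟨j, rfl⟩ : ∃ j, j' = j + 1 := by
    cases j' with
    | zero => exact absurd (by rw [S.Dg_zero ht, S.Dg_zero hu]) hne
    | succ j => exact ⟨j, rfl⟩
  have hPP : S.PP t j = S.PP u j := S.PP_eq j fun i hi => hlt i (by omega)
  have hDg : S.Dg j t = S.Dg j u := hlt j (by omega)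
  have hmono : S.Dg (j + 1) t ≤ S.Dg (j + 1) u := by
    unfold Dg
    exact Nat.floor_mono (mul_le_mul_of_nonneg_right htu.le (by positivity))
  have hlt' : S.Dg (j + 1) t < S.Dg (j + 1) u := lt_of_le_of_ne hmono hne
  have hq1 := Nat.div_add_mod (S.Dg (j + 1) t) (b ^ S.K j)
  have hq2 := Nat.div_add_mod (S.Dg (j + 1) u) (b ^ S.K j)
  rw [S.Dg_div hb] at hq1 hq2
  rw [← hDg] at hq2
  have hKpos : 0 < b ^ S.K j := pow_pos (by omega) _
  set i := S.Dg (j + 1) t % b ^ S.K j with hi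
  set i' := S.Dg (j + 1) u % b ^ S.K j with hi'
  have hii : i < i' := by omega
  have hi'K : i' < b ^ S.K j := Nat.mod_lt _ hKpos
  have hgap := S.gap j (S.PP u j) i i' (S.PP_Q hb u j) hii hi'K
  obtain ⟨Δ, hΔ⟩ : ∃ Δ, Δ = i' - i := ⟨_, rfl⟩
  have hΔ1 : 1 ≤ Δ := by omega
  have hΔD : S.Dg (j + 1) u = S.Dg (j + 1) t + Δ := by omega
  rw [← hΔ] at hgap
  have hΔr : (1 : ℝ) ≤ Δ := by exact_mod_cast hΔ1
  set κ := S.kap (j + 1) with hκ
  have hpk : (0 : ℝ) < (b : ℝ) ^ κ := by positivity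
  -- upper bound of `u - t`
  have hA : u - t ≤ 2 * Δ / (b : ℝ) ^ κ := by
    rw [le_div_iff₀ hpk]
    have h2 := Nat.floor_le (show 0 ≤ t * (b : ℝ) ^ κ from mul_nonneg ht.1 (by positivity))
    have h4 := Nat.lt_floor_add_one (u * (b : ℝ) ^ κ)
    have h5 : ((⌊u * (b : ℝ) ^ κ⌋₊ : ℕ) : ℝ) = (⌊t * (b : ℝ) ^ κ⌋₊ : ℕ) + Δ := by
      have : ⌊u * (b : ℝ) ^ κ⌋₊ = ⌊t * (b : ℝ) ^ κ⌋₊ + Δ := hΔD
      rw [this]; push_cast; ring
    rw [h5] at h4
    nlinarith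
  -- lower bound of the distance
  have hpl : (0 : ℝ) < (b : ℝ) ^ S.lev (j + 1) := by positivity
  have hB : (S.G j : ℝ) * Δ / (2 * (b : ℝ) ^ S.lev (j + 1)) ≤ S.lim u - S.lim t := by
    have h1 := (S.lim_gt hb u (j + 1)).le
    have h2 := S.lim_le hb t (j + 1)
    have h3 : S.y t (j + 1) + (S.G j : ℝ) * Δ / (b : ℝ) ^ S.lev (j + 1) ≤ S.y u (j + 1) := by
      unfold y
      rw [← add_div]
      apply div_le_div_of_nonneg_right _ hpl.le
      have h4 : S.PP t (j + 1) = S.nx j (S.PP u j) i := by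
        show S.nx j (S.PP t j) _ = _
        rw [hPP]
      have h5 : S.PP u (j + 1) = S.nx j (S.PP u j) i' := rfl
      rw [h4, h5]
      exact_mod_cast hgap
    have h4 : 1 / (b : ℝ) ^ S.fr (j + 1) ≤ (S.G j : ℝ) * Δ / (2 * (b : ℝ) ^ S.lev (j + 1)) := by
      rw [div_le_div_iff₀ (by positivity) (by positivity)]
      have h5 : (2 : ℝ) * (b : ℝ) ^ S.lev (j + 1) ≤ S.G j * (b : ℝ) ^ S.fr (j + 1) := by
        exact_mod_cast S.hG j
      have h6 : (S.G j : ℝ) * (b : ℝ) ^ S.fr (j + 1) ≤ S.G j * Δ * (b : ℝ) ^ S.fr (j + 1) := by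
        have : (0 : ℝ) ≤ S.G j * (b : ℝ) ^ S.fr (j + 1) := by positivity
        nlinarith
      linarith
    have h7 : (S.G j : ℝ) * Δ / (b : ℝ) ^ S.lev (j + 1) =
        2 * ((S.G j : ℝ) * Δ / (2 * (b : ℝ) ^ S.lev (j + 1))) := by
      field_simp
    linarith
  -- upper bound of the distance
  have hD : S.lim u - S.lim t ≤ 1 / (b : ℝ) ^ S.fr j := by
    have h1 := S.lim_gt hb t j
    have h2 := S.lim_le hb u j
    have h3 : S.y t j = S.y u j := by unfold y; rw [hPP]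
    linarith
  set δ := S.lim u - S.lim t with hδ
  have hGpos : (0 : ℝ) < S.G j := by
    have h1 := S.hG j
    have : 0 < S.G j := by
      rcases Nat.eq_zero_or_pos (S.G j) with h | h
      · rw [h, zero_mul] at h1
        have : 0 < b ^ S.lev (j + 1) := pow_pos (by omega) _
        omega
      · exact h
    exact_mod_cast this
  have hδ0 : 0 < δ := lt_of_lt_of_le (by positivity) hB
  have habs : |S.lim t - S.lim u| = δ := by rw [abs_sub_comm, hδ, abs_of_pos hδ0]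
  rw [habs, abs_sub_comm, abs_of_pos (by linarith : 0 < u - t)]
  -- combine
  have h1 : (Δ : ℝ) ≤ 2 * (b : ℝ) ^ S.lev (j + 1) * δ / S.G j := by
    rw [le_div_iff₀ hGpos]
    rw [div_le_iff₀ (by positivity)] at hB
    linarith
  have h2 : u - t ≤ 4 * ((b : ℝ) ^ S.lev (j + 1) / (S.G j * (b : ℝ) ^ κ)) * δ := by
    refine hA.trans ?_
    rw [div_le_iff₀ hpk]
    calc 2 * (Δ : ℝ) ≤ 2 * (2 * (b : ℝ) ^ S.lev (j + 1) * δ / S.G j) := by linarith
      _ = 4 * ((b : ℝ) ^ S.lev (j + 1) / (S.G j * (b : ℝ) ^ κ)) * δ * (b : ℝ) ^ κ := by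
          field_simp
          ring
  have h3 : (b : ℝ) ^ S.lev (j + 1) / (S.G j * (b : ℝ) ^ κ) ≤ C * ((b : ℝ) ^ S.fr j) ^ (1 - s) := by
    rw [div_le_iff₀ (by positivity)]
    calc _ ≤ _ := hH j
      _ = _ := by ring
  have h4 : δ = δ ^ (1 - s) * δ ^ s := by
    rw [← Real.rpow_add hδ0]; simp
  have h5 : ((b : ℝ) ^ S.fr j) ^ (1 - s) * δ ^ (1 - s) ≤ 1 := by
    rw [← Real.mul_rpow (by positivity) hδ0.le]
    apply Real.rpow_le_one (by positivity) _ (by linarith)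
    rw [le_div_iff₀ (by positivity)] at hD
    linarith
  have h6 : 0 ≤ δ ^ s := Real.rpow_nonneg hδ0.le _
  calc u - t ≤ 4 * ((b : ℝ) ^ S.lev (j + 1) / (S.G j * (b : ℝ) ^ κ)) * δ := h2
    _ ≤ 4 * (C * ((b : ℝ) ^ S.fr j) ^ (1 - s)) * δ := by
        apply mul_le_mul_of_nonneg_right _ hδ0.le
        linarith
    _ = 4 * C * (((b : ℝ) ^ S.fr j) ^ (1 - s) * δ ^ (1 - s)) * δ ^ s := by
        conv_lhs => rw [h4]
        ring
    _ ≤ 4 * C * 1 * δ ^ s := by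
        apply mul_le_mul_of_nonneg_right _ h6
        exact mul_le_mul_of_nonneg_left h5 (by linarith)
    _ = 4 * C * δ ^ s := by ring

theorem dim (hb : 2 ≤ b) {s C : ℝ} (hs0 : 0 < s) (hs1 : s ≤ 1) (hC : 0 ≤ C)
    (hk : Tendsto S.kap atTop atTop)
    (hH : ∀ j, (b : ℝ) ^ S.lev (j + 1) ≤
      C * S.G j * (b : ℝ) ^ S.kap (j + 1) * ((b : ℝ) ^ S.fr j) ^ (1 - s)) :
    ENNReal.ofReal s ≤ dimH S.limits := by
  refine (dim_lower (F := S.lim) (C := 4 * C) hs0 (by linarith) ?_).trans (dimH_mono ?_)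
  · intro t ht u hu
    rcases lt_trichotomy t u with h | h | h
    · exact S.holder hb hs0 hs1 hC hk hH ht hu h
    · rw [h, sub_self, sub_self, abs_zero, Real.zero_rpow hs0.ne', mul_zero]
    · have := S.holder hb hs0 hs1 hC hk hH hu ht h
      rw [abs_sub_comm t u, abs_sub_comm (S.lim t)]
      exact this
  · rintro _ ⟨t, _, rfl⟩
    exact S.lim_mem hb t

end Scheme

end Pool.Agent.Helper76x.EX
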